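import Pool.Agent.Helper42.Jef.Defs2

/-! # Pointwise calculus of the cut off heat kernels -/

open MeasureTheory Set Filter Topology
open scoped ENNReal ContDiff

namespace Pool.Agent.Helper37.Jef
open Pool.Agent.Helper42.Jef
variable {n : ℕ}

/-- space-time derivative of the heat kernel -/
noncomputable def gk (l : List (Fin n)) (p : ST n) : ℝ := pds l (Gs p.1) p.2

/-- open half space of positive times -/
def HS (n : ℕ) : Set (ST n) := {p | 0 < p.1}

theorem two_le_inf : (2 : WithTop ℕ∞) ≤ ((⊤ : ℕ∞) : WithTop ℕ∞) := by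
  have h : ((2 : ℕ∞) : WithTop ℕ∞) ≤ ((⊤ : ℕ∞) : WithTop ℕ∞) := WithTop.coe_le_coe.2 le_top
  exact h

theorem isOpen_HS : IsOpen (HS n) := isOpen_lt continuous_const continuous_fst

theorem HS_nhds {p : ST n} (hp : p ∈ HS n) : HS n ∈ 𝓝 p := isOpen_HS.mem_nhds hp

theorem gk_nil_smooth : ContDiffOn ℝ ∞ (gk (n := n) []) (HS n) := by
  have e : gk (n := n) [] = fun p : ST n =>
      (4 * Real.pi * p.1) ^ (-(n : ℝ) / 2) * Real.exp (-‖p.2‖ ^ 2 / (4 * p.1)) := rfl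
  rw [e]
  have h1 : ContDiffOn ℝ ∞ (fun p : ST n => 4 * Real.pi * p.1) (HS n) :=
    (contDiff_const.mul contDiff_fst).contDiffOn
  have h1' : ContDiffOn ℝ ∞ (fun p : ST n => 4 * p.1) (HS n) :=
    (contDiff_const.mul contDiff_fst).contDiffOn
  have h2 : ContDiffOn ℝ ∞ (fun p : ST n => (4 * Real.pi * p.1) ^ (-(n : ℝ) / 2)) (HS n) := by
    refine h1.rpow_const_of_ne fun p hp => ?_
    have : 0 < p.1 := hp
    positivity
  have h3 : ContDiff ℝ ∞ (fun p : ST n => ‖p.2‖ ^ 2) := contDiff_snd.norm_sq ℝ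
  have h4 : ContDiffOn ℝ ∞ (fun p : ST n => -‖p.2‖ ^ 2 / (4 * p.1)) (HS n) := by
    refine (h3.neg.contDiffOn).div h1' fun p hp => ?_
    have : 0 < p.1 := hp
    positivity
  exact h2.mul h4.exp

theorem gk_smooth_cons {l : List (Fin n)} (h : ContDiffOn ℝ ∞ (gk l) (HS n)) {p : ST n}
    (hp : p ∈ HS n) (i : Fin n) : gk (i :: l) p = fderiv ℝ (gk l) p (0, bv i) := by
  have hd : DifferentiableAt ℝ (gk l) p :=
    (h.contDiffAt (HS_nhds hp)).differentiableAt (by simp)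
  have h1 : HasFDerivAt (fun x : Eu n => gk l (p.1, x))
      ((fderiv ℝ (gk l) p).comp (ContinuousLinearMap.inr ℝ ℝ (Eu n))) p.2 :=
    HasFDerivAt.comp (g := gk l) (f := fun x : Eu n => (p.1, x)) p.2 hd.hasFDerivAt
      (hasFDerivAt_prodMk_right p.1 p.2)
  have h2 : gk (i :: l) p = fderiv ℝ (fun x : Eu n => gk l (p.1, x)) p.2 (bv i) := rfl
  rw [h2, h1.fderiv]
  simp

theorem gk_smooth (l : List (Fin n)) : ContDiffOn ℝ ∞ (gk l) (HS n) := by
  induction l with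
  | nil => exact gk_nil_smooth
  | cons i l ih =>
    have h1 : ContDiffOn ℝ ∞ (fderiv ℝ (gk l)) (HS n) := ih.fderiv_of_isOpen isOpen_HS (by simp)
    exact (h1.clm_apply contDiffOn_const).congr fun p hp => gk_smooth_cons ih hp i

theorem gk_cons {l : List (Fin n)} {p : ST n} (hp : p ∈ HS n) (i : Fin n) :
    gk (i :: l) p = fderiv ℝ (gk l) p (0, bv i) := gk_smooth_cons (gk_smooth l) hp i

theorem gk_at (l : List (Fin n)) {p : ST n} (hp : p ∈ HS n) : ContDiffAt ℝ ∞ (gk l) p :=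
  (gk_smooth l).contDiffAt (HS_nhds hp)

theorem gk_diff (l : List (Fin n)) {p : ST n} (hp : p ∈ HS n) : DifferentiableAt ℝ (gk l) p :=
  (gk_at l hp).differentiableAt (by simp)

theorem gk_fd_diff (l : List (Fin n)) {p : ST n} (hp : p ∈ HS n) :
    DifferentiableAt ℝ (fderiv ℝ (gk l)) p :=
  ((gk_at l hp).fderiv_right (m := 1)
    (by rw [one_add_one_eq_two]; exact two_le_inf)).differentiableAt (by simp)

theorem gk_symm (l : List (Fin n)) {p : ST n} (hp : p ∈ HS n) (v w : ST n) :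
    fderiv ℝ (fderiv ℝ (gk l)) p v w = fderiv ℝ (fderiv ℝ (gk l)) p w v :=
  ((gk_at l hp).isSymmSndFDerivAt (by
    rw [minSmoothness_of_isRCLikeNormedField]; exact two_le_inf)).eq v w

/-- derivative of a directional derivative -/
theorem gk_dd (l : List (Fin n)) {p : ST n} (hp : p ∈ HS n) (v w : ST n) :
    fderiv ℝ (fun q => fderiv ℝ (gk l) q w) p v = fderiv ℝ (fderiv ℝ (gk l)) p v w := by
  rw [fderiv_clm_apply (gk_fd_diff l hp) (differentiableAt_const w)]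
  simp

theorem gk_cons_fd {l : List (Fin n)} {p : ST n} (hp : p ∈ HS n) (i : Fin n) (v : ST n) :
    fderiv ℝ (gk (i :: l)) p v = fderiv ℝ (fderiv ℝ (gk l)) p v (0, bv i) := by
  have h : gk (i :: l) =ᶠ[𝓝 p] fun q => fderiv ℝ (gk l) q (0, bv i) := by
    filter_upwards [HS_nhds hp] with q hq
    exact gk_cons hq i
  rw [h.fderiv_eq, gk_dd l hp]

theorem gk_swap {l : List (Fin n)} {p : ST n} (hp : p ∈ HS n) (i j : Fin n) :
    gk (i :: j :: l) p = gk (j :: i :: l) p := by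
  rw [gk_cons hp, gk_cons hp, gk_cons_fd hp, gk_cons_fd hp, gk_symm l hp]

theorem pds_perm {s : ℝ} (hs : 0 < s) {l l' : List (Fin n)} (h : l.Perm l') :
    pds l (Gs s) = pds l' (Gs s) := by
  induction h with
  | nil => rfl
  | cons x _ ih => simp only [pds, ih]
  | swap x y l =>
    funext z
    exact gk_swap (p := (s, z)) hs y x
  | trans _ _ ih1 ih2 => exact ih1.trans ih2

theorem gk_perm {l l' : List (Fin n)} (h : l.Perm l') {p : ST n} (hp : p ∈ HS n) :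
    gk l p = gk l' p := congrFun (pds_perm hp h) p.2

/-! ## the heat equation -/

theorem Gs_hasDerivAt_s {s : ℝ} (hs : 0 < s) (x : Eu n) :
    HasDerivAt (fun s => Gs s x) ((-(n : ℝ) / (2 * s) + ‖x‖ ^ 2 / (4 * s ^ 2)) * Gs s x) s := by
  unfold Gs
  have h1 : HasDerivAt (fun s : ℝ => 4 * Real.pi * s) (4 * Real.pi) s := by
    simpa using (hasDerivAt_id s).const_mul (4 * Real.pi)
  have hne : 4 * Real.pi * s ≠ 0 := by positivity
  have h2 := h1.rpow_const (p := -(n : ℝ) / 2) (Or.inl hne)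
  have h3 : HasDerivAt (fun s : ℝ => -‖x‖ ^ 2 / (4 * s)) (‖x‖ ^ 2 / (4 * s ^ 2)) s := by
    have h5 : HasDerivAt (fun s : ℝ => 4 * s) 4 s := by
      simpa using (hasDerivAt_id s).const_mul (4 : ℝ)
    have h4 := (hasDerivAt_const s (-‖x‖ ^ 2)).div h5 (by positivity)
    refine h4.congr_deriv ?_
    field_simp
    ring
  have h4 := h2.mul h3.exp
  refine h4.congr_deriv ?_
  rw [Real.rpow_sub_one hne]
  field_simp

theorem gk_nil_t {p : ST n} (hp : p ∈ HS n) :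
    fderiv ℝ (gk (n := n) []) p (1, 0) =
      (-(n : ℝ) / (2 * p.1) + ‖p.2‖ ^ 2 / (4 * p.1 ^ 2)) * Gs p.1 p.2 := by
  have h1 : HasFDerivAt (fun s : ℝ => gk (n := n) [] (s, p.2))
      ((fderiv ℝ (gk []) p).comp (ContinuousLinearMap.inl ℝ ℝ (Eu n))) p.1 :=
    HasFDerivAt.comp (g := gk []) (f := fun s : ℝ => (s, p.2)) p.1 (gk_diff [] hp).hasFDerivAt
      (hasFDerivAt_prodMk_left p.1 p.2)
  have h2 := h1.hasDerivAt.unique (Gs_hasDerivAt_s hp p.2)
  rw [← h2]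
  simp

theorem Gs_pd {s : ℝ} (x : Eu n) (i : Fin n) :
    pd i (Gs s) x = -(x i / (2 * s)) * Gs s x := by
  unfold pd
  have h1 : HasFDerivAt (fun x : Eu n => ‖x‖ ^ 2) (2 • innerSL ℝ x) x :=
    (hasStrictFDerivAt_norm_sq x).hasFDerivAt
  have h2 : HasFDerivAt (fun x : Eu n => -‖x‖ ^ 2 / (4 * s)) ((-(4 * s)⁻¹) • (2 • innerSL ℝ x)) x := by
    have := h1.const_mul (-(4 * s)⁻¹)
    refine this.congr_of_eventuallyEq (Eventually.of_forall fun y => ?_)
    simp only []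
    ring
  have h3 := h2.exp.const_mul ((4 * Real.pi * s) ^ (-(n : ℝ) / 2))
  have h4 : fderiv ℝ (Gs s) x = _ := h3.fderiv
  rw [h4]
  simp only [_root_.smul_apply, innerSL_apply_apply, smul_eq_mul, Gs, bv,
    EuclideanSpace.inner_single_right, nsmul_eq_mul]
  simp
  ring

theorem Gs_pd2 {s : ℝ} (x : Eu n) (i : Fin n) :
    pd i (pd i (Gs s)) x = (-(1 / (2 * s)) + x i ^ 2 / (4 * s ^ 2)) * Gs s x := by
  have e : pd i (Gs (n := n) s) = fun x => -(x i / (2 * s)) * Gs s x :=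
    funext fun x => Gs_pd x i
  rw [e]
  unfold pd
  have h1 : HasFDerivAt (fun x : Eu n => x i) (EuclideanSpace.proj i : Eu n →L[ℝ] ℝ) x :=
    (EuclideanSpace.proj i : Eu n →L[ℝ] ℝ).hasFDerivAt
  have h2 : HasFDerivAt (fun x : Eu n => -(x i / (2 * s)))
      ((-(2 * s)⁻¹) • (EuclideanSpace.proj i : Eu n →L[ℝ] ℝ)) x := by
    refine (h1.const_mul (-(2 * s)⁻¹)).congr_of_eventuallyEq (Eventually.of_forall fun y => ?_)
    simp only []
    ring
  have hG : ContDiff ℝ ∞ (Gs (n := n) s) := by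
    have e : Gs (n := n) s = fun x : Eu n =>
      (4 * Real.pi * s) ^ (-(n : ℝ) / 2) * Real.exp (-‖x‖ ^ 2 / (4 * s)) := rfl
    rw [e]
    exact contDiff_const.mul (((contDiff_id.norm_sq ℝ).neg.div_const _).exp)
  have h3 : HasFDerivAt (Gs (n := n) s) (fderiv ℝ (Gs s) x) x :=
    ((hG.differentiable (by simp)) x).hasFDerivAt
  have h4 : fderiv ℝ (fun x : Eu n => -(x i / (2 * s)) * Gs s x) x = _ := (h2.mul h3).fderiv
  rw [h4]
  have e2 : fderiv ℝ (Gs (n := n) s) x (bv i) = -(x i / (2 * s)) * Gs s x := Gs_pd x i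
  simp only [_root_.add_apply, _root_.smul_apply, smul_eq_mul, e2]
  simp [bv]
  ring

theorem gk_nil_heat {p : ST n} (hp : p ∈ HS n) :
    fderiv ℝ (gk (n := n) []) p (1, 0) = ∑ i, gk (i :: i :: []) p := by
  rw [gk_nil_t hp]
  have : ∀ i : Fin n, gk (i :: i :: []) p =
      (-(1 / (2 * p.1)) + p.2 i ^ 2 / (4 * p.1 ^ 2)) * Gs p.1 p.2 := fun i => Gs_pd2 p.2 i
  simp only [this]
  rw [← Finset.sum_mul, Finset.sum_add_distrib, ← Finset.sum_div,
    ← EuclideanSpace.real_norm_sq_eq]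
  congr 2
  simp
  ring

theorem gk_heat (l : List (Fin n)) {p : ST n} (hp : p ∈ HS n) :
    fderiv ℝ (gk l) p (1, 0) = ∑ i, gk (i :: i :: l) p := by
  induction l generalizing p with
  | nil => exact gk_nil_heat hp
  | cons j l ih =>
    rw [gk_cons_fd hp, gk_symm l hp, ← gk_dd l hp]
    have h : (fun q => fderiv ℝ (gk l) q (1, 0)) =ᶠ[𝓝 p] fun q => ∑ i, gk (i :: i :: l) q := by
      filter_upwards [HS_nhds hp] with q hq
      exact ih hq
    rw [h.fderiv_eq, fderiv_fun_sum fun i _ => gk_diff _ hp]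
    simp only [_root_.sum_apply]
    refine Finset.sum_congr rfl fun i _ => ?_
    rw [← gk_cons hp]
    refine gk_perm ?_ hp
    exact ((List.Perm.swap i j (i :: l)).trans ((List.Perm.swap i j l).cons i))

/-! ## cut off kernels -/

/-- the kernel `θ(r) ∂^α G_{μ r + s}(x)` -/
noncomputable def TK (θ : ℝ → ℝ) (μ s : ℝ) (l : List (Fin n)) (z : ST n) : ℝ :=
  θ z.1 * pds l (Gs (μ * z.1 + s)) z.2

theorem TK_eq (θ : ℝ → ℝ) (μ s : ℝ) (l : List (Fin n)) (z : ST n) :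
    TK θ μ s l z = θ z.1 * gk l (μ * z.1 + s, z.2) := rfl

section TK
variable {θ : ℝ → ℝ} {μ s : ℝ}

/-- joint smoothness in `(s, z)` -/
theorem TK_joint (hθ : ContDiff ℝ ∞ θ) (h0 : ∀ r, r ≤ 0 → θ r = 0) (l : List (Fin n))
    (hμ : 0 < μ) : ContDiffOn ℝ ∞ (fun q : ℝ × ST n => TK θ μ q.1 l q.2) {q | 0 < q.1} := by
  intro q hq
  have hq' : 0 < q.1 := hq
  refine ContDiffAt.contDiffWithinAt ?_
  rcases lt_or_ge q.2.1 0 with hneg | hpos
  · have h1 : (fun q : ℝ × ST n => TK θ μ q.1 l q.2) =ᶠ[𝓝 q] fun _ => (0 : ℝ) := by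
      have : {q : ℝ × ST n | q.2.1 < 0} ∈ 𝓝 q :=
        (isOpen_lt (continuous_fst.comp continuous_snd) continuous_const).mem_nhds hneg
      filter_upwards [this] with p hp
      simp [TK, h0 p.2.1 (le_of_lt hp)]
    exact contDiffAt_const.congr_of_eventuallyEq h1
  · have hin : ((μ * q.2.1 + q.1, q.2.2) : ST n) ∈ HS n := by
      change 0 < μ * q.2.1 + q.1
      positivity
    have h1 : ContDiff ℝ ∞ (fun q : ℝ × ST n => θ q.2.1) :=
      hθ.comp (contDiff_fst.comp contDiff_snd)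
    have h2 : ContDiff ℝ ∞ (fun q : ℝ × ST n => ((μ * q.2.1 + q.1, q.2.2) : ST n)) :=
      ((contDiff_const.mul (contDiff_fst.comp contDiff_snd)).add contDiff_fst).prodMk
        (contDiff_snd.comp contDiff_snd)
    exact h1.contDiffAt.mul (ContDiffAt.comp q (gk_at l hin) h2.contDiffAt)

theorem TK_smooth (hθ : ContDiff ℝ ∞ θ) (h0 : ∀ r, r ≤ 0 → θ r = 0) (l : List (Fin n))
    (hμ : 0 < μ) (hs : 0 < s) : ContDiff ℝ ∞ (TK θ μ s l) := by
  have h := TK_joint hθ h0 l hμ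
  have h2 : ContDiff ℝ ∞ (fun z : ST n => ((s, z) : ℝ × ST n)) := contDiff_const.prodMk contDiff_id
  have h3 := h.comp (s := univ) h2.contDiffOn (fun z _ => hs)
  exact contDiffOn_univ.1 h3

theorem TK_diff (hθ : ContDiff ℝ ∞ θ) (h0 : ∀ r, r ≤ 0 → θ r = 0) (l : List (Fin n))
    (hμ : 0 < μ) (hs : 0 < s) (z : ST n) : DifferentiableAt ℝ (TK θ μ s l) z :=
  ((TK_smooth hθ h0 l hμ hs).differentiable (by simp)) z

theorem TK_dx (hθ : ContDiff ℝ ∞ θ) (h0 : ∀ r, r ≤ 0 → θ r = 0) (l : List (Fin n))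
    (hμ : 0 < μ) (hs : 0 < s) (i : Fin n) (z : ST n) :
    fderiv ℝ (TK θ μ s l) z (0, bv i) = TK θ μ s (i :: l) z := by
  rw [← (TK_diff hθ h0 l hμ hs z).lineDeriv_eq_fderiv]
  rcases le_or_gt z.1 0 with hz | hz
  · have e : (fun t : ℝ => TK θ μ s l (z + t • ((0, bv i) : ST n))) = fun _ => (0 : ℝ) := by
      funext t
      simp [TK, h0 z.1 hz]
    unfold lineDeriv
    rw [e]
    simp [TK, h0 z.1 hz]
  · have hin : ((μ * z.1 + s, z.2) : ST n) ∈ HS n := by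
      change 0 < μ * z.1 + s
      positivity
    have e : (fun t : ℝ => TK θ μ s l (z + t • ((0, bv i) : ST n))) =
        fun t => θ z.1 * gk l ((μ * z.1 + s, z.2) + t • ((0, bv i) : ST n)) := by
      funext t
      simp [TK, gk]
    unfold lineDeriv
    rw [e, deriv_const_mul_field, TK_eq, gk_cons hin]
    congr 1
    exact (gk_diff l hin).lineDeriv_eq_fderiv

theorem TK_ds (h0 : ∀ r, r ≤ 0 → θ r = 0) (l : List (Fin n))
    (hμ : 0 < μ) (hs : 0 < s) (z : ST n) :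
    HasDerivAt (fun s => TK θ μ s l z) (∑ i, TK θ μ s (i :: i :: l) z) s := by
  rcases le_or_gt z.1 0 with hz | hz
  · have e : (fun s : ℝ => TK θ μ s l z) = fun _ => (0 : ℝ) := by
      funext t
      simp [TK, h0 z.1 hz]
    rw [e]
    simp only [TK, h0 z.1 hz, zero_mul, Finset.sum_const_zero]
    exact hasDerivAt_const _ _
  · have hin : ((μ * z.1 + s, z.2) : ST n) ∈ HS n := by
      change 0 < μ * z.1 + s
      positivity
    have h1 : HasDerivAt (fun s : ℝ => ((μ * z.1 + s, z.2) : ST n)) ((1, 0) : ST n) s :=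
      ((hasDerivAt_id s).const_add (μ * z.1)).prodMk (hasDerivAt_const s z.2)
    have h2 := (gk_diff l hin).hasFDerivAt.comp_hasDerivAt s h1
    have h3 := h2.const_mul (θ z.1)
    refine h3.congr_deriv ?_
    rw [gk_heat l hin, Finset.mul_sum]
    rfl

theorem TK_dt (hθ : ContDiff ℝ ∞ θ) (h0 : ∀ r, r ≤ 0 → θ r = 0) (l : List (Fin n))
    (hμ : 0 < μ) (hs : 0 < s) (z : ST n) :
    fderiv ℝ (TK θ μ s l) z (1, 0) = TK (deriv θ) μ s l z + μ * ∑ i, TK θ μ s (i :: i :: l) z := by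
  rw [← (TK_diff hθ h0 l hμ hs z).lineDeriv_eq_fderiv]
  unfold lineDeriv
  rcases lt_or_ge z.1 0 with hz | hz
  · have e : (fun t : ℝ => TK θ μ s l (z + t • ((1, 0) : ST n))) =ᶠ[𝓝 0] fun _ => (0 : ℝ) := by
      have : Iio (-z.1) ∈ 𝓝 (0 : ℝ) := Iio_mem_nhds (by linarith)
      filter_upwards [this] with t ht
      have h1 : z.1 + t ≤ 0 := by
        have : t < -z.1 := ht
        linarith
      simp [TK, h0 _ h1]
    have e2 : deriv θ z.1 = 0 := by
      have : θ =ᶠ[𝓝 z.1] fun _ => (0 : ℝ) := by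
        filter_upwards [Iio_mem_nhds hz] with r hr
        exact h0 r (le_of_lt hr)
      rw [this.deriv_eq]
      simp
    rw [e.deriv_eq]
    simp [TK, h0 z.1 hz.le, e2]
  · have hin : ((μ * z.1 + s, z.2) : ST n) ∈ HS n := by
      change 0 < μ * z.1 + s
      positivity
    have e : (fun t : ℝ => TK θ μ s l (z + t • ((1, 0) : ST n))) =
        fun t => θ (z.1 + t) * gk l (μ * (z.1 + t) + s, z.2) := by
      funext t
      simp [TK, gk]
    rw [e]
    have h1 : HasDerivAt (fun t : ℝ => z.1 + t) 1 0 := (hasDerivAt_id 0).const_add z.1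
    have h1' : HasDerivAt θ (deriv θ (z.1 + 0)) (z.1 + 0) :=
      ((hθ.differentiable (by simp)) _).hasDerivAt
    have h2 : HasDerivAt (fun t : ℝ => θ (z.1 + t)) (deriv θ (z.1 + 0) * 1) 0 := h1'.comp 0 h1
    have h3 : HasDerivAt (fun t : ℝ => ((μ * (z.1 + t) + s, z.2) : ST n)) ((μ * 1, 0) : ST n) 0 :=
      ((h1.const_mul μ).add_const s).prodMk (hasDerivAt_const (0 : ℝ) z.2)
    have hin' : ((μ * (z.1 + 0) + s, z.2) : ST n) ∈ HS n := by simpa using hin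
    have h4 := (gk_diff l hin').hasFDerivAt.comp_hasDerivAt (0 : ℝ) h3
    have h5 := h2.mul h4
    have h6 : deriv (fun t => θ (z.1 + t) * gk l (μ * (z.1 + t) + s, z.2)) 0 = _ := h5.deriv
    rw [h6]
    have e3 : ((μ, 0) : ST n) = μ • ((1, 0) : ST n) := by simp
    simp only [add_zero, Function.comp, mul_one]
    rw [e3, map_smul, gk_heat l hin]
    simp only [TK_eq, smul_eq_mul]
    rw [Finset.mul_sum, Finset.mul_sum, Finset.mul_sum]
    congr 1
    refine Finset.sum_congr rfl fun i _ => ?_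
    ring

theorem TK_perm (h0 : ∀ r, r ≤ 0 → θ r = 0)
    (hμ : 0 < μ) (hs : 0 < s) {l l' : List (Fin n)} (h : l.Perm l') (z : ST n) :
    TK θ μ s l z = TK θ μ s l' z := by
  rcases le_or_gt z.1 0 with hz | hz
  · simp [TK, h0 z.1 hz]
  · unfold TK
    rw [pds_perm (by positivity) h]

end TK

/-! ## the two kernels -/

/-- cut off -/
noncomputable def th (ε : ℝ) (r : ℝ) : ℝ := Real.smoothTransition (r / ε)

theorem th_smooth (ε : ℝ) : ContDiff ℝ ∞ (th ε) :=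
  Real.smoothTransition.contDiff.comp (contDiff_id.div_const ε)

theorem th_zero {ε : ℝ} (hε : 0 < ε) (r : ℝ) (hr : r ≤ 0) : th ε r = 0 :=
  Real.smoothTransition.zero_of_nonpos (div_nonpos_of_nonpos_of_nonneg hr hε.le)

theorem dth_smooth (ε : ℝ) : ContDiff ℝ ∞ (deriv (th ε)) :=
  (contDiff_infty_iff_deriv.1 (th_smooth ε)).2

theorem dth_zero {ε : ℝ} (hε : 0 < ε) (r : ℝ) (hr : r ≤ 0) : deriv (th ε) r = 0 := by
  have h : IsLocalMin (th ε) r := by
    refine Eventually.of_forall fun x => ?_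
    rw [th_zero hε r hr]
    exact Real.smoothTransition.nonneg _
  exact h.deriv_eq_zero

theorem Kr_eq (μ ε s : ℝ) (l : List (Fin n)) : Kr μ ε s l = TK (th ε) μ s l := rfl
theorem Kp_eq (μ ε s : ℝ) (l : List (Fin n)) : Kp μ ε s l = TK (deriv (th ε)) μ s l := rfl

theorem Kr_joint {μ ε : ℝ} (hμ : 0 < μ) (hε : 0 < ε) (l : List (Fin n)) :
    ContDiffOn ℝ ∞ (fun q : ℝ × ST n => Kr μ ε q.1 l q.2) {q | 0 < q.1} :=
  TK_joint (th_smooth ε) (th_zero hε) l hμ

theorem Kp_joint {μ ε : ℝ} (hμ : 0 < μ) (hε : 0 < ε) (l : List (Fin n)) :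
    ContDiffOn ℝ ∞ (fun q : ℝ × ST n => Kp μ ε q.1 l q.2) {q | 0 < q.1} :=
  TK_joint (dth_smooth ε) (dth_zero hε) l hμ

theorem Kr_smooth {μ ε s : ℝ} (hμ : 0 < μ) (hε : 0 < ε) (hs : 0 < s) (l : List (Fin n)) :
    ContDiff ℝ ∞ (Kr μ ε s l) := TK_smooth (th_smooth ε) (th_zero hε) l hμ hs

theorem Kp_smooth {μ ε s : ℝ} (hμ : 0 < μ) (hε : 0 < ε) (hs : 0 < s) (l : List (Fin n)) :
    ContDiff ℝ ∞ (Kp μ ε s l) := TK_smooth (dth_smooth ε) (dth_zero hε) l hμ hs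

/-- space derivatives of the kernels -/
theorem Kr_deriv_x {μ ε s : ℝ} (hμ : 0 < μ) (hε : 0 < ε) (hs : 0 < s) (l : List (Fin n))
    (i : Fin n) (z : ST n) :
    fderiv ℝ (Kr μ ε s l) z (0, bv i) = Kr μ ε s (i :: l) z :=
  TK_dx (th_smooth ε) (th_zero hε) l hμ hs i z

theorem Kp_deriv_x {μ ε s : ℝ} (hμ : 0 < μ) (hε : 0 < ε) (hs : 0 < s) (l : List (Fin n))
    (i : Fin n) (z : ST n) :
    fderiv ℝ (Kp μ ε s l) z (0, bv i) = Kp μ ε s (i :: l) z :=
  TK_dx (dth_smooth ε) (dth_zero hε) l hμ hs i z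

/-- heat equation `∂_r Kr = Kp + μ Δ Kr` -/
theorem Kr_deriv_t {μ ε s : ℝ} (hμ : 0 < μ) (hε : 0 < ε) (hs : 0 < s) (l : List (Fin n))
    (z : ST n) :
    fderiv ℝ (Kr μ ε s l) z (1, 0) = Kp μ ε s l z + μ * ∑ i, Kr μ ε s (i :: i :: l) z :=
  TK_dt (th_smooth ε) (th_zero hε) l hμ hs z

/-- `∂_s Kp = Δ Kp` -/
theorem Kp_deriv_s {μ ε s : ℝ} (hμ : 0 < μ) (hε : 0 < ε) (hs : 0 < s) (l : List (Fin n))
    (z : ST n) :
    HasDerivAt (fun s => Kp μ ε s l z) (∑ i, Kp μ ε s (i :: i :: l) z) s :=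
  TK_ds (dth_zero hε) l hμ hs z

/-- the derivatives commute -/
theorem Kr_perm {μ ε s : ℝ} (hμ : 0 < μ) (hε : 0 < ε) (hs : 0 < s) {l l' : List (Fin n)}
    (h : l.Perm l') (z : ST n) : Kr μ ε s l z = Kr μ ε s l' z :=
  TK_perm (th_zero hε) hμ hs h z

theorem Kp_perm {μ ε s : ℝ} (hμ : 0 < μ) (hε : 0 < ε) (hs : 0 < s) {l l' : List (Fin n)}
    (h : l.Perm l') (z : ST n) : Kp μ ε s l z = Kp μ ε s l' z :=
  TK_perm (dth_zero hε) hμ hs h z

end Pool.Agent.Helper37.Jef
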