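import Pool.Agent.Helper37.JefCv
import Pool.Agent.Helper37.JefKer

/-! # `L¹` bounds of the kernels `Kp`, approximate identity -/

open MeasureTheory Set Filter Topology
open scoped ENNReal ContDiff

namespace Pool.Agent.Helper37.Jef
open Pool.Agent.Helper42.Jef
variable {n : ℕ}

theorem Gs_nonneg {s : ℝ} (hs : 0 < s) (x : Eu n) : 0 ≤ Gs s x := by
  unfold Gs
  positivity

theorem Gs_integral {s : ℝ} (hs : 0 < s) : ∫ x : Eu n, Gs s x = 1 := by
  unfold Gs
  rw [integral_const_mul]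
  have e : ∀ x : Eu n, Real.exp (-‖x‖ ^ 2 / (4 * s)) = Real.exp (-(1 / (4 * s)) * ‖x‖ ^ 2) := by
    intro x
    congr 1
    ring
  simp only [e]
  rw [GaussianFourier.integral_rexp_neg_mul_sq_norm (by positivity)]
  have e2 : Real.pi / (1 / (4 * s)) = 4 * Real.pi * s := by
    field_simp
  rw [e2, finrank_euclideanSpace_fin, ← Real.rpow_add (by positivity)]
  have : -(n : ℝ) / 2 + (n : ℝ) / 2 = 0 := by ring
  rw [this, Real.rpow_zero]

theorem Gs_integrable {s : ℝ} (hs : 0 < s) : Integrable (Gs (n := n) s) := by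
  by_contra h
  have := integral_undef h
  rw [Gs_integral hs] at this
  norm_num at this

theorem Gs_lint {s : ℝ} (hs : 0 < s) : ∫⁻ x : Eu n, ‖Gs s x‖ₑ = 1 := by
  have h := ofReal_integral_norm_eq_lintegral_enorm (Gs_integrable (n := n) hs)
  rw [← h]
  have e : ∀ x : Eu n, ‖Gs s x‖ = Gs s x := fun x => Real.norm_of_nonneg (Gs_nonneg hs x)
  simp only [e]
  rw [Gs_integral hs]
  simp

theorem th_one {ε : ℝ} (hε : 0 < ε) (r : ℝ) (hr : ε ≤ r) : th ε r = 1 :=
  Real.smoothTransition.one_of_one_le ((one_le_div hε).2 hr)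

theorem dth_zero' {ε : ℝ} (hε : 0 < ε) (r : ℝ) (hr : ε ≤ r) : deriv (th ε) r = 0 := by
  have h : IsLocalMax (th ε) r := by
    refine Eventually.of_forall fun x => ?_
    rw [th_one hε r hr]
    exact Real.smoothTransition.le_one _
  exact h.deriv_eq_zero

theorem dth_nonneg {ε : ℝ} (hε : 0 < ε) (r : ℝ) : 0 ≤ deriv (th ε) r := by
  have h : Monotone (th ε) := fun a b hab =>
    Real.smoothTransition.monotone (div_le_div_of_nonneg_right hab hε.le)
  exact h.deriv_nonneg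

theorem dth_integrable {ε : ℝ} (hε : 0 < ε) : Integrable (deriv (th ε)) := by
  refine (dth_smooth ε).continuous.integrable_of_hasCompactSupport ?_
  refine HasCompactSupport.intro (isCompact_Icc (a := 0) (b := ε)) fun r hr => ?_
  by_cases h : r ≤ 0
  · exact dth_zero hε r h
  · refine dth_zero' hε r ?_
    by_contra h2
    exact hr ⟨(not_le.1 h).le, (not_le.1 h2).le⟩

theorem dth_integral {ε : ℝ} (hε : 0 < ε) : ∫ r, deriv (th ε) r = 1 := by
  have h := integral_of_hasDerivAt_of_tendsto (f := th ε) (f' := deriv (th ε)) (m := 0) (n := 1)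
    (fun x => (((th_smooth ε).differentiable (by simp)) x).hasDerivAt) (dth_integrable hε) ?_ ?_
  · rw [h]; norm_num
  · refine tendsto_const_nhds.congr' ?_
    filter_upwards [eventually_le_atBot 0] with r hr
    exact (th_zero hε r hr).symm
  · refine tendsto_const_nhds.congr' ?_
    filter_upwards [eventually_ge_atTop ε] with r hr
    exact (th_one hε r hr).symm

theorem dth_lint {ε : ℝ} (hε : 0 < ε) : ∫⁻ r, ‖deriv (th ε) r‖ₑ = 1 := by
  rw [← ofReal_integral_norm_eq_lintegral_enorm (dth_integrable hε)]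
  have e : ∀ r, ‖deriv (th ε) r‖ = deriv (th ε) r := fun r =>
    Real.norm_of_nonneg (dth_nonneg hε r)
  simp only [e]
  rw [dth_integral hε]
  simp

theorem lint_prod_th {ε : ℝ} (hε : 0 < ε) {H : ℝ → Eu n → ℝ≥0∞}
    (hm : AEMeasurable (fun z : ST n => ‖deriv (th ε) z.1‖ₑ * H z.1 z.2) volume) {C : ℝ≥0∞}
    (hH : ∀ r, 0 < r → r < ε → ∫⁻ x, H r x ≤ C) :
    ∫⁻ z : ST n, ‖deriv (th ε) z.1‖ₑ * H z.1 z.2 ≤ C := by
  rw [Measure.volume_eq_prod] at hm ⊢
  rw [lintegral_prod _ hm]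
  calc ∫⁻ r, ∫⁻ x, ‖deriv (th ε) r‖ₑ * H r x ≤ ∫⁻ r, ‖deriv (th ε) r‖ₑ * C := by
        refine lintegral_mono fun r => ?_
        simp only []
        rw [lintegral_const_mul' _ _ enorm_ne_top]
        by_cases h0 : r ≤ 0
        · rw [dth_zero hε r h0]; simp
        by_cases h1 : ε ≤ r
        · rw [dth_zero' hε r h1]; simp
        exact mul_le_mul_right (hH r (not_le.1 h0) (not_le.1 h1)) _
    _ = C := by
        rw [lintegral_mul_const'' _ (dth_integrable hε).aestronglyMeasurable.enorm, dth_lint hε,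
          one_mul]

theorem Kp_enorm (μ ε s : ℝ) (l : List (Fin n)) (z : ST n) :
    ‖Kp μ ε s l z‖ₑ = ‖deriv (th ε) z.1‖ₑ * ‖pds l (Gs (μ * z.1 + s)) z.2‖ₑ := by
  rw [Kp_eq, TK, enorm_mul]

theorem Kp_bound {μ ε s : ℝ} (hμ : 0 < μ) (hε : 0 < ε) (hs : 0 < s) (l : List (Fin n))
    {C : ℝ≥0∞} (hC : ∀ r, 0 < r → r < ε → ∫⁻ x : Eu n, ‖pds l (Gs (μ * r + s)) x‖ₑ ≤ C) :
    ∫⁻ z : ST n, ‖Kp μ ε s l z‖ₑ ≤ C := by
  simp only [Kp_enorm]
  refine lint_prod_th hε (H := fun r x => ‖pds l (Gs (μ * r + s)) x‖ₑ) ?_ hC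
  have h := (Kp_smooth hμ hε hs l).continuous.enorm.measurable.aemeasurable (μ := volume)
  refine h.congr (Eventually.of_forall fun z => ?_)
  simp only [Kp_enorm]

theorem Kp0_lint {μ ε s : ℝ} (hμ : 0 < μ) (hε : 0 < ε) (hs : 0 < s) :
    ∫⁻ z : ST n, ‖Kp μ ε s [] z‖ₑ ≤ 1 := by
  refine Kp_bound hμ hε hs [] fun r hr _ => ?_
  exact (Gs_lint (n := n) (s := μ * r + s) (by positivity)).le

theorem Kp0_integrable {μ ε s : ℝ} (hμ : 0 < μ) (hε : 0 < ε) (hs : 0 < s) :
    Integrable (Kp (n := n) μ ε s []) :=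
  ⟨(Kp_smooth hμ hε hs []).continuous.aestronglyMeasurable,
    (Kp0_lint hμ hε hs).trans_lt ENNReal.one_lt_top⟩

theorem Kp0_integral {μ ε s : ℝ} (hμ : 0 < μ) (hε : 0 < ε) (hs : 0 < s) :
    ∫ z : ST n, Kp μ ε s [] z = 1 := by
  have h := Kp0_integrable (n := n) hμ hε hs
  rw [Measure.volume_eq_prod] at h ⊢
  rw [integral_prod _ h]
  rw [← dth_integral hε]
  refine integral_congr_ae (Eventually.of_forall fun r => ?_)
  simp only [Kp_eq, TK, pds]
  rw [integral_const_mul]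
  by_cases h0 : r ≤ 0
  · rw [dth_zero hε r h0]; simp
  · have : 0 < μ * r + s := by
      have := not_le.1 h0
      positivity
    rw [Gs_integral this, mul_one]

/-- Gaussian with doubled time dominates -/
theorem Gs_double {s : ℝ} (hs : 0 < s) (x : Eu n) :
    Gs s x = (2 : ℝ) ^ ((n : ℝ) / 2) * Real.exp (-‖x‖ ^ 2 / (8 * s)) * Gs (2 * s) x := by
  unfold Gs
  have e1 : (4 * Real.pi * (2 * s)) = 2 * (4 * Real.pi * s) := by ring
  have e2 : -‖x‖ ^ 2 / (4 * s) = -‖x‖ ^ 2 / (8 * s) + -‖x‖ ^ 2 / (4 * (2 * s)) := by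
    field_simp
    ring
  have e4 : (2 * (4 * Real.pi * s)) ^ (-(n : ℝ) / 2) =
      (2 : ℝ) ^ (-(n : ℝ) / 2) * (4 * Real.pi * s) ^ (-(n : ℝ) / 2) :=
    Real.mul_rpow (by norm_num) (by positivity)
  rw [e1, e4, e2, Real.exp_add]
  have e3 : (2 : ℝ) ^ ((n : ℝ) / 2) * (2 : ℝ) ^ (-(n : ℝ) / 2) = 1 := by
    rw [← Real.rpow_add (by norm_num)]
    have : (n : ℝ) / 2 + -(n : ℝ) / 2 = 0 := by ring
    rw [this, Real.rpow_zero]
  linear_combination (-((4 * Real.pi * s) ^ (-(n : ℝ) / 2) * Real.exp (-‖x‖ ^ 2 / (8 * s)) *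
    Real.exp (-‖x‖ ^ 2 / (4 * (2 * s))))) * e3

theorem exp_neg_le_inv {u : ℝ} (hu : 0 < u) : Real.exp (-u) ≤ 1 / u := by
  rw [Real.exp_neg, ← one_div]
  refine one_div_le_one_div_of_le hu ?_
  have := Real.add_one_le_exp u
  linarith

theorem Gs_x_bound {s : ℝ} (hs : 1 ≤ s) (k : Fin n) (x : Eu n) :
    ‖pds [k] (Gs s) x‖ ≤ (2 : ℝ) ^ ((n : ℝ) / 2) * Gs (2 * s) x := by
  have hs0 : 0 < s := by linarith
  have e : pds [k] (Gs s) x = -(x k / (2 * s)) * Gs s x := Gs_pd x k
  rw [e, Gs_double hs0, norm_mul, Real.norm_of_nonneg (r := 2 ^ _ * _ * _)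
    (mul_nonneg (by positivity) (Gs_nonneg (by linarith) x))]
  have hk : |x k| ≤ ‖x‖ := by
    have := PiLp.norm_apply_le x k
    simpa using this
  have h1 : ‖-(x k / (2 * s))‖ * Real.exp (-‖x‖ ^ 2 / (8 * s)) ≤ 1 := by
    rw [norm_neg, Real.norm_eq_abs, abs_div, abs_of_pos (by positivity : 0 < 2 * s)]
    set t := ‖x‖ with ht
    have ht0 : 0 ≤ t := norm_nonneg x
    have h2 : Real.exp (-t ^ 2 / (8 * s)) ≤ 1 / (1 + t ^ 2 / (8 * s)) := by
      have e3 : -t ^ 2 / (8 * s) = -(t ^ 2 / (8 * s)) := by ring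
      rw [e3, Real.exp_neg, ← one_div]
      refine one_div_le_one_div_of_le (by positivity) ?_
      have := Real.add_one_le_exp (t ^ 2 / (8 * s))
      linarith
    calc |x k| / (2 * s) * Real.exp (-t ^ 2 / (8 * s))
        ≤ t / (2 * s) * (1 / (1 + t ^ 2 / (8 * s))) := by
          refine mul_le_mul ?_ h2 (Real.exp_pos _).le (by positivity)
          exact div_le_div_of_nonneg_right hk (by positivity)
      _ = t / (2 * s + t ^ 2 / 4) := by
          field_simp
          ring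
      _ ≤ 1 := by
          rw [div_le_one (by positivity)]
          nlinarith [sq_nonneg (t / 2 - 1)]
  calc ‖-(x k / (2 * s))‖ * (2 ^ ((n : ℝ) / 2) * Real.exp (-‖x‖ ^ 2 / (8 * s)) * Gs (2 * s) x)
      = (‖-(x k / (2 * s))‖ * Real.exp (-‖x‖ ^ 2 / (8 * s))) *
        (2 ^ ((n : ℝ) / 2) * Gs (2 * s) x) := by ring
    _ ≤ 1 * (2 ^ ((n : ℝ) / 2) * Gs (2 * s) x) := by
        refine mul_le_mul_of_nonneg_right h1 ?_
        exact mul_nonneg (by positivity) (Gs_nonneg (by linarith) x)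
    _ = _ := one_mul _

theorem Kp1_lint {μ ε : ℝ} (hμ : 0 < μ) (hε : 0 < ε) (k : Fin n) :
    ∫⁻ z : ST n, ‖Kp μ ε 1 [k] z‖ₑ ≤ ENNReal.ofReal ((2 : ℝ) ^ ((n : ℝ) / 2)) := by
  refine Kp_bound hμ hε one_pos [k] fun r hr _ => ?_
  have hs : 1 ≤ μ * r + 1 := by
    have := mul_pos hμ hr
    linarith
  calc ∫⁻ x : Eu n, ‖pds [k] (Gs (μ * r + 1)) x‖ₑ
      ≤ ∫⁻ x : Eu n, ENNReal.ofReal ((2 : ℝ) ^ ((n : ℝ) / 2)) * ‖Gs (2 * (μ * r + 1)) x‖ₑ := by
        refine lintegral_mono fun x => ?_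
        rw [← ofReal_norm, ← ofReal_norm, ← ENNReal.ofReal_mul (by positivity)]
        refine ENNReal.ofReal_le_ofReal ?_
        rw [Real.norm_of_nonneg (Gs_nonneg (by linarith : 0 < 2 * (μ * r + 1)) x)]
        exact Gs_x_bound hs k x
    _ = _ := by
        rw [lintegral_const_mul' _ _ ENNReal.ofReal_ne_top, Gs_lint (by linarith), mul_one]

theorem Kp_far {μ ε r0 : ℝ} (hμ : 0 < μ) (hε : 0 < ε) (h0 : ε < r0) :
    ∫⁻ z in {z : ST n | r0 ≤ ‖z‖}, ‖Kp μ ε ε [] z‖ₑ ≤
      ENNReal.ofReal ((2 : ℝ) ^ ((n : ℝ) / 2) * (8 * (μ + 1) / r0 ^ 2) * ε) := by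
  have hr0 : 0 < r0 := hε.trans h0
  have hms : MeasurableSet {z : ST n | r0 ≤ ‖z‖} :=
    (isClosed_le continuous_const continuous_norm).measurableSet
  have hms2 : MeasurableSet {z : ST n | r0 ≤ ‖z.2‖} :=
    (isClosed_le continuous_const (continuous_norm.comp continuous_snd)).measurableSet
  set H : ℝ → Eu n → ℝ≥0∞ := fun r x =>
    Set.indicator {x : Eu n | r0 ≤ ‖x‖} (fun x => ‖Gs (μ * r + ε) x‖ₑ) x with hH
  have hle : ∀ z : ST n, Set.indicator {z : ST n | r0 ≤ ‖z‖} (fun z => ‖Kp μ ε ε [] z‖ₑ) z ≤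
      ‖deriv (th ε) z.1‖ₑ * H z.1 z.2 := by
    intro z
    by_cases hz : z ∈ {z : ST n | r0 ≤ ‖z‖}
    · rw [indicator_of_mem hz, Kp_enorm]
      by_cases h1 : z.1 ≤ 0
      · rw [dth_zero hε _ h1]; simp
      by_cases h2 : ε ≤ z.1
      · rw [dth_zero' hε _ h2]; simp
      have h3 : r0 ≤ ‖z.2‖ := by
        have h4 : r0 ≤ max ‖z.1‖ ‖z.2‖ := hz
        rcases le_max_iff.1 h4 with h5 | h5
        · exfalso
          rw [Real.norm_eq_abs, abs_of_pos (not_le.1 h1)] at h5
          linarith [not_le.1 h2]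
        · exact h5
      have h6 : H z.1 z.2 = ‖Gs (μ * z.1 + ε) z.2‖ₑ := indicator_of_mem (s := {x : Eu n | r0 ≤ ‖x‖})
        h3 _
      rw [h6]
      exact le_rfl
    · rw [indicator_of_notMem hz]
      exact zero_le
  rw [← lintegral_indicator hms]
  refine (lintegral_mono hle).trans ?_
  refine lint_prod_th hε ?_ ?_
  · have hc : AEMeasurable (fun z : ST n => ‖Kp μ ε ε [] z‖ₑ) volume :=
      (Kp_smooth hμ hε hε []).continuous.enorm.measurable.aemeasurable
    refine (hc.indicator hms2).congr (Eventually.of_forall fun z => ?_)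
    by_cases h3 : r0 ≤ ‖z.2‖
    · have h6 : H z.1 z.2 = ‖Gs (μ * z.1 + ε) z.2‖ₑ := indicator_of_mem (s := {x : Eu n | r0 ≤ ‖x‖})
        h3 _
      simp only []
      rw [h6, indicator_of_mem (s := {z : ST n | r0 ≤ ‖z.2‖}) h3, Kp_enorm]
      rfl
    · have h6 : H z.1 z.2 = 0 := indicator_of_notMem (s := {x : Eu n | r0 ≤ ‖x‖}) h3 _
      simp only []
      rw [h6, indicator_of_notMem (s := {z : ST n | r0 ≤ ‖z.2‖}) h3]
      simp
  · intro r hr hrε
    have hs : 0 < μ * r + ε := by positivity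
    have hs1 : μ * r + ε ≤ (μ + 1) * ε := by nlinarith
    calc ∫⁻ x, H r x ≤ ∫⁻ x : Eu n, ENNReal.ofReal ((2 : ℝ) ^ ((n : ℝ) / 2) *
          (8 * (μ + 1) / r0 ^ 2) * ε) * ‖Gs (2 * (μ * r + ε)) x‖ₑ := by
          refine lintegral_mono fun x => ?_
          by_cases hx : r0 ≤ ‖x‖
          · have h6 : H r x = ‖Gs (μ * r + ε) x‖ₑ := indicator_of_mem (s := {x : Eu n | r0 ≤ ‖x‖})
              hx _
            simp only []
            rw [h6, ← ofReal_norm, ← ofReal_norm,
              ← ENNReal.ofReal_mul (by positivity)]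
            refine ENNReal.ofReal_le_ofReal ?_
            have hG := Gs_nonneg (by linarith : 0 < 2 * (μ * r + ε)) x
            rw [Real.norm_of_nonneg hG, Real.norm_of_nonneg (Gs_nonneg hs x), Gs_double hs]
            refine mul_le_mul_of_nonneg_right ?_ hG
            rw [mul_assoc]
            refine mul_le_mul_of_nonneg_left ?_ (by positivity)
            have hx0 : 0 < ‖x‖ := hr0.trans_le hx
            have e3 : -‖x‖ ^ 2 / (8 * (μ * r + ε)) = -(‖x‖ ^ 2 / (8 * (μ * r + ε))) := by ring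
            rw [e3]
            refine (exp_neg_le_inv (by positivity)).trans ?_
            rw [one_div_div]
            calc 8 * (μ * r + ε) / ‖x‖ ^ 2 ≤ 8 * ((μ + 1) * ε) / r0 ^ 2 := by gcongr
              _ = _ := by ring
          · have h6 : H r x = 0 := indicator_of_notMem (s := {x : Eu n | r0 ≤ ‖x‖}) hx _
            simp only []
            rw [h6]
            exact zero_le
      _ = _ := by
          rw [lintegral_const_mul' _ _ ENNReal.ofReal_ne_top, Gs_lint (by linarith), mul_one]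

/-! ## approximate identity -/

theorem tau_tendsto {X : ST n → ℝ} (hX : MemLp X 2 volume) :
    Tendsto (fun y : ST n => eLpNorm (fun z => X (z - y) - X z) 2 volume) (𝓝 0) (𝓝 0) := by
  have hm : ∀ y : ST n, MeasurePreserving (fun z : ST n => z - y) volume volume := fun y =>
    measurePreserving_sub_right volume y
  let g : ST n → C(ST n, ST n) := fun y => ⟨fun z => z - y, by fun_prop⟩
  have hg : Continuous g := by
    have : Continuous (Function.uncurry fun (y z : ST n) => z - y) := by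
      exact continuous_snd.sub continuous_fst
    exact (ContinuousMap.curry ⟨_, this⟩).continuous
  have hgm : ∀ y, MeasurePreserving (g y) volume volume := hm
  have h2 : (2 : ℝ≥0∞) ≠ ⊤ := by norm_num
  have hF : Continuous (fun y => Lp.compMeasurePreserving (g y) (hgm y) (hX.toLp X)) :=
    continuous_const.compMeasurePreservingLp hg hgm h2
  have h3 := (hF.tendsto 0)
  rw [tendsto_iff_edist_tendsto_0] at h3
  refine h3.congr fun y => ?_
  simp only [Lp.toLp_compMeasurePreserving, Lp.edist_toLp_toLp]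
  refine eLpNorm_congr_ae (Eventually.of_forall fun z => ?_)
  simp [g]

theorem app_id {X : ST n → ℝ} (hX : MemLp X 2 volume) (hX1 : Integrable X) {μ : ℝ} (hμ : 0 < μ)
    {δ : ℝ} (hδ : 0 < δ) : ∃ ε0 : ℝ, 0 < ε0 ∧ ∀ ε, 0 < ε → ε < ε0 →
      eLpNorm (fun z => X z - cv (Kp μ ε ε []) X z) 2 volume ≤ ENNReal.ofReal δ := by
  -- the radius
  set η : ℝ := δ ^ 2 / 2 with hη
  have hη0 : 0 < η := by positivity
  have h1 : ∀ᶠ y in 𝓝 (0 : ST n), eLpNorm (fun z => X (z - y) - X z) 2 volume ^ (2 : ℝ)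
      < ENNReal.ofReal η := by
    have h := ((ENNReal.continuous_rpow_const (y := 2)).tendsto 0).comp (tau_tendsto hX)
    simp only [ENNReal.zero_rpow_of_pos (by norm_num : (0 : ℝ) < 2)] at h
    exact h.eventually_lt_const (by simpa using hη0)
  obtain ⟨r0, hr0, hball⟩ := Metric.eventually_nhds_iff.1 h1
  set B : ℝ≥0∞ := (2 * eLpNorm X 2 volume) ^ (2 : ℝ) with hB
  have hBtop : B ≠ ⊤ := by
    refine ENNReal.rpow_ne_top_of_nonneg (by norm_num) ?_
    exact ENNReal.mul_ne_top (by norm_num) hX.eLpNorm_ne_top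
  set c1 : ℝ := (2 : ℝ) ^ ((n : ℝ) / 2) * (8 * (μ + 1) / r0 ^ 2) with hc1
  have hc10 : 0 < c1 := by positivity
  refine ⟨min r0 (η / ((B.toReal + 1) * c1)), lt_min hr0 (by positivity), fun ε hε hlt => ?_⟩
  have hε1 : ε < r0 := hlt.trans_le (min_le_left _ _)
  have hε2 : ε < η / ((B.toReal + 1) * c1) := hlt.trans_le (min_le_right _ _)
  set ρ : ST n → ℝ := Kp μ ε ε [] with hρ
  have hρi : Integrable ρ := Kp0_integrable hμ hε hε
  have hρc : Continuous ρ := (Kp_smooth hμ hε hε []).continuous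
  have hX2 : AEStronglyMeasurable X volume := hX.aestronglyMeasurable
  -- the difference
  set D : ST n × ST n → ℝ≥0∞ := fun p => ‖X p.1 - X (p.1 - p.2)‖ₑ with hD
  have hDm : AEMeasurable D ((volume : Measure (ST n)).prod volume) := by
    have e1 : AEStronglyMeasurable (fun p : ST n × ST n => X p.1)
      ((volume : Measure (ST n)).prod volume) := hX2.comp_fst
    have e2 : AEStronglyMeasurable (fun p : ST n × ST n => X (p.1 - p.2))
      ((volume : Measure (ST n)).prod volume) :=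
      hX2.comp_quasiMeasurePreserving
        (quasiMeasurePreserving_sub_of_right_invariant volume volume)
    exact (e1.sub e2).enorm
  have hint : ∀ᵐ z, ‖X z - cv ρ X z‖ₑ ≤ ∫⁻ y, ‖ρ y‖ₑ * D (z, y) := by
    filter_upwards [ae_ce hρi hX1] with z hz
    have hz' : Integrable (fun y => ρ y * X (z - y)) := by
      have := hz.comp_sub_left z
      simpa using this
    have e1 : cv ρ X z = ∫ y, ρ y * X (z - y) := by
      unfold cv
      rw [← integral_sub_left_eq_self (fun y => ρ (z - y) * X y) volume z]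
      simp
    have e2 : X z - cv ρ X z = ∫ y, ρ y * (X z - X (z - y)) := by
      have e3 : ∀ y, ρ y * (X z - X (z - y)) = ρ y * X z - ρ y * X (z - y) := fun y => by ring
      simp only [e3]
      rw [integral_sub (hρi.mul_const _) hz', integral_mul_const, Kp0_integral hμ hε hε, e1]
      ring
    rw [e2]
    refine (enorm_integral_le_lintegral_enorm _).trans (le_of_eq ?_)
    refine lintegral_congr fun y => ?_
    rw [enorm_mul]
  have hρ1 : ∫⁻ y, ‖ρ y‖ₑ ≤ 1 := Kp0_lint hμ hε hε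
  -- the main estimate
  have hmain : eLpNorm (fun z => X z - cv ρ X z) 2 volume ^ (2 : ℝ) ≤
      ∫⁻ y, ‖ρ y‖ₑ * eLpNorm (fun z => X (z - y) - X z) 2 volume ^ (2 : ℝ) := by
    rw [eL2_sq]
    have hρm : AEMeasurable (fun p : ST n × ST n => ‖ρ p.2‖ₑ)
      ((volume : Measure (ST n)).prod volume) :=
      (hρc.enorm.measurable.comp measurable_snd).aemeasurable
    calc ∫⁻ z, ‖X z - cv ρ X z‖ₑ ^ (2 : ℝ)
        ≤ ∫⁻ z, (∫⁻ y, ‖ρ y‖ₑ * D (z, y)) ^ (2 : ℝ) := by
          refine lintegral_mono_ae ?_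
          filter_upwards [hint] with z hz
          exact ENNReal.rpow_le_rpow hz (by norm_num)
      _ ≤ ∫⁻ z, ∫⁻ y, ‖ρ y‖ₑ * D (z, y) ^ (2 : ℝ) := by
          refine lintegral_mono fun z => ?_
          have hz0 : AEStronglyMeasurable (fun y => X (z - y)) volume :=
            hX2.comp_measurePreserving (Measure.measurePreserving_sub_left volume z)
          have hz1 : AEStronglyMeasurable (fun y => X z - X (z - y)) volume :=
            (aestronglyMeasurable_const (b := X z)).sub hz0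
          have hz : AEMeasurable (fun y => D (z, y)) volume := hz1.enorm
          refine (cs_lint hρc.enorm.measurable.aemeasurable hz).trans ?_
          calc (∫⁻ y, ‖ρ y‖ₑ) * ∫⁻ y, ‖ρ y‖ₑ * D (z, y) ^ (2 : ℝ)
              ≤ 1 * ∫⁻ y, ‖ρ y‖ₑ * D (z, y) ^ (2 : ℝ) := mul_le_mul_left hρ1 _
            _ = _ := one_mul _
      _ = ∫⁻ y, ∫⁻ z, ‖ρ y‖ₑ * D (z, y) ^ (2 : ℝ) := by
          rw [lintegral_lintegral_swap]
          exact hρm.mul (hDm.pow_const _)
      _ = _ := by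
          refine lintegral_congr fun y => ?_
          rw [lintegral_const_mul' _ _ enorm_ne_top, eL2_sq]
          congr 1
          refine lintegral_congr fun z => ?_
          simp only [hD]
          rw [← enorm_neg, neg_sub]
  have hτB : ∀ y : ST n, eLpNorm (fun z => X (z - y) - X z) 2 volume ^ (2 : ℝ) ≤ B := by
    intro y
    refine ENNReal.rpow_le_rpow ?_ (by norm_num)
    have hm := measurePreserving_sub_right (volume : Measure (ST n)) y
    have e1 : eLpNorm (fun z => X (z - y)) 2 volume = eLpNorm X 2 volume :=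
      eLpNorm_comp_measurePreserving hX2 hm
    calc eLpNorm (fun z => X (z - y) - X z) 2 volume
        ≤ eLpNorm (fun z => X (z - y)) 2 volume + eLpNorm X 2 volume :=
          eLpNorm_sub_le (hX2.comp_measurePreserving hm) hX2 (by norm_num)
      _ = _ := by rw [e1, two_mul]
  have hms : MeasurableSet {z : ST n | r0 ≤ ‖z‖} :=
    (isClosed_le continuous_const continuous_norm).measurableSet
  have hfin : ∫⁻ y, ‖ρ y‖ₑ * eLpNorm (fun z => X (z - y) - X z) 2 volume ^ (2 : ℝ) ≤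
      ENNReal.ofReal (δ ^ 2) := by
    rw [← lintegral_add_compl _ hms]
    have p1 : ∫⁻ y in {z : ST n | r0 ≤ ‖z‖},
        ‖ρ y‖ₑ * eLpNorm (fun z => X (z - y) - X z) 2 volume ^ (2 : ℝ) ≤ ENNReal.ofReal η := by
      calc _ ≤ ∫⁻ y in {z : ST n | r0 ≤ ‖z‖}, ‖ρ y‖ₑ * B :=
            lintegral_mono fun y => mul_le_mul_right (hτB y) _
        _ = (∫⁻ y in {z : ST n | r0 ≤ ‖z‖}, ‖ρ y‖ₑ) * B := by
            rw [lintegral_mul_const' _ _ hBtop]
        _ ≤ ENNReal.ofReal (c1 * ε) * B := mul_le_mul_left (Kp_far hμ hε hε1) _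
        _ ≤ ENNReal.ofReal η := by
            rw [← ENNReal.ofReal_toReal hBtop, ← ENNReal.ofReal_mul (by positivity)]
            refine ENNReal.ofReal_le_ofReal ?_
            rw [lt_div_iff₀ (by positivity)] at hε2
            have : 0 ≤ B.toReal := ENNReal.toReal_nonneg
            nlinarith [mul_pos hc10 hε]
    have p2 : ∫⁻ y in {z : ST n | r0 ≤ ‖z‖}ᶜ,
        ‖ρ y‖ₑ * eLpNorm (fun z => X (z - y) - X z) 2 volume ^ (2 : ℝ) ≤ ENNReal.ofReal η := by
      calc _ ≤ ∫⁻ y in {z : ST n | r0 ≤ ‖z‖}ᶜ, ‖ρ y‖ₑ * ENNReal.ofReal η := by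
            refine setLIntegral_mono' hms.compl fun y hy => ?_
            have hy' : dist y 0 < r0 := by
              rw [dist_zero_right]
              exact not_le.1 hy
            exact mul_le_mul_right (hball hy').le _
        _ = (∫⁻ y in {z : ST n | r0 ≤ ‖z‖}ᶜ, ‖ρ y‖ₑ) * ENNReal.ofReal η := by
            rw [lintegral_mul_const' _ _ ENNReal.ofReal_ne_top]
        _ ≤ 1 * ENNReal.ofReal η := mul_le_mul_left ((setLIntegral_le_lintegral _ _).trans hρ1) _
        _ = _ := one_mul _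
    calc _ ≤ ENNReal.ofReal η + ENNReal.ofReal η := add_le_add p1 p2
      _ = ENNReal.ofReal (δ ^ 2) := by
          rw [← ENNReal.ofReal_add hη0.le hη0.le, hη, add_halves]
  have h2 : (0 : ℝ) < 2 := by norm_num
  rw [← ENNReal.rpow_le_rpow_iff h2]
  refine (hmain.trans hfin).trans (le_of_eq ?_)
  rw [ENNReal.ofReal_rpow_of_pos hδ]
  norm_num

end Pool.Agent.Helper37.Jef
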