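import Pool.Agent.Helper37.JefForm

/-! # bounds of finite combinations of kernels -/

open MeasureTheory Set Filter Topology
open scoped ENNReal ContDiff

namespace Pool.Agent.Helper37.Jef
open Pool.Agent.Helper42.Jef
variable {n : ℕ}

/-- integrable kernel with an `L²` bound and a weak type bound -/
def KB (A : ℝ) (C : ℝ → ℝ) (k : ST n → ℝ) : Prop :=
  Integrable k ∧
  (∀ u : ST n → ℝ, Integrable u → MemLp u 2 →
    eLpNorm (cv k u) 2 volume ≤ ENNReal.ofReal A * eLpNorm u 2 volume) ∧
  (∀ u : ST n → ℝ, Integrable u → MemLp u 2 → ∫ z, |u z| ≤ 1 → ∀ s > 0,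
    volume {z | s < |cv k u z|} ≤ ENNReal.ofReal (C s * ∫ z, |u z|))

theorem cv_comb_ae {ι : Type*} [Fintype ι] {K : ι → ST n → ℝ} (coef : ι → ℝ)
    (hK : ∀ a, Integrable (K a)) {u : ST n → ℝ} (hu : Integrable u) :
    ∀ᵐ z, cv (fun y => ∑ a, coef a * K a y) u z = ∑ a, coef a * cv (K a) u z := by
  have h : ∀ᵐ z, ∀ a, Integrable (fun y => (coef a * K a (z - y)) * u y) := by
    rw [ae_all_iff]
    intro a
    exact ae_ce ((hK a).const_mul (coef a)) hu
  filter_upwards [h] with z hz
  rw [cv_sum_left (k := fun a y => coef a * K a y) Finset.univ fun a _ => hz a]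
  exact Finset.sum_congr rfl fun a _ => cv_const_left (K a) u (coef a) z

theorem KB_comb {ι : Type*} [Fintype ι] {K : ι → ST n → ℝ} {coef : ι → ℝ} {B A : ℝ}
    {C : ℝ → ℝ} (hB0 : 0 ≤ B) (hB : ∀ a, |coef a| ≤ B) (hK : ∀ a, KB A C (K a)) :
    KB ((Fintype.card ι : ℝ) * B * A)
      (fun s => (Fintype.card ι : ℝ) * C (s / (((Fintype.card ι : ℝ) + 1) * (B + 1))))
      (fun y => ∑ a, coef a * K a y) := by
  set N : ℝ := (Fintype.card ι : ℝ) with hN
  have hN0 : 0 ≤ N := by positivity
  refine ⟨integrable_finsetSum _ fun a _ => (hK a).1.const_mul _, ?_, ?_⟩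
  · intro u hu hu2
    have h1 := cv_comb_ae coef (fun a => (hK a).1) hu
    rw [eLpNorm_congr_ae h1]
    have e : (fun z => ∑ a, coef a * cv (K a) u z) = ∑ a, fun z => coef a * cv (K a) u z := by
      funext z
      simp
    rw [e]
    have hm : ∀ a, AEStronglyMeasurable (cv (K a) u) volume := fun a =>
      cv_aesm (hK a).1.aestronglyMeasurable hu.aestronglyMeasurable
    refine (eLpNorm_sum_le (fun a _ => (hm a).const_mul (coef a)) (by norm_num)).trans ?_
    calc ∑ a, eLpNorm (fun z => coef a * cv (K a) u z) 2 volume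
        ≤ ∑ a : ι, ENNReal.ofReal B * (ENNReal.ofReal A * eLpNorm u 2 volume) := by
          refine Finset.sum_le_sum fun a _ => ?_
          have h2 : eLpNorm (fun z => coef a * cv (K a) u z) 2 volume =
              ‖coef a‖ₑ * eLpNorm (cv (K a) u) 2 volume :=
            eLpNorm_const_smul (coef a) (cv (K a) u) 2 volume
          rw [h2]
          refine mul_le_mul' ?_ ((hK a).2.1 u hu hu2)
          rw [← ofReal_norm]
          exact ENNReal.ofReal_le_ofReal (hB a)
      _ = ENNReal.ofReal (N * B * A) * eLpNorm u 2 volume := by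
          rw [Finset.sum_const, Finset.card_univ, nsmul_eq_mul,
            ENNReal.ofReal_mul (by positivity), ENNReal.ofReal_mul hN0, hN,
            ENNReal.ofReal_natCast]
          ring
  · intro u hu hu2 hu1 s hs
    set s' : ℝ := s / ((N + 1) * (B + 1)) with hs'
    have hs0 : 0 < s' := by positivity
    have h1 := cv_comb_ae coef (fun a => (hK a).1) hu
    have h2 : ({z | s < |cv (fun y => ∑ a, coef a * K a y) u z|} : Set (ST n)) ≤ᵐ[volume]
        ⋃ a, {z | s' < |cv (K a) u z|} := by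
      filter_upwards [h1] with z hz hlt
      have hlt' : s < |cv (fun y => ∑ a, coef a * K a y) u z| := hlt
      rw [hz] at hlt'
      by_contra hcon
      have hcon' : ∀ a, |cv (K a) u z| ≤ s' := by
        intro a
        by_contra h3
        exact hcon (mem_iUnion.2 ⟨a, not_le.1 h3⟩)
      have h4 : |∑ a, coef a * cv (K a) u z| ≤ N * (B * s') := by
        refine (Finset.abs_sum_le_sum_abs _ _).trans ?_
        calc ∑ a, |coef a * cv (K a) u z| ≤ ∑ a : ι, B * s' := by
              refine Finset.sum_le_sum fun a _ => ?_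
              rw [abs_mul]
              exact mul_le_mul (hB a) (hcon' a) (abs_nonneg _) hB0
          _ = N * (B * s') := by
              rw [Finset.sum_const, Finset.card_univ, nsmul_eq_mul]
      have h5 : N * (B * s') ≤ s := by
        have e : s = (N + 1) * (B + 1) * s' := by
          rw [hs']
          field_simp
        rw [e]
        have : 0 ≤ N * B * s' := by positivity
        nlinarith [mul_nonneg hN0 hs0.le, mul_nonneg hB0 hs0.le]
      linarith
    refine (measure_mono_ae h2).trans ((measure_iUnion_fintype_le _ _).trans ?_)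
    calc ∑ a, volume {z | s' < |cv (K a) u z|}
        ≤ ∑ a : ι, ENNReal.ofReal (C s' * ∫ z, |u z|) :=
          Finset.sum_le_sum fun a _ => (hK a).2.2 u hu hu2 hu1 s' hs0
      _ = _ := by
          rw [Finset.sum_const, Finset.card_univ, nsmul_eq_mul, mul_assoc,
            ENNReal.ofReal_mul hN0, hN, ENNReal.ofReal_natCast]

/-- black box: the main kernels -/
def KMain (n : ℕ) (μ : ℝ) : Prop := ∃ (A : ℝ) (C : ℝ → ℝ), ∀ ε : ℝ, 0 < ε → ε < 1 →
    ∀ l : List (Fin n), l.length = 4 →
      Integrable (fun z : ST n => ∫ s in ε..1, Kr μ ε s l z) ∧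
      (∀ u : ST n → ℝ, Integrable u → MemLp u 2 →
        eLpNorm (cv (fun z => ∫ s in ε..1, Kr μ ε s l z) u) 2 volume
          ≤ ENNReal.ofReal A * eLpNorm u 2 volume) ∧
      (∀ u : ST n → ℝ, Integrable u → MemLp u 2 → ∫ z, |u z| ≤ 1 → ∀ s > 0,
        volume {z | s < |cv (fun z => ∫ s in ε..1, Kr μ ε s l z) u z|}
          ≤ ENNReal.ofReal (C s * ∫ z, |u z|))

/-- black box: the elliptic kernels -/
def KEll (n : ℕ) (μ : ℝ) : Prop := ∃ A : ℝ, ∀ ε : ℝ, 0 < ε → ε < 1 →
    ∀ l : List (Fin n), l.length = 2 →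
      Integrable (fun z : ST n => ∫ s in ε..1, Kp μ ε s l z) ∧
      (∀ u : ST n → ℝ, Integrable u → MemLp u 2 →
        eLpNorm (cv (fun z => ∫ s in ε..1, Kp μ ε s l z) u) 2 volume
          ≤ ENNReal.ofReal A * eLpNorm u 2 volume)

/-! ## the main kernel matrix -/

/-- indicator coefficient -/
def dl (p q : Fin n × Fin n) : ℝ := if p = q then 1 else 0

/-- coefficients -/
noncomputable def cf (c : ℝ) (i : Fin n) (q : Fin n × Fin n) (a : (Fin n × Fin n) × Bool) : ℝ :=
  if a.2 then -(c / 2) * (dl (a.1.2, i) q + dl (i, a.1.2) q)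
  else c / 2 * (dl (a.1.2, a.1.1) q + dl (a.1.1, a.1.2) q)

/-- lists of derivatives -/
def ls (i k : Fin n) (a : (Fin n × Fin n) × Bool) : List (Fin n) :=
  if a.2 then [a.1.2, a.1.1, k, a.1.1] else [a.1.2, i, k, a.1.1]

/-- the kernel matrix; `p = (i, k)` -/
noncomputable def kap (c μ ε : ℝ) (p q : Fin n × Fin n) (z : ST n) : ℝ :=
  ∑ a : (Fin n × Fin n) × Bool, cf c p.1 q a * RR μ ε (ls p.1 p.2 a) z

theorem dl_bound (p q : Fin n × Fin n) : 0 ≤ dl p q ∧ dl p q ≤ 1 := by
  unfold dl
  split_ifs <;> norm_num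

theorem cf_bound (c : ℝ) (i : Fin n) (q : Fin n × Fin n) (a : (Fin n × Fin n) × Bool) :
    |cf c i q a| ≤ |c| := by
  have key : ∀ x : ℝ, 0 ≤ x → x ≤ 2 → |c / 2 * x| ≤ |c| := by
    intro x h0 h2
    rw [abs_mul, abs_div, abs_of_nonneg h0, abs_of_pos (by norm_num : (0 : ℝ) < 2)]
    nlinarith [abs_nonneg c]
  unfold cf
  split_ifs
  · rw [neg_mul, abs_neg]
    have h1 := dl_bound (a.1.2, i) q
    have h2 := dl_bound (i, a.1.2) q
    exact key _ (by linarith [h1.1, h2.1]) (by linarith [h1.2, h2.2])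
  · have h1 := dl_bound (a.1.2, a.1.1) q
    have h2 := dl_bound (a.1.1, a.1.2) q
    exact key _ (by linarith [h1.1, h2.1]) (by linarith [h1.2, h2.2])

theorem ls_length (i k : Fin n) (a : (Fin n × Fin n) × Bool) : (ls i k a).length = 4 := by
  unfold ls
  split_ifs <;> rfl

theorem sum_dl (p : Fin n × Fin n) (f : Fin n × Fin n → ℝ) : ∑ q, dl p q * f q = f p := by
  unfold dl
  simp

/-- the main terms are the convolution with the kernel matrix -/
theorem kap_sum {Ω : Set (Eu n)} {T μ c : ℝ} {χ : ST n → ℝ} (hχ : IsTestST Ω T χ)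
    {σ : ST n → Mt n} (hσ : MemLp σ 2 volume)
    {ε : ℝ} (hμ : 0 < μ) (hε : 0 < ε) (h1 : ε ≤ 1) (i k : Fin n) (z : ST n) :
    ∑ q, cv (kap c μ ε (i, k) q) (fun y => χ y * σ y q) z =
      -∑ j, cMain χ c (sg σ i) (sg σ j) i j [k, j]
          (fun L φ g => cv (RR μ ε L) (fun y => φ y * g y) z) := by
  have t0 := TS.refl hχ.smooth
  have cpt := hχ.cpt.isCompact
  have hn : ∀ q, Nice (tsupport χ) (fun y => χ y * σ y q) := fun q =>
    t0.nice hχ.cpt (li_comp (by norm_num) hσ q)
  set F : List (Fin n) → Fin n × Fin n → ℝ := fun L q => cv (RR μ ε L) (fun y => χ y * σ y q) z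
    with hF
  have e1 : ∀ q, cv (kap c μ ε (i, k) q) (fun y => χ y * σ y q) z =
      ∑ a : (Fin n × Fin n) × Bool, cf c i q a * F (ls i k a) q := by
    intro q
    have hI : ∀ a : (Fin n × Fin n) × Bool,
        Integrable (fun y => (cf c i q a * RR μ ε (ls i k a) (z - y)) * (χ y * σ y q)) := fun a =>
      (hn q).ce cpt (k := fun y => cf c i q a * RR μ ε (ls i k a) y)
        (continuous_const.mul (RR_cont hμ hε h1 _)) z
    have := cv_sum_left (k := fun (a : (Fin n × Fin n) × Bool) y =>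
      cf c i q a * RR μ ε (ls i k a) y) (u := fun y => χ y * σ y q) (z := z) Finset.univ
      fun a _ => hI a
    have h2 : cv (kap c μ ε (i, k) q) (fun y => χ y * σ y q) z = _ := this
    rw [h2]
    exact Finset.sum_congr rfl fun a _ => cv_const_left _ _ _ _
  have e2 : ∀ (L : List (Fin n)) (i l : Fin n),
      cv (RR μ ε L) (fun y => χ y * sg σ i l y) z = 1 / 2 * (F L (l, i) + F L (i, l)) := by
    intro L i l
    have hc := RR_cont hμ hε h1 L
    simp only [hF]
    rw [← cv_add_right ((hn (l, i)).ce cpt hc z) ((hn (i, l)).ce cpt hc z), ← cv_const_right]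
    congr 1
    funext y
    rw [sg_eq]
    ring
  simp only [e1]
  rw [Finset.sum_comm]
  have e3 : ∀ a : (Fin n × Fin n) × Bool, ∑ q, cf c i q a * F (ls i k a) q =
      if a.2 then -(c / 2) * (F [a.1.2, a.1.1, k, a.1.1] (a.1.2, i) +
        F [a.1.2, a.1.1, k, a.1.1] (i, a.1.2))
      else c / 2 * (F [a.1.2, i, k, a.1.1] (a.1.2, a.1.1) +
        F [a.1.2, i, k, a.1.1] (a.1.1, a.1.2)) := by
    intro a
    unfold cf ls
    split_ifs
    · have : ∀ q, -(c / 2) * (dl (a.1.2, i) q + dl (i, a.1.2) q) *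
          F [a.1.2, a.1.1, k, a.1.1] q =
          -(c / 2) * (dl (a.1.2, i) q * F [a.1.2, a.1.1, k, a.1.1] q +
            dl (i, a.1.2) q * F [a.1.2, a.1.1, k, a.1.1] q) := fun q => by ring
      simp only [this]
      rw [← Finset.mul_sum, Finset.sum_add_distrib, sum_dl, sum_dl]
    · have : ∀ q, (c / 2) * (dl (a.1.2, a.1.1) q + dl (a.1.1, a.1.2) q) *
          F [a.1.2, i, k, a.1.1] q =
          (c / 2) * (dl (a.1.2, a.1.1) q * F [a.1.2, i, k, a.1.1] q +
            dl (a.1.1, a.1.2) q * F [a.1.2, i, k, a.1.1] q) := fun q => by ring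
      simp only [this]
      rw [← Finset.mul_sum, Finset.sum_add_distrib, sum_dl, sum_dl]
  simp only [e3]
  rw [Fintype.sum_prod_type, Fintype.sum_prod_type, ← Finset.sum_neg_distrib]
  refine Finset.sum_congr rfl fun j _ => ?_
  unfold cMain
  simp only [e2, Fintype.sum_bool]
  rw [Finset.mul_sum, ← Finset.sum_neg_distrib]
  refine Finset.sum_congr rfl fun l _ => ?_
  simp only [if_true, Bool.false_eq_true, if_false]
  ring

end Pool.Agent.Helper37.Jef
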