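import Pool.Agent.Helper42.Jef.Defs2

/-! # Convolution on space-time: measurability, Young inequalities, linearity -/

open MeasureTheory Set Filter Topology
open scoped ENNReal ContDiff

namespace Pool.Agent.Helper37.Jef
open Pool.Agent.Helper42.Jef
variable {n : ℕ}

instance haarST (n : ℕ) : (volume : Measure (ST n)).IsAddHaarMeasure :=
  Measure.prod.instIsAddHaarMeasure (volume : Measure ℝ) (volume : Measure (Eu n))

theorem cvi_aesm {k u : ST n → ℝ} (hk : AEStronglyMeasurable k volume)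
    (hu : AEStronglyMeasurable u volume) :
    AEStronglyMeasurable (fun p : ST n × ST n => k (p.1 - p.2) * u p.2)
      ((volume : Measure (ST n)).prod volume) := by
  have h := AEStronglyMeasurable.convolution_integrand (ContinuousLinearMap.mul ℝ ℝ)
    (μ := volume) (ν := volume) hu hk
  refine h.congr (Eventually.of_forall fun p => ?_)
  simp [mul_comm]

theorem cv_aesm {k u : ST n → ℝ} (hk : AEStronglyMeasurable k volume)
    (hu : AEStronglyMeasurable u volume) : AEStronglyMeasurable (cv k u) volume :=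
  (cvi_aesm hk hu).integral_prod_right'

theorem cvs_aesm {k u : ST n → ℝ} (hk : AEStronglyMeasurable k volume)
    (hu : AEStronglyMeasurable u volume) (z : ST n) :
    AEStronglyMeasurable (fun y => k (z - y) * u y) volume := by
  have h := AEStronglyMeasurable.convolution_integrand_swap_snd (ContinuousLinearMap.mul ℝ ℝ)
    (μ := volume) hk hu z
  exact h

theorem cv_enorm_le (k u : ST n → ℝ) (z : ST n) :
    ‖cv k u z‖ₑ ≤ ∫⁻ y, ‖k (z - y)‖ₑ * ‖u y‖ₑ := by
  unfold cv
  refine (enorm_integral_le_lintegral_enorm _).trans (le_of_eq ?_)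
  refine lintegral_congr fun y => ?_
  rw [enorm_mul]

theorem aemeas_cvi {k u : ST n → ℝ} (hk : AEStronglyMeasurable k volume)
    (hu : AEStronglyMeasurable u volume) :
    AEMeasurable (fun p : ST n × ST n => ‖k (p.1 - p.2)‖ₑ * ‖u p.2‖ₑ)
      ((volume : Measure (ST n)).prod volume) := by
  refine (cvi_aesm hk hu).enorm.congr (Eventually.of_forall fun p => ?_)
  simp

theorem aemeas_k {k : ST n → ℝ} (hk : AEStronglyMeasurable k volume) :
    AEMeasurable (fun p : ST n × ST n => ‖k (p.1 - p.2)‖ₑ)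
      ((volume : Measure (ST n)).prod volume) := by
  have := aemeas_cvi (u := fun _ => (1 : ℝ)) hk aestronglyMeasurable_const
  simpa using this

theorem aemeas_ks {k : ST n → ℝ} (hk : AEStronglyMeasurable k volume) (z : ST n) :
    AEMeasurable (fun y : ST n => ‖k (z - y)‖ₑ) volume := by
  have := (cvs_aesm (u := fun _ => (1 : ℝ)) hk aestronglyMeasurable_const z).enorm
  simpa using this

/-- Young inequality in `L¹` -/
theorem lint_cv {k u : ST n → ℝ} (hk : AEStronglyMeasurable k volume)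
    (hu : AEStronglyMeasurable u volume) :
    ∫⁻ z, ‖cv k u z‖ₑ ≤ (∫⁻ z, ‖k z‖ₑ) * ∫⁻ z, ‖u z‖ₑ := by
  calc ∫⁻ z, ‖cv k u z‖ₑ ≤ ∫⁻ z, ∫⁻ y, ‖k (z - y)‖ₑ * ‖u y‖ₑ :=
        lintegral_mono fun z => cv_enorm_le k u z
    _ = ∫⁻ y, ∫⁻ z, ‖k (z - y)‖ₑ * ‖u y‖ₑ := by
        rw [lintegral_lintegral_swap]
        exact aemeas_cvi hk hu
    _ = ∫⁻ y, (∫⁻ z, ‖k z‖ₑ) * ‖u y‖ₑ := by
        refine lintegral_congr fun y => ?_
        rw [lintegral_mul_const'' _ ?_]
        · rw [lintegral_sub_right_eq_self (fun z => ‖k z‖ₑ) y]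
        · exact (hk.comp_quasiMeasurePreserving
            (measurePreserving_sub_right volume y).quasiMeasurePreserving).enorm
    _ = _ := by
        rw [lintegral_const_mul'' _ hu.enorm]

theorem cs_lint {α : Type*} [MeasurableSpace α] {μ : Measure α} {a b : α → ℝ≥0∞}
    (ha : AEMeasurable a μ) (hb : AEMeasurable b μ) :
    (∫⁻ x, a x * b x ∂μ) ^ (2 : ℝ) ≤ (∫⁻ x, a x ∂μ) * ∫⁻ x, a x * b x ^ (2 : ℝ) ∂μ := by
  have h := ENNReal.lintegral_mul_le_Lp_mul_Lq μ (p := 2) (q := 2)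
    (by constructor <;> norm_num) (f := fun x => a x ^ (1 / 2 : ℝ))
    (g := fun x => a x ^ (1 / 2 : ℝ) * b x) (ha.pow_const _) ((ha.pow_const _).mul hb)
  have e1 : ∀ x, a x ^ (1 / 2 : ℝ) * (a x ^ (1 / 2 : ℝ) * b x) = a x * b x := by
    intro x
    rw [← mul_assoc, ← ENNReal.rpow_add_of_nonneg _ _ (by norm_num) (by norm_num)]
    norm_num
  have e2 : ∀ x, (a x ^ (1 / 2 : ℝ)) ^ (2 : ℝ) = a x := by
    intro x
    rw [← ENNReal.rpow_mul]; norm_num
  have e3 : ∀ x, (a x ^ (1 / 2 : ℝ) * b x) ^ (2 : ℝ) = a x * b x ^ (2 : ℝ) := by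
    intro x
    rw [ENNReal.mul_rpow_of_nonneg _ _ (by norm_num), e2]
  simp only [Pi.mul_apply, e1, e2, e3] at h
  calc (∫⁻ x, a x * b x ∂μ) ^ (2 : ℝ)
      ≤ ((∫⁻ x, a x ∂μ) ^ (1 / 2 : ℝ) * (∫⁻ x, a x * b x ^ (2 : ℝ) ∂μ) ^ (1 / 2 : ℝ)) ^ (2 : ℝ) :=
        ENNReal.rpow_le_rpow h (by norm_num)
    _ = _ := by
        rw [ENNReal.mul_rpow_of_nonneg _ _ (by norm_num), ← ENNReal.rpow_mul, ← ENNReal.rpow_mul]
        norm_num

theorem eL2_sq (f : ST n → ℝ) : eLpNorm f 2 volume ^ (2 : ℝ) = ∫⁻ z, ‖f z‖ₑ ^ (2 : ℝ) := by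
  rw [eLpNorm_eq_lintegral_rpow_enorm_toReal (by norm_num) (by norm_num)]
  rw [← ENNReal.rpow_mul]
  norm_num

/-- Young inequality in `L²` -/
theorem eL2_cv {k u : ST n → ℝ} (hk : AEStronglyMeasurable k volume)
    (hu : AEStronglyMeasurable u volume) :
    eLpNorm (cv k u) 2 volume ≤ (∫⁻ z, ‖k z‖ₑ) * eLpNorm u 2 volume := by
  have h2 : (0 : ℝ) < 2 := by norm_num
  rw [← ENNReal.rpow_le_rpow_iff h2, ENNReal.mul_rpow_of_nonneg _ _ h2.le, eL2_sq, eL2_sq]
  calc ∫⁻ z, ‖cv k u z‖ₑ ^ (2 : ℝ)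
      ≤ ∫⁻ z, (∫⁻ y, ‖k (z - y)‖ₑ * ‖u y‖ₑ) ^ (2 : ℝ) :=
        lintegral_mono fun z => ENNReal.rpow_le_rpow (cv_enorm_le k u z) h2.le
    _ ≤ ∫⁻ z, (∫⁻ y, ‖k y‖ₑ) * ∫⁻ y, ‖k (z - y)‖ₑ * ‖u y‖ₑ ^ (2 : ℝ) := by
        refine lintegral_mono fun z => ?_
        refine (cs_lint (aemeas_ks hk z) hu.enorm).trans (le_of_eq ?_)
        rw [lintegral_sub_left_eq_self (fun y => ‖k y‖ₑ) z]
    _ = (∫⁻ y, ‖k y‖ₑ) * ∫⁻ z, ∫⁻ y, ‖k (z - y)‖ₑ * ‖u y‖ₑ ^ (2 : ℝ) := by
        rw [lintegral_const_mul'']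
        refine AEMeasurable.lintegral_prod_right' (f := fun p : ST n × ST n =>
          ‖k (p.1 - p.2)‖ₑ * ‖u p.2‖ₑ ^ (2 : ℝ)) ?_
        exact (aemeas_k hk).mul ((hu.enorm.pow_const _).comp_snd)
    _ = (∫⁻ y, ‖k y‖ₑ) * ∫⁻ y, ∫⁻ z, ‖k (z - y)‖ₑ * ‖u y‖ₑ ^ (2 : ℝ) := by
        rw [lintegral_lintegral_swap]
        exact (aemeas_k hk).mul ((hu.enorm.pow_const _).comp_snd)
    _ = (∫⁻ y, ‖k y‖ₑ) * ∫⁻ y, (∫⁻ z, ‖k z‖ₑ) * ‖u y‖ₑ ^ (2 : ℝ) := by
        congr 1
        refine lintegral_congr fun y => ?_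
        rw [lintegral_mul_const'' _ ?_]
        · rw [lintegral_sub_right_eq_self (fun z => ‖k z‖ₑ) y]
        · exact (hk.comp_quasiMeasurePreserving
            (measurePreserving_sub_right volume y).quasiMeasurePreserving).enorm
    _ = _ := by
        rw [lintegral_const_mul'' _ (hu.enorm.pow_const _)]
        rw [← mul_assoc]
        congr 1
        rw [ENNReal.rpow_two, sq]

/-- convolution integrand: a.e. existence -/
theorem ae_ce {k u : ST n → ℝ} (hk : Integrable k) (hu : Integrable u) :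
    ∀ᵐ z, Integrable (fun y => k (z - y) * u y) := by
  have h := Integrable.ae_convolution_exists (ContinuousLinearMap.mul ℝ ℝ)
    (μ := (volume : Measure (ST n))) (ν := volume) hu hk
  filter_upwards [h] with z hz
  refine hz.congr (Eventually.of_forall fun y => ?_)
  simp [mul_comm]

/-- convolution integrand of a continuous kernel and an integrable function which vanishes outside
a compact set -/
theorem ce_cont {k u : ST n → ℝ} (hk : Continuous k) (hu : Integrable u) {S : Set (ST n)}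
    (hS : IsCompact S) (h0 : ∀ y, y ∉ S → u y = 0) (z : ST n) :
    Integrable (fun y => k (z - y) * u y) := by
  have hc : Continuous fun y => k (z - y) := hk.comp (continuous_const.sub continuous_id)
  obtain ⟨C, hC⟩ := hS.exists_bound_of_continuousOn hc.continuousOn
  refine Integrable.mono' (hu.norm.const_mul C)
    (hc.aestronglyMeasurable.mul hu.aestronglyMeasurable) (Eventually.of_forall fun y => ?_)
  rw [norm_mul]
  by_cases hy : y ∈ S
  · exact mul_le_mul_of_nonneg_right (hC y hy) (norm_nonneg _)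
  · rw [h0 y hy]; simp

theorem cv_add_right {k u v : ST n → ℝ} {z : ST n} (h1 : Integrable (fun y => k (z - y) * u y))
    (h2 : Integrable (fun y => k (z - y) * v y)) :
    cv k (fun y => u y + v y) z = cv k u z + cv k v z := by
  unfold cv
  rw [← integral_add h1 h2]
  exact integral_congr_ae (Eventually.of_forall fun y => by ring)

theorem cv_sub_right {k u v : ST n → ℝ} {z : ST n} (h1 : Integrable (fun y => k (z - y) * u y))
    (h2 : Integrable (fun y => k (z - y) * v y)) :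
    cv k (fun y => u y - v y) z = cv k u z - cv k v z := by
  unfold cv
  rw [← integral_sub h1 h2]
  exact integral_congr_ae (Eventually.of_forall fun y => by ring)

theorem cv_const_right (k u : ST n → ℝ) (c : ℝ) (z : ST n) :
    cv k (fun y => c * u y) z = c * cv k u z := by
  unfold cv
  rw [← integral_const_mul]
  exact integral_congr_ae (Eventually.of_forall fun y => by ring)

theorem cv_const_left (k u : ST n → ℝ) (c : ℝ) (z : ST n) :
    cv (fun y => c * k y) u z = c * cv k u z := by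
  unfold cv
  rw [← integral_const_mul]
  exact integral_congr_ae (Eventually.of_forall fun y => by ring)

theorem cv_sum_left {ι : Type*} (s : Finset ι) {k : ι → ST n → ℝ} {u : ST n → ℝ} {z : ST n}
    (h : ∀ i ∈ s, Integrable (fun y => k i (z - y) * u y)) :
    cv (fun y => ∑ i ∈ s, k i y) u z = ∑ i ∈ s, cv (k i) u z := by
  unfold cv
  rw [← integral_finsetSum s h]
  exact integral_congr_ae (Eventually.of_forall fun y => by simp [Finset.sum_mul])

theorem cv_sum_right {ι : Type*} (s : Finset ι) {k : ST n → ℝ} {u : ι → ST n → ℝ} {z : ST n}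
    (h : ∀ i ∈ s, Integrable (fun y => k (z - y) * u i y)) :
    cv k (fun y => ∑ i ∈ s, u i y) z = ∑ i ∈ s, cv k (u i) z := by
  unfold cv
  rw [← integral_finsetSum s h]
  exact integral_congr_ae (Eventually.of_forall fun y => by simp [Finset.mul_sum])

theorem cv_sub_left {k l u : ST n → ℝ} {z : ST n} (h1 : Integrable (fun y => k (z - y) * u y))
    (h2 : Integrable (fun y => l (z - y) * u y)) :
    cv (fun y => k y - l y) u z = cv k u z - cv l u z := by
  unfold cv
  rw [← integral_sub h1 h2]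
  exact integral_congr_ae (Eventually.of_forall fun y => by ring)

end Pool.Agent.Helper37.Jef
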