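import Pool.Agent.Helper37.JefId

/-! # the integrated representation formula -/

open MeasureTheory Set Filter Topology
open scoped ENNReal ContDiff

namespace Pool.Agent.Helper37.Jef
open Pool.Agent.Helper42.Jef
variable {n : ℕ}

/-- the divergence of `χ w` -/
noncomputable def dd (χ : ST n → ℝ) (w : ST n → Eu n) (y : ST n) : ℝ := ∑ p, dx p χ y * w y p

/-- commutator part of the vorticity of `χ w` -/
noncomputable def cw (χ : ST n → ℝ) (w : ST n → Eu n) (i j : Fin n) (y : ST n) : ℝ :=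
  dx j χ y * w y i - dx i χ y * w y j

theorem cw_nice {Ω : Set (Eu n)} {T : ℝ} {χ : ST n → ℝ} (hχ : IsTestST Ω T χ)
    {w : ST n → Eu n} {W : ST n → Mt n} (hv : IsVel Ω T w W) (i j : Fin n) :
    Nice (tsupport χ) (cw χ w i j) :=
  (((TS.refl hχ.smooth).dx j).nice hχ.cpt (li_w hv i)).sub
    (((TS.refl hχ.smooth).dx i).nice hχ.cpt (li_w hv j))

theorem Nice.sum {S : Set (ST n)} {ι : Type*} (s : Finset ι) {F : ι → ST n → ℝ}
    (h : ∀ i ∈ s, Nice S (F i)) : Nice S (fun y => ∑ i ∈ s, F i y) :=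
  ⟨integrable_finsetSum _ fun i hi => (h i hi).1, fun y hy =>
    Finset.sum_eq_zero fun i hi => (h i hi).2 y hy⟩

theorem dd_nice {Ω : Set (Eu n)} {T : ℝ} {χ : ST n → ℝ} (hχ : IsTestST Ω T χ)
    {w : ST n → Eu n} {W : ST n → Mt n} (hv : IsVel Ω T w W) :
    Nice (tsupport χ) (dd χ w) :=
  Nice.sum _ fun p _ => ((TS.refl hχ.smooth).dx p).nice hχ.cpt (li_w hv p)

theorem lap_id {Ω : Set (Eu n)} {T : ℝ} {χ : ST n → ℝ} (hχ : IsTestST Ω T χ)
    {w : ST n → Eu n} {W : ST n → Mt n} (hv : IsVel Ω T w W)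
    {μ ε s : ℝ} (hμ : 0 < μ) (hε : 0 < ε) (hs : 0 < s) (k i : Fin n) (z : ST n) :
    ∑ l, cv (Kp μ ε s [l, l]) (XX χ w W k i) z =
      ∑ j, (cv (Kp μ ε s [k, j]) (fun y => χ y * om W i j y) z +
        cv (Kp μ ε s [k, j]) (cw χ w i j) z) + cv (Kp μ ε s [k, i]) (dd χ w) z := by
  have t0 := TS.refl hχ.smooth
  have cpt := hχ.cpt.isCompact
  have hKs : ∀ L : List (Fin n), ContDiff ℝ ∞ (Kp μ ε s L) := fun L => Kp_smooth hμ hε hs L
  have hX : ∀ (L : List (Fin n)) (k i : Fin n), cv (Kp μ ε s L) (XX χ w W k i) z =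
      cv (Kp μ ε s (k :: L)) (fun y => χ y * w y i) z := fun L k i =>
    cv_XX hχ hv (hKs L) (hKs (k :: L)).continuous k i
      (fun z => Kp_deriv_x hμ hε hs L k z) z
  have h1 : ∀ j, cv (Kp μ ε s [k, j]) (fun y => χ y * om W i j y) z +
        cv (Kp μ ε s [k, j]) (cw χ w i j) z =
      cv (Kp μ ε s [j, k, j]) (fun y => χ y * w y i) z -
        cv (Kp μ ε s [i, k, j]) (fun y => χ y * w y j) z := by
    intro j
    have hc := (hKs [k, j]).continuous
    rw [← cv_add_right ((t0.nice hχ.cpt (li_om hv i j)).ce cpt hc z) ((cw_nice hχ hv i j).ce cpt hc z),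
      ← hX [k, j] j i, ← hX [k, j] i j,
      ← cv_sub_right ((XX_nice hχ hv j i).ce cpt hc z) ((XX_nice hχ hv i j).ce cpt hc z)]
    congr 1
    funext y
    unfold cw om XX
    ring
  have h2 : cv (Kp μ ε s [k, i]) (dd χ w) z =
      ∑ p, cv (Kp μ ε s [p, k, i]) (fun y => χ y * w y p) z := by
    have hc := (hKs [k, i]).continuous
    simp only [← hX]
    rw [← cv_sum_right Finset.univ fun p _ => (XX_nice hχ hv p p).ce cpt hc z]
    unfold cv
    refine integral_congr_ae ?_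
    filter_upwards [vel_trace hv] with y hy
    congr 1
    unfold dd XX
    rw [Finset.sum_add_distrib, ← Finset.mul_sum, hy]
    ring
  simp only [h1, hX]
  rw [h2, Finset.sum_sub_distrib]
  have h3 : ∀ p, cv (Kp μ ε s [p, k, i]) (fun y => χ y * w y p) z =
      cv (Kp μ ε s [i, k, p]) (fun y => χ y * w y p) z := by
    intro p
    have : Kp μ ε s [p, k, i] = Kp μ ε s [i, k, p] := by
      funext y
      refine Kp_perm hμ hε hs ?_ y
      exact (List.reverse_perm [i, k, p])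
    rw [this]
  have h4 : ∀ l, cv (Kp μ ε s [k, l, l]) (fun y => χ y * w y i) z =
      cv (Kp μ ε s [l, k, l]) (fun y => χ y * w y i) z := by
    intro l
    have : Kp μ ε s [k, l, l] = Kp μ ε s [l, k, l] := by
      funext y
      exact Kp_perm hμ hε hs (List.Perm.swap _ _ _) y
    rw [this]
  simp only [h3, h4]
  ring

/-! ## integration in `s` -/

structure HJ (ε : ℝ) (f : ℝ → ℝ) (a : ℝ) : Prop where
  int : IntervalIntegrable f volume ε 1
  val : ∫ s in ε..1, f s = a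

section HJ
variable {ε : ℝ} {f g : ℝ → ℝ} {a b : ℝ}

theorem HJ.add (hf : HJ ε f a) (hg : HJ ε g b) : HJ ε (fun y => f y + g y) (a + b) :=
  ⟨hf.int.add hg.int, by rw [intervalIntegral.integral_add hf.int hg.int, hf.val, hg.val]⟩

theorem HJ.sub (hf : HJ ε f a) (hg : HJ ε g b) : HJ ε (fun y => f y - g y) (a - b) :=
  ⟨hf.int.sub hg.int, by rw [intervalIntegral.integral_sub hf.int hg.int, hf.val, hg.val]⟩

theorem HJ.cmul (hf : HJ ε f a) (c : ℝ) : HJ ε (fun y => c * f y) (c * a) :=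
  ⟨hf.int.const_mul c, by rw [intervalIntegral.integral_const_mul, hf.val]⟩

theorem HJ.sum {ι : Type*} (s : Finset ι) {F : ι → ℝ → ℝ} {A : ι → ℝ}
    (h : ∀ i ∈ s, HJ ε (F i) (A i)) : HJ ε (fun y => ∑ i ∈ s, F i y) (∑ i ∈ s, A i) := by
  refine ⟨?_, ?_⟩
  · have := IntervalIntegrable.sum s (μ := volume) (a := ε) (b := 1) (f := F)
      fun i hi => (h i hi).int
    refine this.congr ?_
    intro x _
    simp
  · rw [intervalIntegral.integral_finsetSum fun i hi => (h i hi).int]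
    exact Finset.sum_congr rfl fun i hi => (h i hi).val

end HJ

/-- the time integrated kernels -/
noncomputable def RR (μ ε : ℝ) (L : List (Fin n)) (z : ST n) : ℝ := ∫ s in ε..1, Kr μ ε s L z
noncomputable def PP (μ ε : ℝ) (L : List (Fin n)) (z : ST n) : ℝ := ∫ s in ε..1, Kp μ ε s L z

theorem RR_cont {μ ε : ℝ} (hμ : 0 < μ) (hε : 0 < ε) (h1 : ε ≤ 1) (L : List (Fin n)) :
    Continuous (RR μ ε L) := JC_cont (JC_Kr hμ hε L) hε h1

theorem PP_cont {μ ε : ℝ} (hμ : 0 < μ) (hε : 0 < ε) (h1 : ε ≤ 1) (L : List (Fin n)) :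
    Continuous (PP μ ε L) := JC_cont (JC_Kp hμ hε L) hε h1

theorem HJ_Kr {μ ε : ℝ} (hμ : 0 < μ) (hε : 0 < ε) (h1 : ε ≤ 1) (L : List (Fin n))
    {S : Set (ST n)} (hS : IsCompact S) {u : ST n → ℝ} (hu : Nice S u) (z : ST n) :
    HJ ε (fun s => cv (Kr μ ε s L) u z) (cv (RR μ ε L) u z) :=
  ⟨(JC_fub (JC_Kr hμ hε L) hε h1 hu.1 hS hu.2 z).1,
    (JC_fub (JC_Kr hμ hε L) hε h1 hu.1 hS hu.2 z).2⟩

theorem HJ_Kp {μ ε : ℝ} (hμ : 0 < μ) (hε : 0 < ε) (h1 : ε ≤ 1) (L : List (Fin n))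
    {S : Set (ST n)} (hS : IsCompact S) {u : ST n → ℝ} (hu : Nice S u) (z : ST n) :
    HJ ε (fun s => cv (Kp μ ε s L) u z) (cv (PP μ ε L) u z) :=
  ⟨(JC_fub (JC_Kp hμ hε L) hε h1 hu.1 hS hu.2 z).1,
    (JC_fub (JC_Kp hμ hε L) hε h1 hu.1 hS hu.2 z).2⟩

theorem rep_id {Ω : Set (Eu n)} {T μ c : ℝ} {χ : ST n → ℝ} (hχ : IsTestST Ω T χ)
    {w : ST n → Eu n} {W : ST n → Mt n} (hv : IsVel Ω T w W) {h : ST n → Eu n}
    (hh : Integrable h) {σ : ST n → Mt n} (hσ : MemLp σ 2 volume) (hV : Vort Ω T μ c W h σ)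
    {ε : ℝ} (hμ : 0 < μ) (hε : 0 < ε) (h1 : ε ≤ 1) (k i : Fin n) (z : ST n) :
    cv (Kp μ ε 1 []) (XX χ w W k i) z - cv (Kp μ ε ε []) (XX χ w W k i) z =
      ∑ j, (cLow χ μ c (om W i j) (fun y => h y i) (fun y => h y j) (sg σ i) (sg σ j) i j [k, j]
          (fun L φ g => cv (RR μ ε L) (fun y => φ y * g y) z) +
        cMain χ c (sg σ i) (sg σ j) i j [k, j]
          (fun L φ g => cv (RR μ ε L) (fun y => φ y * g y) z) +
        cv (PP μ ε [k, j]) (cw χ w i j) z) + cv (PP μ ε [k, i]) (dd χ w) z := by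
  have t0 := TS.refl hχ.smooth
  have cpt := hχ.cpt.isCompact
  have hXn := XX_nice hχ hv k i
  have ho := li_om hv i
  have hhi : ∀ i, LocallyIntegrable (fun y => h y i) := fun i =>
    li_comp le_rfl (memLp_one_iff_integrable.2 hh) i
  have hsg := fun i l => li_sg hσ i l
  -- the left side
  have l1 : cv (Kp μ ε 1 []) (XX χ w W k i) z - cv (Kp μ ε ε []) (XX χ w W k i) z =
      ∑ l, cv (PP μ ε [l, l]) (XX χ w W k i) z := by
    rw [← cv_sum_left Finset.univ fun l _ => hXn.ce cpt (PP_cont hμ hε h1 [l, l]) z,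
      ← cv_sub_left (hXn.ce cpt (Kp_smooth hμ hε one_pos []).continuous z)
        (hXn.ce cpt (Kp_smooth hμ hε hε []).continuous z)]
    congr 1
    funext y
    rw [← Kp_ftc hμ hε h1 y, intervalIntegral.integral_finsetSum]
    · rfl
    · intro l _
      refine ContinuousOn.intervalIntegrable ?_
      rw [uIcc_of_le h1]
      refine ContinuousOn.comp (g := fun q : ℝ × ST n => Kp μ ε q.1 [l, l] q.2)
        (f := fun s : ℝ => (s, y)) (JC_Kp hμ hε [l, l])
        (continuous_id.prodMk continuous_const).continuousOn ?_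
      intro s hs
      exact hε.trans_le hs.1
  have l2 : HJ ε (fun s => ∑ l, cv (Kp μ ε s [l, l]) (XX χ w W k i) z)
      (∑ l, cv (PP μ ε [l, l]) (XX χ w W k i) z) :=
    HJ.sum _ fun l _ => HJ_Kp hμ hε h1 [l, l] cpt hXn z
  -- the right side
  have B : ∀ (L : List (Fin n)) {φ g : ST n → ℝ}, TS χ φ → LocallyIntegrable g →
      HJ ε (fun s => cv (Kr μ ε s L) (fun y => φ y * g y) z)
        (cv (RR μ ε L) (fun y => φ y * g y) z) := fun L φ g h2 h3 =>
    HJ_Kr hμ hε h1 L cpt (h2.nice hχ.cpt h3) z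
  have low : ∀ j, HJ ε (fun s => cLow χ μ c (om W i j) (fun y => h y i) (fun y => h y j)
        (sg σ i) (sg σ j) i j [k, j] (fun L φ g => cv (Kr μ ε s L) (fun y => φ y * g y) z))
      (cLow χ μ c (om W i j) (fun y => h y i) (fun y => h y j) (sg σ i) (sg σ j) i j [k, j]
        (fun L φ g => cv (RR μ ε L) (fun y => φ y * g y) z)) := by
    intro j
    unfold cLow
    exact ((((((B _ (t0.Dc μ) (ho j)).sub
      ((HJ.sum Finset.univ fun l _ => B _ (t0.dx l) (ho j)).cmul (2 * μ))).add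
      (B _ (t0.dx j) (hhi i))).sub (B _ t0 (hhi i))).sub (B _ (t0.dx i) (hhi j))).add
      (B _ t0 (hhi j))).add ((HJ.sum Finset.univ fun l _ =>
        (((((B _ ((t0.dx j).dx l) (hsg i l)).sub (B _ (t0.dx j) (hsg i l))).sub
          (B _ (t0.dx l) (hsg i l))).sub (B _ ((t0.dx i).dx l) (hsg j l))).add
          (B _ (t0.dx i) (hsg j l))).add (B _ (t0.dx l) (hsg j l))).cmul c)
  have main : ∀ j, HJ ε (fun s => cMain χ c (sg σ i) (sg σ j) i j [k, j]
        (fun L φ g => cv (Kr μ ε s L) (fun y => φ y * g y) z))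
      (cMain χ c (sg σ i) (sg σ j) i j [k, j]
        (fun L φ g => cv (RR μ ε L) (fun y => φ y * g y) z)) := by
    intro j
    unfold cMain
    exact (HJ.sum Finset.univ fun l _ => (B _ t0 (hsg i l)).sub (B _ t0 (hsg j l))).cmul c
  have r1 := (HJ.sum Finset.univ fun j (_ : j ∈ Finset.univ) => ((low j).add (main j)).add
    (HJ_Kp hμ hε h1 [k, j] cpt (cw_nice hχ hv i j) z)).add
    (HJ_Kp hμ hε h1 [k, i] cpt (dd_nice hχ hv) z)
  rw [l1, ← l2.val, ← r1.val]
  refine intervalIntegral.integral_congr fun s hs => ?_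
  rw [uIcc_of_le h1] at hs
  have hs0 : 0 < s := hε.trans_le hs.1
  simp only []
  rw [lap_id hχ hv hμ hε hs0 k i z]
  congr 1
  refine Finset.sum_congr rfl fun j _ => ?_
  rw [vort_cv hχ hv hh hσ hV hμ hε hs0 i j [k, j] z]

end Pool.Agent.Helper37.Jef
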