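import Pool.Agent.Helper37.JefCv
import Pool.Agent.Helper37.JefKer

/-! # weak gradient and trace of velocity fields -/

open MeasureTheory Set Filter Topology
open scoped ENNReal ContDiff

namespace Pool.Agent.Helper37.Jef
open Pool.Agent.Helper42.Jef
variable {n : ℕ}

theorem dx_slice {ψ : ST n → ℝ} (hψ : ContDiff ℝ ∞ ψ) (t : ℝ) (x : Eu n) (v : Eu n) :
    fderiv ℝ (fun x => ψ (t, x)) x v = fderiv ℝ ψ (t, x) (0, v) := by
  have hd : DifferentiableAt ℝ ψ (t, x) := (hψ.differentiable (by simp)) _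
  have h1 : HasFDerivAt (fun x : Eu n => ψ (t, x))
      ((fderiv ℝ ψ (t, x)).comp (ContinuousLinearMap.inr ℝ ℝ (Eu n))) x :=
    HasFDerivAt.comp (g := ψ) (f := fun x : Eu n => (t, x)) x hd.hasFDerivAt
      (hasFDerivAt_prodMk_right t x)
  rw [h1.fderiv]
  simp

theorem ibp_slice {φ : Eu n → ℝ} (hφ : ContDiff ℝ ∞ φ) (hφc : HasCompactSupport φ)
    {ψ : ST n → ℝ} (hψ : ContDiff ℝ ∞ ψ) (t : ℝ) (j : Fin n) :
    ∫ x, fderiv ℝ φ x (bv j) * ψ (t, x) = -∫ x, φ x * dx j ψ (t, x) := by
  have hψ2 : ContDiff ℝ ∞ (fun x : Eu n => ψ (t, x)) :=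
    hψ.comp (contDiff_const.prodMk contDiff_id)
  have c1 : Continuous φ := hφ.continuous
  have c2 : Continuous (fun x : Eu n => ψ (t, x)) := hψ2.continuous
  have c3 : Continuous (fun x => fderiv ℝ φ x (bv j)) :=
    (hφ.continuous_fderiv (by simp)).clm_apply continuous_const
  have c4 : Continuous (fun x => fderiv ℝ (fun x : Eu n => ψ (t, x)) x (bv j)) :=
    (hψ2.continuous_fderiv (by simp)).clm_apply continuous_const
  have s3 : HasCompactSupport (fun x => fderiv ℝ φ x (bv j)) := hφc.fderiv_apply ℝ (bv j)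
  have h := integral_mul_fderiv_eq_neg_fderiv_mul_of_integrable (μ := (volume : Measure (Eu n)))
    (f := φ) (g := fun x : Eu n => ψ (t, x)) (v := bv j)
    ((c3.mul c2).integrable_of_hasCompactSupport s3.mul_right)
    ((c1.mul c4).integrable_of_hasCompactSupport hφc.mul_right)
    ((c1.mul c2).integrable_of_hasCompactSupport hφc.mul_right)
    (fun x _ => (hφ.differentiable (by simp)) x) (fun x _ => (hψ2.differentiable (by simp)) x)
  have e : ∀ x, fderiv ℝ (fun x : Eu n => ψ (t, x)) x (bv j) = dx j ψ (t, x) := fun x =>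
    dx_slice hψ t x (bv j)
  simp only [e] at h
  rw [h, neg_neg]

theorem intg_term {c : ℝ → ℝ} (hc : Measurable c) (hb : ∃ C : ℝ, ∀ t, |c t| ≤ C)
    {g : ST n → ℝ} (hg : Continuous g) (hgc : HasCompactSupport g) :
    Integrable (fun z => c z.1 * g z) := by
  obtain ⟨C, hC⟩ := hb
  refine (hg.integrable_of_hasCompactSupport hgc).bdd_mul
    (hc.comp measurable_fst).aestronglyMeasurable (c := C) ?_
  exact Eventually.of_forall fun z => hC z.1

theorem comp_smooth {φ : Eu n → Eu n} (hφ : ContDiff ℝ ∞ φ) (i : Fin n) :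
    ContDiff ℝ ∞ (fun x => φ x i) := by
  have h : ContDiff ℝ ∞ (fun v : Eu n => v i) := (EuclideanSpace.proj i : Eu n →L[ℝ] ℝ).contDiff
  exact h.comp hφ

theorem comp_fderiv {φ : Eu n → Eu n} (hφ : ContDiff ℝ ∞ φ) (i : Fin n) (x v : Eu n) :
    fderiv ℝ (fun x => φ x i) x v = (fderiv ℝ φ x v) i := by
  have h : HasFDerivAt φ (fderiv ℝ φ x) x := ((hφ.differentiable (by simp)) x).hasFDerivAt
  have h2 := (EuclideanSpace.proj i : Eu n →L[ℝ] ℝ).hasFDerivAt.comp x h
  have e : fderiv ℝ (fun x => φ x i) x = _ := h2.fderiv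
  rw [e]
  simp

theorem elem_term {c : ℝ → ℝ} (hc : Measurable c) (hb : ∃ C : ℝ, ∀ t, |c t| ≤ C)
    {Ω : Set (Eu n)} {φ : Eu n → Eu n} (hφ : IsVT Ω φ) {ψ : ST n → ℝ} (hψ : ContDiff ℝ ∞ ψ)
    (hψc : HasCompactSupport ψ) (i j : Fin n) :
    Integrable (fun z : ST n => c z.1 * (grad φ z.2 (i, j) * ψ z)) ∧
    Integrable (fun z : ST n => c z.1 * (φ z.2 i * dx j ψ z)) ∧
    ∫ z : ST n, c z.1 * (grad φ z.2 (i, j) * ψ z) =
      -∫ z : ST n, c z.1 * (φ z.2 i * dx j ψ z) := by
  have hφi := comp_smooth hφ.smooth i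
  have hφc : HasCompactSupport (fun x => φ x i) :=
    hφ.cpt.comp_left (g := fun v : Eu n => v i) rfl
  have e1 : ∀ x, grad φ x (i, j) = fderiv ℝ (fun x => φ x i) x (bv j) := fun x => by
    rw [comp_fderiv hφ.smooth]
    rfl
  have c1 : Continuous (fun z : ST n => grad φ z.2 (i, j)) := by
    simp only [e1]
    have : Continuous (fun x => fderiv ℝ (fun x => φ x i) x (bv j)) :=
      (hφi.continuous_fderiv (by simp)).clm_apply continuous_const
    exact this.comp continuous_snd
  have c2 : Continuous (fun z : ST n => φ z.2 i) := hφi.continuous.comp continuous_snd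
  have c3 : Continuous (dx j ψ) := (hψ.continuous_fderiv (by simp)).clm_apply continuous_const
  have s3 : HasCompactSupport (dx j ψ) := hψc.fderiv_apply ℝ (0, bv j)
  have I1 := intg_term hc hb (c1.mul hψ.continuous) hψc.mul_left
  have I2 := intg_term hc hb (c2.mul c3) s3.mul_left
  refine ⟨I1, I2, ?_⟩
  have J1 := I1
  have J2 := I2
  rw [Measure.volume_eq_prod] at J1 J2 ⊢
  have E1 := integral_prod _ J1
  have E2 := integral_prod _ J2
  simp only [Pi.mul_apply] at E1 E2
  rw [E1, E2, ← integral_neg]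
  refine integral_congr_ae (Eventually.of_forall fun t => ?_)
  simp only []
  rw [integral_const_mul, integral_const_mul]
  have h := ibp_slice hφi hφc hψ t j
  simp only [← e1] at h
  rw [h]
  ring

theorem elem_weak {Ω : Set (Eu n)} {T : ℝ} {v : ST n → Eu n} {G : ST n → Mt n}
    (h : IsElem Ω T v G) {ψ : ST n → ℝ} (hψ : ContDiff ℝ ∞ ψ)
    (hψc : HasCompactSupport ψ) (i j : Fin n) :
    ∫ z, G z (i, j) * ψ z = -∫ z, v z i * dx j ψ z := by
  obtain ⟨N, c, φ, hm, hb, -, hφ, hv, hG⟩ := h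
  have e1 : ∀ z, G z (i, j) * ψ z = ∑ a, c a z.1 * (grad (φ a) z.2 (i, j) * ψ z) := by
    intro z
    rw [hG z]
    simp only [WithLp.ofLp_sum, Finset.sum_apply, smul_eq_mul,
      WithLp.ofLp_smul, Pi.smul_apply]
    rw [Finset.sum_mul]
    exact Finset.sum_congr rfl fun a _ => by ring
  have e2 : ∀ z, v z i * dx j ψ z = ∑ a, c a z.1 * (φ a z.2 i * dx j ψ z) := by
    intro z
    rw [hv z]
    simp only [WithLp.ofLp_sum, Finset.sum_apply, smul_eq_mul,
      WithLp.ofLp_smul, Pi.smul_apply]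
    rw [Finset.sum_mul]
    exact Finset.sum_congr rfl fun a _ => by ring
  simp only [e1, e2]
  rw [integral_finsetSum _ fun a _ => (elem_term (hm a) (hb a) (hφ a) hψ hψc i j).1,
    integral_finsetSum _ fun a _ => (elem_term (hm a) (hb a) (hφ a) hψ hψc i j).2.1,
    ← Finset.sum_neg_distrib]
  exact Finset.sum_congr rfl fun a _ => (elem_term (hm a) (hb a) (hφ a) hψ hψc i j).2.2

theorem elem_trace {Ω : Set (Eu n)} {T : ℝ} {v : ST n → Eu n} {G : ST n → Mt n}
    (h : IsElem Ω T v G) (z : ST n) : ∑ i, G z (i, i) = 0 := by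
  obtain ⟨N, c, φ, hm, hb, -, hφ, hv, hG⟩ := h
  rw [hG z]
  simp only [WithLp.ofLp_sum, Finset.sum_apply, smul_eq_mul,
      WithLp.ofLp_smul, Pi.smul_apply]
  rw [Finset.sum_comm]
  refine Finset.sum_eq_zero fun a _ => ?_
  rw [← Finset.mul_sum]
  have := (hφ a).div0 z.2
  unfold dvg at this
  have e : ∀ i, grad (φ a) z.2 (i, i) = (fderiv ℝ (φ a) z.2 (bv i)) i := fun i => rfl
  simp only [e, this, mul_zero]

theorem grad_cont {φ : Eu n → Eu n} (hφ : ContDiff ℝ ∞ φ) : Continuous (grad φ) := by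
  unfold grad
  refine (PiLp.continuous_toLp 2 _).comp (continuous_pi fun p => ?_)
  have h : Continuous (fun x => fderiv ℝ φ x (bv p.2)) :=
    (hφ.continuous_fderiv (by simp)).clm_apply continuous_const
  exact (EuclideanSpace.proj p.1 : Eu n →L[ℝ] ℝ).continuous.comp h

theorem elem_meas {Ω : Set (Eu n)} {T : ℝ} {v : ST n → Eu n} {G : ST n → Mt n}
    (h : IsElem Ω T v G) : Measurable v ∧ Measurable G := by
  obtain ⟨N, c, φ, hm, hb, -, hφ, hv, hG⟩ := h
  constructor
  · rw [funext hv]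
    refine Finset.measurable_fun_sum _ fun a _ => ?_
    exact ((hm a).comp measurable_fst).smul ((hφ a).smooth.continuous.measurable.comp measurable_snd)
  · rw [funext hG]
    refine Finset.measurable_fun_sum _ fun a _ => ?_
    exact ((hm a).comp measurable_fst).smul
      ((grad_cont (hφ a).smooth).measurable.comp measurable_snd)

theorem holder2 {f g : ST n → ℝ} (hf : AEStronglyMeasurable f volume)
    (hg : AEStronglyMeasurable g volume) :
    ‖∫ z, f z * g z‖ₑ ≤ eLpNorm f 2 volume * eLpNorm g 2 volume := by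
  refine (enorm_integral_le_lintegral_enorm _).trans ?_
  simp only [enorm_mul]
  have h := ENNReal.lintegral_mul_le_Lp_mul_Lq volume (p := 2) (q := 2)
    (by constructor <;> norm_num) hf.enorm hg.enorm
  rw [eLpNorm_eq_lintegral_rpow_enorm_toReal (by norm_num) (by norm_num),
    eLpNorm_eq_lintegral_rpow_enorm_toReal (by norm_num) (by norm_num)]
  simpa using h

theorem int_mul2 {f g : ST n → ℝ} (hf : MemLp f 2 volume) (hg : MemLp g 2 volume) :
    Integrable (fun z => f z * g z) := hf.integrable_mul hg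

theorem memLp_comp {ι : Type*} [Fintype ι] {u : ST n → EuclideanSpace ℝ ι} {q : ℝ≥0∞}
    (hu : MemLp u q volume) (i : ι) : MemLp (fun z => u z i) q volume :=
  (EuclideanSpace.proj i : EuclideanSpace ℝ ι →L[ℝ] ℝ).comp_memLp' hu

theorem aesm_comp {ι : Type*} [Fintype ι] {u : ST n → EuclideanSpace ℝ ι}
    (hu : AEStronglyMeasurable u volume) (i : ι) :
    AEStronglyMeasurable (fun z => u z i) volume :=
  (EuclideanSpace.proj i : EuclideanSpace ℝ ι →L[ℝ] ℝ).continuous.comp_aestronglyMeasurable hu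

theorem abs_comp_le {ι : Type*} [Fintype ι] (v : EuclideanSpace ℝ ι) (i : ι) : |v i| ≤ ‖v‖ := by
  have := PiLp.norm_apply_le v i
  simpa using this

theorem eL_comp_le {ι : Type*} [Fintype ι] (u : ST n → EuclideanSpace ℝ ι) (q : ℝ≥0∞) (i : ι) :
    eLpNorm (fun z => u z i) q volume ≤ eLpNorm u q volume := by
  refine eLpNorm_mono fun z => ?_
  exact abs_comp_le (u z) i

theorem vel_weak {Ω : Set (Eu n)} {T : ℝ} {v : ST n → Eu n} {G : ST n → Mt n}
    (h : IsVel Ω T v G) {ψ : ST n → ℝ} (hψ : ContDiff ℝ ∞ ψ)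
    (hψc : HasCompactSupport ψ) (i j : Fin n) :
    ∫ z, G z (i, j) * ψ z = -∫ z, v z i * dx j ψ z := by
  have c3 : Continuous (dx j ψ) := (hψ.continuous_fderiv (by simp)).clm_apply continuous_const
  have s3 : HasCompactSupport (dx j ψ) := hψc.fderiv_apply ℝ (0, bv j)
  have m1 : MemLp ψ 2 volume := hψ.continuous.memLp_of_hasCompactSupport hψc
  have m2 : MemLp (dx j ψ) 2 volume := c3.memLp_of_hasCompactSupport s3
  set K : ℝ≥0∞ := eLpNorm ψ 2 volume + eLpNorm (dx j ψ) 2 volume with hK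
  have hKt : K ≠ ⊤ := ENNReal.add_ne_top.2 ⟨m1.eLpNorm_ne_top, m2.eLpNorm_ne_top⟩
  have key : ∀ ε : ℝ, 0 < ε → |(∫ z, G z (i, j) * ψ z) + ∫ z, v z i * dx j ψ z| ≤ ε * K.toReal := by
    intro ε hε
    obtain ⟨v', G', he, h1, h2⟩ := h.approx ε hε
    obtain ⟨mv, mG⟩ := elem_meas he
    have hE := elem_weak he hψ hψc i j
    obtain ⟨N, c, φ, hm, hb, -, hφ, hv, hG⟩ := id he
    have Dv : AEStronglyMeasurable (v - v') volume :=
      h.memv.aestronglyMeasurable.sub mv.aestronglyMeasurable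
    have DG : AEStronglyMeasurable (G - G') volume :=
      h.memG.aestronglyMeasurable.sub mG.aestronglyMeasurable
    have Mv : MemLp (v - v') 2 volume := ⟨Dv, h1.trans_lt ENNReal.ofReal_lt_top⟩
    have MG : MemLp (G - G') 2 volume := ⟨DG, h2.trans_lt ENNReal.ofReal_lt_top⟩
    have Mv' : MemLp v' 2 volume := by
      have := h.memv.sub Mv
      rwa [sub_sub_cancel] at this
    have MG' : MemLp G' 2 volume := by
      have := h.memG.sub MG
      rwa [sub_sub_cancel] at this
    have a1 : ∫ z, (G - G') z (i, j) * ψ z = (∫ z, G z (i, j) * ψ z) - ∫ z, G' z (i, j) * ψ z := by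
      rw [← integral_sub (int_mul2 (memLp_comp h.memG (i, j)) m1)
        (int_mul2 (memLp_comp MG' (i, j)) m1)]
      refine integral_congr_ae (Eventually.of_forall fun z => ?_)
      simp only [Pi.sub_apply, PiLp.sub_apply]
      ring
    have a2 : ∫ z, (v - v') z i * dx j ψ z = (∫ z, v z i * dx j ψ z) - ∫ z, v' z i * dx j ψ z := by
      rw [← integral_sub (int_mul2 (memLp_comp h.memv i) m2)
        (int_mul2 (memLp_comp Mv' i) m2)]
      refine integral_congr_ae (Eventually.of_forall fun z => ?_)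
      simp only [Pi.sub_apply, PiLp.sub_apply]
      ring
    have a3 : (∫ z, G z (i, j) * ψ z) + ∫ z, v z i * dx j ψ z =
        (∫ z, (G - G') z (i, j) * ψ z) + ∫ z, (v - v') z i * dx j ψ z := by
      rw [a1, a2, hE]
      ring
    have b1 : ‖∫ z, (G - G') z (i, j) * ψ z‖ₑ ≤ ENNReal.ofReal ε * eLpNorm ψ 2 volume :=
      (holder2 (aesm_comp DG (i, j)) m1.aestronglyMeasurable).trans
        (mul_le_mul_left ((eL_comp_le _ _ _).trans h2) _)
    have b2 : ‖∫ z, (v - v') z i * dx j ψ z‖ₑ ≤ ENNReal.ofReal ε * eLpNorm (dx j ψ) 2 volume :=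
      (holder2 (aesm_comp Dv i) m2.aestronglyMeasurable).trans
        (mul_le_mul_left ((eL_comp_le _ _ _).trans h1) _)
    have b3 : ‖(∫ z, G z (i, j) * ψ z) + ∫ z, v z i * dx j ψ z‖ₑ ≤ ENNReal.ofReal ε * K := by
      rw [a3, hK, mul_add]
      exact (enorm_add_le _ _).trans (add_le_add b1 b2)
    have b4 := ENNReal.toReal_mono (ENNReal.mul_ne_top ENNReal.ofReal_ne_top hKt) b3
    rw [ENNReal.toReal_mul, ENNReal.toReal_ofReal hε.le] at b4
    simpa using b4
  have h0 : |(∫ z, G z (i, j) * ψ z) + ∫ z, v z i * dx j ψ z| ≤ 0 := by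
    refine le_of_forall_pos_le_add fun δ hδ => ?_
    have hK0 : 0 ≤ K.toReal := ENNReal.toReal_nonneg
    have := key (δ / (K.toReal + 1)) (by positivity)
    refine this.trans ?_
    rw [zero_add, div_mul_eq_mul_div, div_le_iff₀ (by positivity)]
    nlinarith
  have h1 := abs_nonpos_iff.1 h0
  linarith

theorem vel_trace {Ω : Set (Eu n)} {T : ℝ} {v : ST n → Eu n} {G : ST n → Mt n}
    (h : IsVel Ω T v G) : ∀ᵐ z, ∑ i, G z (i, i) = 0 := by
  have hm : AEStronglyMeasurable (fun z => ∑ i, G z (i, i)) volume := by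
    have := Finset.aestronglyMeasurable_fun_sum (μ := volume) (Finset.univ : Finset (Fin n))
      (f := fun i z => G z (i, i)) fun i _ => aesm_comp h.memG.aestronglyMeasurable (i, i)
    exact this
  have key : ∀ ε : ℝ, 0 < ε → eLpNorm (fun z => ∑ i, G z (i, i)) 2 volume ≤
      n * ENNReal.ofReal ε := by
    intro ε hε
    obtain ⟨v', G', he, h1, h2⟩ := h.approx ε hε
    obtain ⟨mv, mG⟩ := elem_meas he
    have DG : AEStronglyMeasurable (G - G') volume :=
      h.memG.aestronglyMeasurable.sub mG.aestronglyMeasurable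
    have e : (fun z => ∑ i, G z (i, i)) = ∑ i : Fin n, fun z => (G - G') z (i, i) := by
      funext z
      have := elem_trace he z
      simp only [Finset.sum_apply, Pi.sub_apply, PiLp.sub_apply, Finset.sum_sub_distrib, this,
        sub_zero]
    rw [e]
    refine (eLpNorm_sum_le (fun i _ => aesm_comp DG (i, i)) (by norm_num)).trans ?_
    refine (Finset.sum_le_card_nsmul _ _ (ENNReal.ofReal ε)
      fun i _ => (eL_comp_le _ _ _).trans h2).trans ?_
    simp
  have h0 : eLpNorm (fun z => ∑ i, G z (i, i)) 2 volume = 0 := by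
    refine le_antisymm (ENNReal.le_of_forall_pos_le_add fun δ hδ _ => ?_) (zero_le)
    have h1 := key (δ / (n + 1)) (by positivity)
    refine h1.trans ?_
    rw [zero_add]
    have e : (n : ℝ≥0∞) = ENNReal.ofReal n := by simp
    rw [e, ← ENNReal.ofReal_mul (by positivity), ← ENNReal.ofReal_coe_nnreal]
    refine ENNReal.ofReal_le_ofReal ?_
    rw [mul_div_assoc', div_le_iff₀ (by positivity)]
    have : (0 : ℝ) < δ := hδ
    nlinarith
  rw [eLpNorm_eq_zero_iff hm (by norm_num)] at h0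
  exact h0

end Pool.Agent.Helper37.Jef
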