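import Pool.Agent.Helper37.JefLow

/-! # the pointwise identities -/

open MeasureTheory Set Filter Topology
open scoped ENNReal ContDiff

namespace Pool.Agent.Helper37.Jef
open Pool.Agent.Helper42.Jef
variable {n : ℕ}

/-! ## smooth weights supported in the support of `χ` -/

structure TS (χ φ : ST n → ℝ) : Prop where
  smooth : ContDiff ℝ ∞ φ
  sub : tsupport φ ⊆ tsupport χ

section TS
variable {χ φ ψ : ST n → ℝ}

theorem TS.zero_out (h : TS χ φ) (y : ST n) (hy : y ∉ tsupport χ) : φ y = 0 :=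
  image_eq_zero_of_notMem_tsupport fun h1 => hy (h.sub h1)

theorem TS.of_zero (hs : ContDiff ℝ ∞ φ) (h : ∀ y, y ∉ tsupport χ → φ y = 0) : TS χ φ := by
  refine ⟨hs, closure_minimal ?_ (isClosed_tsupport χ)⟩
  intro y hy
  by_contra h1
  exact hy (h y h1)

theorem TS.refl (h : ContDiff ℝ ∞ χ) : TS χ χ := ⟨h, Subset.rfl⟩

theorem TS.fd (h : TS χ φ) (v : ST n) : TS χ (fun z => fderiv ℝ φ z v) := by
  have hs : ContDiff ℝ ∞ (fun z => fderiv ℝ φ z v) := by
    have h1 : ContDiff ℝ ∞ (fderiv ℝ φ) := h.smooth.fderiv_right (by simp)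
    exact h1.clm_apply contDiff_const
  exact ⟨hs, (tsupport_fderiv_apply_subset ℝ v).trans h.sub⟩

theorem TS.dx (h : TS χ φ) (i : Fin n) : TS χ (dx i φ) := h.fd _

theorem TS.dt (h : TS χ φ) : TS χ (dt φ) := h.fd _

theorem TS.add (h : TS χ φ) (h' : TS χ ψ) : TS χ (fun y => φ y + ψ y) :=
  TS.of_zero (h.smooth.add h'.smooth) fun y hy => by
    simp only [h.zero_out y hy, h'.zero_out y hy, add_zero]

theorem TS.const_mul (h : TS χ φ) (c : ℝ) : TS χ (fun y => c * φ y) :=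
  TS.of_zero (contDiff_const.mul h.smooth) fun y hy => by
    simp only [h.zero_out y hy, mul_zero]

theorem TS.sum {ι : Type*} (s : Finset ι) {F : ι → ST n → ℝ} (h : ∀ i ∈ s, TS χ (F i)) :
    TS χ (fun y => ∑ i ∈ s, F i y) :=
  TS.of_zero (ContDiff.sum fun i hi => (h i hi).smooth) fun y hy =>
    Finset.sum_eq_zero fun i hi => (h i hi).zero_out y hy

theorem TS.test {Ω : Set (Eu n)} {T : ℝ} (hχ : IsTestST Ω T χ) (h : TS χ φ) : IsTestST Ω T φ :=
  ⟨h.smooth, IsCompact.of_isClosed_subset hχ.cpt.isCompact (isClosed_tsupport φ) h.sub,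
    h.sub.trans hχ.supp⟩

theorem TS.nice (h : TS χ φ) (hχ : HasCompactSupport χ) {g : ST n → ℝ}
    (hg : LocallyIntegrable g) : Nice (tsupport χ) (fun y => φ y * g y) :=
  nice_mul h.smooth.continuous hχ.isCompact h.zero_out (hg.integrableOn_isCompact hχ.isCompact)

end TS

/-- the weight `∂_t χ + μ Δ χ` -/
noncomputable def Dc (μ : ℝ) (χ : ST n → ℝ) (y : ST n) : ℝ := dt χ y + μ * ∑ l, dx l (dx l χ) y

theorem TS.Dc {χ : ST n → ℝ} (h : TS χ χ) (μ : ℝ) : TS χ (Dc μ χ) :=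
  h.dt.add ((TS.sum Finset.univ fun l _ => (h.dx l).dx l).const_mul μ)

/-! ## integrals -/

structure HI (f : ST n → ℝ) (a : ℝ) : Prop where
  int : Integrable f
  val : ∫ y, f y = a

section HI
variable {f g : ST n → ℝ} {a b : ℝ}

theorem HI.add (hf : HI f a) (hg : HI g b) : HI (fun y => f y + g y) (a + b) :=
  ⟨hf.int.add hg.int, by rw [integral_add hf.int hg.int, hf.val, hg.val]⟩

theorem HI.sub (hf : HI f a) (hg : HI g b) : HI (fun y => f y - g y) (a - b) :=
  ⟨hf.int.sub hg.int, by rw [integral_sub hf.int hg.int, hf.val, hg.val]⟩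

theorem HI.neg (hf : HI f a) : HI (fun y => -f y) (-a) :=
  ⟨hf.int.neg, by rw [integral_neg, hf.val]⟩

theorem HI.cmul (hf : HI f a) (c : ℝ) : HI (fun y => c * f y) (c * a) :=
  ⟨hf.int.const_mul c, by rw [integral_const_mul, hf.val]⟩

theorem HI.sum {ι : Type*} (s : Finset ι) {F : ι → ST n → ℝ} {A : ι → ℝ}
    (h : ∀ i ∈ s, HI (F i) (A i)) : HI (fun y => ∑ i ∈ s, F i y) (∑ i ∈ s, A i) :=
  ⟨integrable_finsetSum _ fun i hi => (h i hi).int, by
    rw [integral_finsetSum _ fun i hi => (h i hi).int]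
    exact Finset.sum_congr rfl fun i hi => (h i hi).val⟩

theorem HI.congr (hf : HI f a) (h : ∀ y, g y = f y) : HI g a := by
  have : g = f := funext h
  rw [this]; exact hf

theorem HI.of_nice {S : Set (ST n)} (hS : IsCompact S) {u : ST n → ℝ} (hu : Nice S u)
    {k : ST n → ℝ} (hk : Continuous k) (z : ST n) :
    HI (fun y => k (z - y) * u y) (cv k u z) := ⟨hu.ce hS hk z, rfl⟩

end HI

/-! ## derivatives of reflected kernels and products -/

theorem fd_refl {k : ST n → ℝ} (hk : ContDiff ℝ ∞ k) (z y v : ST n) :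
    fderiv ℝ (fun y => k (z - y)) y v = -fderiv ℝ k (z - y) v := by
  have h1 : HasFDerivAt (fun y : ST n => z - y) (-ContinuousLinearMap.id ℝ (ST n)) y :=
    (hasFDerivAt_id y).const_sub z
  have h2 : HasFDerivAt k (fderiv ℝ k (z - y)) (z - y) :=
    ((hk.differentiable (by simp)) _).hasFDerivAt
  have h3 : fderiv ℝ (fun y => k (z - y)) y = _ := (h2.comp y h1).fderiv
  rw [h3]
  simp

theorem fd_mul {f g : ST n → ℝ} (hf : ContDiff ℝ ∞ f) (hg : ContDiff ℝ ∞ g) (y v : ST n) :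
    fderiv ℝ (fun y => f y * g y) y v = fderiv ℝ f y v * g y + f y * fderiv ℝ g y v := by
  have h1 : HasFDerivAt f (fderiv ℝ f y) y := ((hf.differentiable (by simp)) _).hasFDerivAt
  have h2 : HasFDerivAt g (fderiv ℝ g y) y := ((hg.differentiable (by simp)) _).hasFDerivAt
  have h3 : fderiv ℝ (fun y => f y * g y) y = _ := (h1.mul h2).fderiv
  rw [h3]
  simp only [_root_.add_apply, _root_.smul_apply, smul_eq_mul]
  ring

theorem fd_sub {f g : ST n → ℝ} (hf : ContDiff ℝ ∞ f) (hg : ContDiff ℝ ∞ g) (y v : ST n) :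
    fderiv ℝ (fun y => f y - g y) y v = fderiv ℝ f y v - fderiv ℝ g y v := by
  have h1 : HasFDerivAt f (fderiv ℝ f y) y := ((hf.differentiable (by simp)) _).hasFDerivAt
  have h2 : HasFDerivAt g (fderiv ℝ g y) y := ((hg.differentiable (by simp)) _).hasFDerivAt
  have h3 : fderiv ℝ (fun y => f y - g y) y = _ := (h1.sub h2).fderiv
  rw [h3]
  simp

/-! ## identity (A0) -/

/-- the function `∂_k (χ w_i)` -/
noncomputable def XX (χ : ST n → ℝ) (w : ST n → Eu n) (W : ST n → Mt n) (k i : Fin n)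
    (y : ST n) : ℝ := dx k χ y * w y i + χ y * W y (i, k)

theorem li_comp {ι : Type*} [Fintype ι] {u : ST n → EuclideanSpace ℝ ι} {q : ℝ≥0∞} (hq : 1 ≤ q)
    (hu : MemLp u q volume) (i : ι) : LocallyIntegrable (fun z => u z i) :=
  (memLp_comp hu i).locallyIntegrable hq

theorem li_w {Ω : Set (Eu n)} {T : ℝ} {w : ST n → Eu n} {W : ST n → Mt n} (hv : IsVel Ω T w W)
    (i : Fin n) : LocallyIntegrable (fun z => w z i) := li_comp (by norm_num) hv.memv i

theorem li_W {Ω : Set (Eu n)} {T : ℝ} {w : ST n → Eu n} {W : ST n → Mt n} (hv : IsVel Ω T w W)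
    (p : Fin n × Fin n) : LocallyIntegrable (fun z => W z p) := li_comp (by norm_num) hv.memG p

theorem XX_nice {Ω : Set (Eu n)} {T : ℝ} {χ : ST n → ℝ} (hχ : IsTestST Ω T χ)
    {w : ST n → Eu n} {W : ST n → Mt n} (hv : IsVel Ω T w W) (k i : Fin n) :
    Nice (tsupport χ) (XX χ w W k i) :=
  (((TS.refl hχ.smooth).dx k).nice hχ.cpt (li_w hv i)).add
    ((TS.refl hχ.smooth).nice hχ.cpt (li_W hv (i, k)))

theorem cv_XX {Ω : Set (Eu n)} {T : ℝ} {χ : ST n → ℝ} (hχ : IsTestST Ω T χ)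
    {w : ST n → Eu n} {W : ST n → Mt n} (hv : IsVel Ω T w W) {K K' : ST n → ℝ}
    (hK : ContDiff ℝ ∞ K) (hK' : Continuous K') (k i : Fin n)
    (hKK : ∀ z, fderiv ℝ K z (0, bv k) = K' z) (z : ST n) :
    cv K (XX χ w W k i) z = cv K' (fun y => χ y * w y i) z := by
  have t0 := TS.refl hχ.smooth
  have hq : ContDiff ℝ ∞ (fun y => K (z - y)) := hK.comp (contDiff_const.sub contDiff_id)
  have hψ : ContDiff ℝ ∞ (fun y => χ y * K (z - y)) := hχ.smooth.mul hq
  have hψc : HasCompactSupport (fun y => χ y * K (z - y)) := hχ.cpt.mul_right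
  have h := vel_weak hv hψ hψc i k
  have e1 : ∀ y, dx k (fun y => χ y * K (z - y)) y = dx k χ y * K (z - y) - χ y * K' (z - y) := by
    intro y
    unfold dx
    rw [fd_mul hχ.smooth hq, fd_refl hK, hKK]
    ring
  have c := hχ.cpt.isCompact
  have n1 := HI.of_nice c ((t0.dx k).nice hχ.cpt (li_w hv i)) hK.continuous z
  have n2 := HI.of_nice c (t0.nice hχ.cpt (li_W hv (i, k))) hK.continuous z
  have n3 := HI.of_nice c (t0.nice hχ.cpt (li_w hv i)) hK' z
  have l1 := (n2.congr (g := fun y => W y (i, k) * (χ y * K (z - y))) fun y => by ring).val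
  have l2 := ((n1.sub n3).congr
    (g := fun y => w y i * dx k (fun y => χ y * K (z - y)) y) fun y => by rw [e1 y]; ring).val
  have l3 := ((n1.add n2).congr (g := fun y => K (z - y) * XX χ w W k i y)
    fun y => by unfold XX; ring).val
  rw [l1, l2] at h
  have l4 : cv K (XX χ w W k i) z = _ := l3
  rw [l4, h]
  ring

/-! ## identity (b): the vorticity equation -/

/-- lower order part -/
noncomputable def cLow (χ : ST n → ℝ) (μ c : ℝ) (om hi hj : ST n → ℝ) (si sj : Fin n → ST n → ℝ)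
    (i j : Fin n) (L : List (Fin n)) (E : List (Fin n) → (ST n → ℝ) → (ST n → ℝ) → ℝ) : ℝ :=
  E L (Dc μ χ) om - 2 * μ * ∑ l, E (l :: L) (dx l χ) om
    + E L (dx j χ) hi - E (j :: L) χ hi - E L (dx i χ) hj + E (i :: L) χ hj
    + c * ∑ l, (E L (dx l (dx j χ)) (si l) - E (l :: L) (dx j χ) (si l)
        - E (j :: L) (dx l χ) (si l) - E L (dx l (dx i χ)) (sj l)
        + E (l :: L) (dx i χ) (sj l) + E (i :: L) (dx l χ) (sj l))

/-- main part -/
noncomputable def cMain (χ : ST n → ℝ) (c : ℝ) (si sj : Fin n → ST n → ℝ)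
    (i j : Fin n) (L : List (Fin n)) (E : List (Fin n) → (ST n → ℝ) → (ST n → ℝ) → ℝ) : ℝ :=
  c * ∑ l, (E (l :: j :: L) χ (si l) - E (l :: i :: L) χ (sj l))

/-- entries of the vorticity and of the symmetrized stress -/
noncomputable def om (W : ST n → Mt n) (i j : Fin n) (y : ST n) : ℝ := W y (i, j) - W y (j, i)
noncomputable def sg (σ : ST n → Mt n) (i l : Fin n) (y : ST n) : ℝ := sy (σ y) (l, i)

theorem sg_eq (σ : ST n → Mt n) (i l : Fin n) (y : ST n) :
    sg σ i l y = 1 / 2 * (σ y (l, i) + σ y (i, l)) := by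
  simp [sg, sy, tr]
  ring

theorem li_om {Ω : Set (Eu n)} {T : ℝ} {w : ST n → Eu n} {W : ST n → Mt n} (hv : IsVel Ω T w W)
    (i j : Fin n) : LocallyIntegrable (om W i j) := (li_W hv (i, j)).sub (li_W hv (j, i))

theorem li_sg {σ : ST n → Mt n} (hσ : MemLp σ 2 volume) (i l : Fin n) :
    LocallyIntegrable (sg σ i l) := by
  have h := (((memLp_comp hσ (l, i)).add (memLp_comp hσ (i, l))).const_mul
    (1 / 2 : ℝ)).locallyIntegrable (by norm_num)
  have e : sg σ i l = fun y => 1 / 2 * ((fun z => σ z (l, i)) + fun z => σ z (i, l)) y :=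
    funext fun y => sg_eq σ i l y
  rw [e]
  exact h

/-- the vorticity equation, tested -/
def Vort (Ω : Set (Eu n)) (T μ c : ℝ) (W : ST n → Mt n) (h : ST n → Eu n) (σ : ST n → Mt n) :
    Prop := ∀ i j : Fin n, ∀ ψ, IsTestST Ω T ψ →
      ∫ z, (W z (i, j) - W z (j, i)) * (dt ψ z + μ * ∑ l, dx l (dx l ψ) z) =
      ∫ z, (-(h z i * dx j ψ z) + h z j * dx i ψ z - c * ∑ l,
        (sy (σ z) (l, i) * dx l (dx j ψ) z - sy (σ z) (l, j) * dx l (dx i ψ) z))

theorem vort_cv {Ω : Set (Eu n)} {T μ c : ℝ} {χ : ST n → ℝ} (hχ : IsTestST Ω T χ)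
    {w : ST n → Eu n} {W : ST n → Mt n} (hv : IsVel Ω T w W) {h : ST n → Eu n}
    (hh : Integrable h) {σ : ST n → Mt n} (hσ : MemLp σ 2 volume) (hV : Vort Ω T μ c W h σ)
    {ε s : ℝ} (hμ : 0 < μ) (hε : 0 < ε) (hs : 0 < s) (i j : Fin n) (L : List (Fin n))
    (z : ST n) :
    cv (Kp μ ε s L) (fun y => χ y * om W i j y) z =
      cLow χ μ c (om W i j) (fun y => h y i) (fun y => h y j) (sg σ i) (sg σ j) i j L
        (fun L φ g => cv (Kr μ ε s L) (fun y => φ y * g y) z) +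
      cMain χ c (sg σ i) (sg σ j) i j L
        (fun L φ g => cv (Kr μ ε s L) (fun y => φ y * g y) z) := by
  have t0 := TS.refl hχ.smooth
  have cpt := hχ.cpt.isCompact
  have hKs : ∀ L : List (Fin n), ContDiff ℝ ∞ (Kr μ ε s L) := fun L => Kr_smooth hμ hε hs L
  set q : List (Fin n) → ST n → ℝ := fun L y => Kr μ ε s L (z - y) with hq
  have hqs : ∀ L, ContDiff ℝ ∞ (q L) := fun L => (hKs L).comp (contDiff_const.sub contDiff_id)
  have hqx : ∀ L i y, fderiv ℝ (q L) y (0, bv i) = -q (i :: L) y := fun L i y => by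
    simp only [hq]
    rw [fd_refl (hKs L), Kr_deriv_x hμ hε hs]
  have hqt : ∀ L y, fderiv ℝ (q L) y (1, 0) =
      -(Kp μ ε s L (z - y) + μ * ∑ i, q (i :: i :: L) y) := fun L y => by
    simp only [hq]
    rw [fd_refl (hKs L), Kr_deriv_t hμ hε hs]
  set ψ : ST n → ℝ := fun y => χ y * q L y with hψ
  have hψt : IsTestST Ω T ψ :=
    ⟨hχ.smooth.mul (hqs L), hχ.cpt.mul_right, tsupport_mul_subset_left.trans hχ.supp⟩
  have d1 : ∀ i, dx i ψ = fun y => dx i χ y * q L y - χ y * q (i :: L) y := by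
    intro i
    funext y
    change fderiv ℝ (fun y => χ y * q L y) y (0, bv i) = _
    rw [fd_mul hχ.smooth (hqs L), hqx]
    unfold dx
    ring
  have dxs : ∀ i, ContDiff ℝ ∞ (dx i χ) := fun i => (t0.dx i).smooth
  have d2 : ∀ l i y, dx l (dx i ψ) y = dx l (dx i χ) y * q L y - dx i χ y * q (l :: L) y -
      dx l χ y * q (i :: L) y + χ y * q (l :: i :: L) y := by
    intro l i y
    rw [d1 i]
    change fderiv ℝ (fun y => dx i χ y * q L y - χ y * q (i :: L) y) y (0, bv l) = _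
    rw [fd_sub ((dxs i).mul (hqs L)) (hχ.smooth.mul (hqs (i :: L))),
      fd_mul (dxs i) (hqs L), fd_mul hχ.smooth (hqs (i :: L)), hqx, hqx]
    change dx l (dx i χ) y * q L y + dx i χ y * -q (l :: L) y -
      (dx l χ y * q (i :: L) y + χ y * -q (l :: i :: L) y) = _
    ring
  have d3 : ∀ y, dt ψ y = dt χ y * q L y -
      χ y * (Kp μ ε s L (z - y) + μ * ∑ i, q (i :: i :: L) y) := by
    intro y
    change fderiv ℝ (fun y => χ y * q L y) y (1, 0) = _
    rw [fd_mul hχ.smooth (hqs L), hqt]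
    unfold dt
    ring
  have hVV := hV i j ψ hψt
  -- abbreviations
  set E : List (Fin n) → (ST n → ℝ) → (ST n → ℝ) → ℝ :=
    fun L φ g => cv (Kr μ ε s L) (fun y => φ y * g y) z with hE
  have B : ∀ (L : List (Fin n)) {φ g : ST n → ℝ}, TS χ φ → LocallyIntegrable g →
      HI (fun y => q L y * (φ y * g y)) (E L φ g) := fun L φ g h1 h2 =>
    HI.of_nice cpt (h1.nice hχ.cpt h2) (hKs L).continuous z
  have ho := li_om hv i j
  have hhi : ∀ i, LocallyIntegrable (fun y => h y i) := fun i =>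
    li_comp le_rfl (memLp_one_iff_integrable.2 hh) i
  have hsg := fun i l => li_sg hσ i l
  have hKpB : HI (fun y => Kp μ ε s L (z - y) * (χ y * om W i j y))
      (cv (Kp μ ε s L) (fun y => χ y * om W i j y) z) :=
    HI.of_nice cpt (t0.nice hχ.cpt ho) (Kp_smooth hμ hε hs L).continuous z
  -- left side
  have left : HI (fun y => (W y (i, j) - W y (j, i)) * (dt ψ y + μ * ∑ l, dx l (dx l ψ) y))
      (E L (Dc μ χ) (om W i j) - 2 * μ * ∑ l, E (l :: L) (dx l χ) (om W i j) -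
        cv (Kp μ ε s L) (fun y => χ y * om W i j y) z) := by
    refine HI.congr (((B L (t0.Dc μ) ho).sub ((HI.sum Finset.univ fun l _ =>
      B (l :: L) (t0.dx l) ho).cmul (2 * μ))).sub hKpB) fun y => ?_
    have e1 : ∑ l, dx l (dx l ψ) y = (∑ l, dx l (dx l χ) y) * q L y -
        2 * (∑ l, dx l χ y * q (l :: L) y) + χ y * ∑ l, q (l :: l :: L) y := by
      rw [Finset.sum_mul, Finset.mul_sum, Finset.mul_sum, ← Finset.sum_sub_distrib,
        ← Finset.sum_add_distrib]
      refine Finset.sum_congr rfl fun l _ => ?_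
      rw [d2 l l y]
      ring
    have e2 : ∑ l, q (l :: L) y * (dx l χ y * om W i j y) =
        (∑ l, dx l χ y * q (l :: L) y) * om W i j y := by
      rw [Finset.sum_mul]
      refine Finset.sum_congr rfl fun l _ => ?_
      ring
    rw [e1, d3 y, e2]
    unfold Dc om
    ring
  have right : HI (fun y => (-(h y i * dx j ψ y) + h y j * dx i ψ y - c * ∑ l,
        (sy (σ y) (l, i) * dx l (dx j ψ) y - sy (σ y) (l, j) * dx l (dx i ψ) y)))
      ((E (j :: L) χ (fun y => h y i) - E L (dx j χ) (fun y => h y i)) +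
       (E L (dx i χ) (fun y => h y j) - E (i :: L) χ (fun y => h y j)) -
       c * ∑ l, ((E L (dx l (dx j χ)) (sg σ i l) - E (l :: L) (dx j χ) (sg σ i l)
          - E (j :: L) (dx l χ) (sg σ i l) + E (l :: j :: L) χ (sg σ i l)) -
          (E L (dx l (dx i χ)) (sg σ j l) - E (l :: L) (dx i χ) (sg σ j l)
          - E (i :: L) (dx l χ) (sg σ j l) + E (l :: i :: L) χ (sg σ j l)))) := by
    refine HI.congr (((((B (j :: L) t0 (hhi i)).sub (B L (t0.dx j) (hhi i)))).add
      ((B L (t0.dx i) (hhi j)).sub (B (i :: L) t0 (hhi j)))).sub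
      ((HI.sum Finset.univ fun l _ => ((((B L ((t0.dx j).dx l) (hsg i l)).sub
        (B (l :: L) (t0.dx j) (hsg i l))).sub (B (j :: L) (t0.dx l) (hsg i l))).add
        (B (l :: j :: L) t0 (hsg i l))).sub ((((B L ((t0.dx i).dx l) (hsg j l)).sub
        (B (l :: L) (t0.dx i) (hsg j l))).sub (B (i :: L) (t0.dx l) (hsg j l))).add
        (B (l :: i :: L) t0 (hsg j l)))).cmul c)) fun y => ?_
    have e1 : dx j ψ y = dx j χ y * q L y - χ y * q (j :: L) y := congrFun (d1 j) y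
    have e2 : dx i ψ y = dx i χ y * q L y - χ y * q (i :: L) y := congrFun (d1 i) y
    have e3 : ∑ l, (sy (σ y) (l, i) * dx l (dx j ψ) y - sy (σ y) (l, j) * dx l (dx i ψ) y) =
        ∑ l, (q L y * (dx l (dx j χ) y * sg σ i l y) - q (l :: L) y * (dx j χ y * sg σ i l y) -
          q (j :: L) y * (dx l χ y * sg σ i l y) + q (l :: j :: L) y * (χ y * sg σ i l y) -
          (q L y * (dx l (dx i χ) y * sg σ j l y) - q (l :: L) y * (dx i χ y * sg σ j l y) -
          q (i :: L) y * (dx l χ y * sg σ j l y) + q (l :: i :: L) y * (χ y * sg σ j l y))) := by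
      refine Finset.sum_congr rfl fun l _ => ?_
      rw [d2 l j y, d2 l i y]
      unfold sg
      ring
    rw [e1, e2, e3]
    ring
  rw [left.val, right.val] at hVV
  have e4 : cv (Kp μ ε s L) (fun y => χ y * om W i j y) z =
    E L (Dc μ χ) (om W i j) - 2 * μ * ∑ l, E (l :: L) (dx l χ) (om W i j) -
     ((E (j :: L) χ (fun y => h y i) - E L (dx j χ) (fun y => h y i)) +
       (E L (dx i χ) (fun y => h y j) - E (i :: L) χ (fun y => h y j)) -
       c * ∑ l, ((E L (dx l (dx j χ)) (sg σ i l) - E (l :: L) (dx j χ) (sg σ i l)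
          - E (j :: L) (dx l χ) (sg σ i l) + E (l :: j :: L) χ (sg σ i l)) -
          (E L (dx l (dx i χ)) (sg σ j l) - E (l :: L) (dx i χ) (sg σ j l)
          - E (i :: L) (dx l χ) (sg σ j l) + E (l :: i :: L) χ (sg σ j l)))) := by
    linarith
  rw [e4]
  unfold cLow cMain
  have e5 : ∑ l, ((E L (dx l (dx j χ)) (sg σ i l) - E (l :: L) (dx j χ) (sg σ i l)
          - E (j :: L) (dx l χ) (sg σ i l) + E (l :: j :: L) χ (sg σ i l)) -
          (E L (dx l (dx i χ)) (sg σ j l) - E (l :: L) (dx i χ) (sg σ j l)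
          - E (i :: L) (dx l χ) (sg σ j l) + E (l :: i :: L) χ (sg σ j l))) =
      ∑ l, (E L (dx l (dx j χ)) (sg σ i l) - E (l :: L) (dx j χ) (sg σ i l)
        - E (j :: L) (dx l χ) (sg σ i l) - E L (dx l (dx i χ)) (sg σ j l)
        + E (l :: L) (dx i χ) (sg σ j l) + E (i :: L) (dx l χ) (sg σ j l)) +
      ∑ l, (E (l :: j :: L) χ (sg σ i l) - E (l :: i :: L) χ (sg σ j l)) := by
    rw [← Finset.sum_add_distrib]
    refine Finset.sum_congr rfl fun l _ => ?_
    ring
  rw [e5]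
  ring

end Pool.Agent.Helper37.Jef
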