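import Pool.Agent.Helper37.JefCv
import Pool.Agent.Helper37.JefKer

/-! # integration of the kernels in the parameter `s` -/

open MeasureTheory Set Filter Topology
open scoped ENNReal ContDiff

namespace Pool.Agent.Helper37.Jef
open Pool.Agent.Helper42.Jef
variable {n : ℕ}

/-- jointly continuous family on positive parameters -/
def JC (k : ℝ → ST n → ℝ) : Prop := ContinuousOn (fun q : ℝ × ST n => k q.1 q.2) {q | 0 < q.1}

theorem JC_ext {k : ℝ → ST n → ℝ} (hk : JC k) {ε : ℝ} (hε : 0 < ε) :
    Continuous (fun q : ℝ × ST n => k (max q.1 ε) q.2) := by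
  refine ContinuousOn.comp_continuous (g := fun q : ℝ × ST n => k q.1 q.2)
    (f := fun q : ℝ × ST n => (max q.1 ε, q.2)) hk ?_ ?_
  · exact (continuous_fst.max continuous_const).prodMk continuous_snd
  · intro q
    exact lt_max_of_lt_right hε

theorem JC_int_eq {k : ℝ → ST n → ℝ} {ε : ℝ} (h1 : ε ≤ 1) (z : ST n) :
    ∫ s in ε..1, k s z = ∫ s in ε..1, k (max s ε) z := by
  refine intervalIntegral.integral_congr fun s hs => ?_
  rw [uIcc_of_le h1] at hs
  rw [max_eq_left hs.1]

theorem JC_cont {k : ℝ → ST n → ℝ} (hk : JC k) {ε : ℝ} (hε : 0 < ε) (h1 : ε ≤ 1) :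
    Continuous (fun z => ∫ s in ε..1, k s z) := by
  have e : (fun z => ∫ s in ε..1, k s z) = fun z => ∫ s in ε..1, k (max s ε) z :=
    funext fun z => JC_int_eq h1 z
  rw [e]
  refine intervalIntegral.continuous_parametric_intervalIntegral_of_continuous'
    (f := fun (z : ST n) (s : ℝ) => k (max s ε) z) ?_ ε 1
  have h := (JC_ext hk hε).comp (continuous_snd.prodMk continuous_fst :
    Continuous (fun p : ST n × ℝ => (p.2, p.1)))
  exact h

theorem JC_fix {k : ℝ → ST n → ℝ} (hk : JC k) {s : ℝ} (hs : 0 < s) : Continuous (k s) := by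
  have h := (JC_ext hk hs).comp (continuous_const.prodMk continuous_id :
    Continuous (fun z : ST n => (s, z)))
  have e : ((fun q : ℝ × ST n => k (max q.1 s) q.2) ∘ fun z : ST n => (s, z)) = k s := by
    funext z
    simp
  rwa [e] at h

/-- Fubini for the parameter -/
theorem JC_fub {k : ℝ → ST n → ℝ} (hk : JC k) {ε : ℝ} (hε : 0 < ε) (h1 : ε ≤ 1)
    {u : ST n → ℝ} (hu : Integrable u) {S : Set (ST n)} (hS : IsCompact S)
    (h0 : ∀ y, y ∉ S → u y = 0) (z : ST n) :
    IntervalIntegrable (fun s => cv (k s) u z) volume ε 1 ∧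
    ∫ s in ε..1, cv (k s) u z = cv (fun z => ∫ s in ε..1, k s z) u z := by
  have hc := JC_ext hk hε
  have hc2 : Continuous (fun q : ℝ × ST n => k (max q.1 ε) (z - q.2)) := by
    have h := hc.comp (continuous_fst.prodMk (continuous_const.sub continuous_snd) :
      Continuous (fun q : ℝ × ST n => (q.1, z - q.2)))
    exact h
  obtain ⟨C, hC⟩ := (isCompact_Icc (a := ε) (b := 1)).prod hS |>.exists_bound_of_continuousOn
    hc2.continuousOn
  have hI : Integrable (fun q : ℝ × ST n => k (max q.1 ε) (z - q.2) * u q.2)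
      ((volume.restrict (Ioc ε 1)).prod volume) := by
    have hdom : Integrable (fun q : ℝ × ST n => C * ‖u q.2‖)
        ((volume.restrict (Ioc ε 1)).prod volume) := (hu.norm.comp_snd _).const_mul C
    refine hdom.mono' ?_ ?_
    · exact hc2.aestronglyMeasurable.mul hu.aestronglyMeasurable.comp_snd
    · have hae : ∀ᵐ q : ℝ × ST n ∂((volume.restrict (Ioc ε 1)).prod volume), q.1 ∈ Ioc ε 1 := by
        have := Measure.quasiMeasurePreserving_fst (μ := volume.restrict (Ioc ε 1))
          (ν := (volume : Measure (ST n)))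
        exact this.ae (ae_restrict_mem measurableSet_Ioc)
      filter_upwards [hae] with q hq
      rw [norm_mul]
      by_cases hy : q.2 ∈ S
      · exact mul_le_mul_of_nonneg_right (hC q ⟨⟨hq.1.le, hq.2⟩, hy⟩) (norm_nonneg _)
      · rw [h0 _ hy]; simp
  have e1 : ∀ s ∈ Ioc ε 1, cv (k s) u z = ∫ y, k (max s ε) (z - y) * u y := by
    intro s hs
    rw [max_eq_left hs.1.le]
    rfl
  constructor
  · rw [intervalIntegrable_iff_integrableOn_Ioc_of_le h1]
    refine IntegrableOn.congr_fun (f := fun s => ∫ y, k (max s ε) (z - y) * u y) ?_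
      (fun s hs => (e1 s hs).symm) measurableSet_Ioc
    exact hI.integral_prod_left
  · rw [intervalIntegral.integral_of_le h1, setIntegral_congr_fun measurableSet_Ioc e1]
    rw [integral_integral_swap hI]
    unfold cv
    refine integral_congr_ae (Eventually.of_forall fun y => ?_)
    simp only []
    rw [integral_mul_const, intervalIntegral.integral_of_le h1]
    congr 1
    refine setIntegral_congr_fun measurableSet_Ioc fun s hs => ?_
    rw [max_eq_left hs.1.le]

theorem JC_Kr {μ ε : ℝ} (hμ : 0 < μ) (hε : 0 < ε) (l : List (Fin n)) :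
    JC (fun s => Kr μ ε s l) := (Kr_joint hμ hε l).continuousOn

theorem JC_Kp {μ ε : ℝ} (hμ : 0 < μ) (hε : 0 < ε) (l : List (Fin n)) :
    JC (fun s => Kp μ ε s l) := (Kp_joint hμ hε l).continuousOn

/-- fundamental theorem of calculus in `s` -/
theorem Kp_ftc {μ ε : ℝ} (hμ : 0 < μ) (hε : 0 < ε) (h1 : ε ≤ 1) (z : ST n) :
    ∫ s in ε..1, ∑ i, Kp μ ε s [i, i] z = Kp μ ε 1 [] z - Kp μ ε ε [] z := by
  refine intervalIntegral.integral_eq_sub_of_hasDerivAt (f := fun s => Kp μ ε s [] z)
    (fun s hs => ?_) ?_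
  · rw [uIcc_of_le h1] at hs
    exact Kp_deriv_s hμ hε (hε.trans_le hs.1) [] z
  · refine ContinuousOn.intervalIntegrable ?_
    rw [uIcc_of_le h1]
    refine continuousOn_finsetSum _ fun i _ => ?_
    have h := JC_Kp hμ hε [i, i]
    refine ContinuousOn.comp (g := fun q : ℝ × ST n => Kp μ ε q.1 [i, i] q.2)
      (f := fun s : ℝ => (s, z)) h (continuous_id.prodMk continuous_const).continuousOn ?_
    intro s hs
    exact hε.trans_le hs.1

end Pool.Agent.Helper37.Jef
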