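import Pool.Agent.Helper37.JefApp
import Pool.Agent.Helper37.JefInt
import Pool.Agent.Helper37.JefGrad

/-! # convergence in measure; the lower order terms -/

open MeasureTheory Set Filter Topology
open scoped ENNReal ContDiff Pointwise

namespace Pool.Agent.Helper37.Jef
open Pool.Agent.Helper42.Jef
variable {n : ℕ}

/-- convergence to zero in measure on a set -/
def CM (S : Set (ST n)) (f : ℕ → ST n → ℝ) : Prop :=
  ∀ s : ℝ, 0 < s → Tendsto (fun m => volume {z | z ∈ S ∧ s < |f m z|}) atTop (𝓝 0)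

section CM
variable {S : Set (ST n)} {f g : ℕ → ST n → ℝ}

theorem CM.congr (hf : CM S f) (h : ∀ m, ∀ z ∈ S, f m z = g m z) : CM S g := by
  intro s hs
  refine (hf s hs).congr fun m => ?_
  congr 1
  ext z
  simp only [mem_ofPred_eq]
  constructor
  · rintro ⟨h1, h2⟩
    exact ⟨h1, by rwa [← h m z h1]⟩
  · rintro ⟨h1, h2⟩
    exact ⟨h1, by rwa [h m z h1]⟩

theorem CM.add (hf : CM S f) (hg : CM S g) : CM S (fun m z => f m z + g m z) := by
  intro s hs
  have h1 := (hf (s / 2) (by positivity)).add (hg (s / 2) (by positivity))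
  rw [add_zero] at h1
  refine tendsto_of_tendsto_of_tendsto_of_le_of_le tendsto_const_nhds h1 (fun _ => zero_le)
    fun m => ?_
  refine (measure_mono ?_).trans (measure_union_le _ _)
  rintro z ⟨hz, h2⟩
  by_cases h3 : s / 2 < |f m z|
  · exact Or.inl ⟨hz, h3⟩
  · refine Or.inr ⟨hz, ?_⟩
    have := abs_add_le (f m z) (g m z)
    linarith [not_lt.1 h3]

theorem CM.zero : CM S (fun _ _ => (0 : ℝ)) := by
  intro s hs
  have : {z : ST n | z ∈ S ∧ s < |(0 : ℝ)|} = ∅ := by
    ext z
    simp only [mem_empty_iff_false, iff_false]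
    rintro ⟨-, h⟩
    rw [abs_zero] at h
    linarith
  simp only [this, measure_empty]
  exact tendsto_const_nhds

theorem CM.const_mul (hf : CM S f) (c : ℝ) : CM S (fun m z => c * f m z) := by
  rcases eq_or_ne c 0 with rfl | hc
  · exact CM.zero.congr fun m z _ => by simp
  intro s hs
  refine (hf (s / |c|) (by positivity)).congr fun m => ?_
  congr 1
  ext z
  simp only [mem_ofPred_eq]
  rw [abs_mul, div_lt_iff₀ (by positivity), mul_comm]

theorem CM.neg (hf : CM S f) : CM S (fun m z => -f m z) :=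
  (hf.const_mul (-1)).congr fun m z _ => by ring

theorem CM.sub (hf : CM S f) (hg : CM S g) : CM S (fun m z => f m z - g m z) :=
  (hf.add hg.neg).congr fun m z _ => by ring

theorem CM.sum {ι : Type*} (s : Finset ι) {F : ι → ℕ → ST n → ℝ} (h : ∀ i ∈ s, CM S (F i)) :
    CM S (fun m z => ∑ i ∈ s, F i m z) := by
  classical
  induction s using Finset.induction_on with
  | empty => exact CM.zero.congr fun m z _ => by simp
  | insert a s ha ih =>
    have h1 := (h a (Finset.mem_insert_self a s)).add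
      (ih fun i hi => h i (Finset.mem_insert_of_mem hi))
    exact h1.congr fun m z _ => by rw [Finset.sum_insert ha]

theorem CM.of_L1 {S' : Set (ST n)} (hSS : S ⊆ S')
    (hm : ∀ m, AEStronglyMeasurable (f m) volume)
    (h : Tendsto (fun m => ∫⁻ z in S', ‖f m z‖ₑ) atTop (𝓝 0)) : CM S f := by
  intro s hs
  have hs' : ENNReal.ofReal s ≠ 0 := by simpa using hs
  have h1 := ENNReal.Tendsto.div_const h (Or.inr hs')
  rw [ENNReal.zero_div] at h1
  refine tendsto_of_tendsto_of_tendsto_of_le_of_le tendsto_const_nhds h1 (fun _ => zero_le)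
    fun m => ?_
  have h2 := mul_meas_ge_le_lintegral₀ (μ := volume.restrict S') (hm m).restrict.enorm
    (ENNReal.ofReal s)
  rw [ENNReal.le_div_iff_mul_le (Or.inl hs') (Or.inl ENNReal.ofReal_ne_top), mul_comm]
  refine le_trans (mul_le_mul_right ?_ _) h2
  refine le_trans ?_ (Measure.le_restrict_apply S' _)
  refine measure_mono ?_
  rintro z ⟨hz, h3⟩
  refine ⟨?_, hSS hz⟩
  simp only [mem_ofPred_eq]
  rw [← ofReal_norm]
  exact ENNReal.ofReal_le_ofReal h3.le

theorem CM.of_L2 (hm : ∀ m, AEStronglyMeasurable (f m) volume)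
    (h : Tendsto (fun m => eLpNorm (f m) 2 volume) atTop (𝓝 0)) : CM S f := by
  intro s hs
  have hs' : ENNReal.ofReal s ≠ 0 := by simpa using hs
  have hs2 : ENNReal.ofReal s ^ (2 : ℝ) ≠ 0 := by simpa using hs
  have h0 : Tendsto (fun m => eLpNorm (f m) 2 volume ^ (2 : ℝ)) atTop (𝓝 0) := by
    have := ((ENNReal.continuous_rpow_const (y := 2)).tendsto 0).comp h
    simpa only [Function.comp_def, ENNReal.zero_rpow_of_pos (by norm_num : (0 : ℝ) < 2)] using this
  have h1 := ENNReal.Tendsto.div_const h0 (Or.inr hs2)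
  rw [ENNReal.zero_div] at h1
  refine tendsto_of_tendsto_of_tendsto_of_le_of_le tendsto_const_nhds h1 (fun _ => zero_le)
    fun m => ?_
  have h2 := mul_meas_ge_le_pow_eLpNorm' volume (p := 2) (by norm_num) (by norm_num) (hm m)
    (ENNReal.ofReal s)
  have hne : ENNReal.ofReal s ^ (2 : ℝ) ≠ ⊤ :=
    ENNReal.rpow_ne_top_of_nonneg (by norm_num) ENNReal.ofReal_ne_top
  rw [ENNReal.le_div_iff_mul_le (Or.inl hs2) (Or.inl hne), mul_comm]
  simp only [ENNReal.toReal_ofNat] at h2
  refine le_trans (mul_le_mul_right ?_ _) h2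
  refine measure_mono ?_
  rintro z ⟨hz, h3⟩
  simp only [mem_ofPred_eq]
  rw [← ofReal_norm]
  exact ENNReal.ofReal_le_ofReal h3.le

end CM

/-! ## nice functions: integrable, vanishing outside a set -/

def Nice (S : Set (ST n)) (u : ST n → ℝ) : Prop := Integrable u ∧ ∀ y, y ∉ S → u y = 0

section Nice
variable {S : Set (ST n)} {u v : ST n → ℝ}

theorem Nice.add (hu : Nice S u) (hv : Nice S v) : Nice S (fun y => u y + v y) :=
  ⟨hu.1.add hv.1, fun y hy => by simp only [hu.2 y hy, hv.2 y hy, add_zero]⟩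

theorem Nice.sub (hu : Nice S u) (hv : Nice S v) : Nice S (fun y => u y - v y) :=
  ⟨hu.1.sub hv.1, fun y hy => by simp only [hu.2 y hy, hv.2 y hy, sub_zero]⟩

theorem Nice.const_mul (hu : Nice S u) (c : ℝ) : Nice S (fun y => c * u y) :=
  ⟨hu.1.const_mul c, fun y hy => by simp only [hu.2 y hy, mul_zero]⟩

theorem Nice.ce (hu : Nice S u) (hS : IsCompact S) {k : ST n → ℝ} (hk : Continuous k)
    (z : ST n) : Integrable (fun y => k (z - y) * u y) := ce_cont hk hu.1 hS hu.2 z

theorem Nice.congr (hu : Nice S u) (h : ∀ y, v y = u y) : Nice S v := by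
  have : v = u := funext h
  rw [this]; exact hu

theorem nice_mul {φ g : ST n → ℝ} (hφ : Continuous φ) (hS : IsCompact S)
    (h0 : ∀ y, y ∉ S → φ y = 0) (hg : IntegrableOn g S) : Nice S (fun y => φ y * g y) := by
  refine ⟨?_, fun y hy => by simp only [h0 y hy, zero_mul]⟩
  have h1 : IntegrableOn (fun y => φ y * g y) S := hg.continuousOn_mul hφ.continuousOn hS
  refine (integrableOn_iff_integrable_of_support_subset ?_).1 h1
  intro y hy
  by_contra h2
  exact hy (by simp [h0 y h2])

end Nice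

/-! ## the lower order terms -/

theorem cv_enorm_bdd {k u : ST n → ℝ} {C : ℝ} (hk : ∀ y, ‖k y‖ ≤ C) (z : ST n) :
    ‖cv k u z‖ₑ ≤ ENNReal.ofReal C * ∫⁻ y, ‖u y‖ₑ := by
  refine (cv_enorm_le k u z).trans ?_
  rw [← lintegral_const_mul' _ _ ENNReal.ofReal_ne_top]
  refine lintegral_mono fun y => mul_le_mul_left ?_ _
  rw [← ofReal_norm]
  exact ENNReal.ofReal_le_ofReal (hk _)

/-- smooth kernel: convergence in `L¹` -/
theorem cv_smooth_tendsto {Ω : Set (Eu n)} {T : ℝ} {φ : ST n → ℝ} (hφ : IsTestST Ω T φ)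
    {g : ℕ → ST n → ℝ} (hg : ∀ m, Integrable (fun y => φ y * g m y)) {M : ℝ≥0∞} (hMt : M ≠ ⊤)
    (hM : ∀ m, ∫⁻ y, ‖φ y * g m y‖ₑ ≤ M)
    (hw : ∀ ψ, IsTestST Ω T ψ → Tendsto (fun m => ∫ z, g m z * ψ z) atTop (𝓝 0))
    {k : ST n → ℝ} (hk : ContDiff ℝ ∞ k) (hkc : HasCompactSupport k) :
    Tendsto (fun m => ∫⁻ z, ‖cv k (fun y => φ y * g m y) z‖ₑ) atTop (𝓝 0) := by
  obtain ⟨C, hC⟩ := hkc.exists_bound_of_continuous hk.continuous
  set K : Set (ST n) := tsupport k + tsupport φ with hK
  have hKc : IsCompact K := hkc.isCompact.add hφ.cpt.isCompact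
  have hz0 : ∀ m z, z ∉ K → cv k (fun y => φ y * g m y) z = 0 := by
    intro m z hz
    unfold cv
    rw [← integral_zero (ST n) ℝ (μ := volume)]
    refine integral_congr_ae (Eventually.of_forall fun y => ?_)
    by_cases h1 : y ∈ tsupport φ
    · have h2 : z - y ∉ tsupport k := by
        intro h2
        exact hz ⟨z - y, h2, y, h1, by simp⟩
      simp only []
      rw [image_eq_zero_of_notMem_tsupport h2, zero_mul]
    · simp only []
      rw [image_eq_zero_of_notMem_tsupport h1, zero_mul, mul_zero]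
  have hlim : ∀ z, Tendsto (fun m => ‖cv k (fun y => φ y * g m y) z‖ₑ) atTop (𝓝 0) := by
    intro z
    have hψ : IsTestST Ω T (fun y => φ y * k (z - y)) := by
      have e : ContDiff ℝ ∞ (fun y => k (z - y)) := hk.comp (contDiff_const.sub contDiff_id)
      exact ⟨hφ.smooth.mul e, hφ.cpt.mul_right, (tsupport_mul_subset_left).trans hφ.supp⟩
    have h1 := hw _ hψ
    have h2 : ∀ m, ∫ y, g m y * (φ y * k (z - y)) = cv k (fun y => φ y * g m y) z := by
      intro m
      unfold cv
      exact integral_congr_ae (Eventually.of_forall fun y => by ring)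
    simp only [h2] at h1
    have h3 := (continuous_enorm.tendsto (0 : ℝ)).comp h1
    simpa [Function.comp_def] using h3
  have hb : ∀ m z, ‖cv k (fun y => φ y * g m y) z‖ₑ ≤
      K.indicator (fun _ => ENNReal.ofReal C * M) z := by
    intro m z
    by_cases hz : z ∈ K
    · rw [indicator_of_mem hz]
      exact (cv_enorm_bdd hC z).trans (mul_le_mul_right (hM m) _)
    · rw [hz0 m z hz]
      simp
  have h := tendsto_lintegral_of_dominated_convergence' (μ := (volume : Measure (ST n)))
    (F := fun m z => ‖cv k (fun y => φ y * g m y) z‖ₑ) (f := fun _ => 0)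
    (K.indicator (fun _ => ENNReal.ofReal C * M))
    (fun m => (cv_aesm hk.continuous.aestronglyMeasurable (hg m).aestronglyMeasurable).enorm)
    (fun m => Eventually.of_forall (hb m)) ?_ (Eventually.of_forall hlim)
  · simpa using h
  · rw [lintegral_indicator hKc.measurableSet, lintegral_const]
    simp only [Measure.restrict_apply_univ]
    exact ENNReal.mul_ne_top (ENNReal.mul_ne_top ENNReal.ofReal_ne_top hMt) hKc.measure_lt_top.ne

/-- black box: the lower order kernels -/
def KLow (n : ℕ) (μ : ℝ) : Prop := ∀ l : List (Fin n), l.length ≤ 3 → ∀ T : ℝ,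
  ∃ K0 : ST n → ℝ, Integrable K0 ∧ ∀ ε : ℕ → ℝ, (∀ m, 0 < ε m ∧ ε m < 1) →
      Tendsto ε atTop (𝓝 0) →
      Tendsto (fun m => ∫⁻ z in Iio T ×ˢ (univ : Set (Eu n)),
        ‖(∫ s in (ε m)..1, Kr μ (ε m) s l z) - K0 z‖ₑ) atTop (𝓝 0)

theorem low_cm {μ : ℝ} (hμ : 0 < μ) (hL : KLow n μ) {Ω : Set (Eu n)} {T : ℝ} {φ : ST n → ℝ}
    (hφ : IsTestST Ω T φ)
    {g : ℕ → ST n → ℝ} (hg : ∀ m, Integrable (fun y => φ y * g m y)) {M : ℝ}
    (hM : ∀ m, ∫⁻ y, ‖φ y * g m y‖ₑ ≤ ENNReal.ofReal M)
    (hw : ∀ ψ, IsTestST Ω T ψ → Tendsto (fun m => ∫ z, g m z * ψ z) atTop (𝓝 0))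
    {ε : ℕ → ℝ} (hε : ∀ m, 0 < ε m ∧ ε m < 1) (hε0 : Tendsto ε atTop (𝓝 0))
    (l : List (Fin n)) (hl : l.length ≤ 3) {S : Set (ST n)} (hS : S ⊆ Iio T ×ˢ univ) :
    CM S (fun m => cv (fun z => ∫ s in (ε m)..1, Kr μ (ε m) s l z) (fun y => φ y * g m y)) := by
  obtain ⟨K0, hK0, hK⟩ := hL l hl T
  have hKm := hK ε hε hε0
  have hSm : MeasurableSet (Iio T ×ˢ (univ : Set (Eu n))) := measurableSet_Iio.prod .univ
  set S' : Set (ST n) := Iio T ×ˢ (univ : Set (Eu n)) with hS'
  set R : ℕ → ST n → ℝ := fun m z => ∫ s in (ε m)..1, Kr μ (ε m) s l z with hR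
  have hRc : ∀ m, Continuous (R m) := fun m =>
    JC_cont (JC_Kr hμ (hε m).1 l) (hε m).1 (hε m).2.le
  set b : ℕ → ST n → ℝ := fun m y => φ y * g m y with hb
  have hnice : ∀ m, Nice (tsupport φ) (b m) := fun m =>
    ⟨hg m, fun y hy => by simp [hb, image_eq_zero_of_notMem_tsupport hy]⟩
  have hcut : ∀ (k : ST n → ℝ) m, ∀ z ∈ S', cv k (b m) z = cv (S'.indicator k) (b m) z := by
    intro k m z hz
    unfold cv
    refine integral_congr_ae (Eventually.of_forall fun y => ?_)
    by_cases hy : y ∈ tsupport φ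
    · have h1 : 0 < y.1 := (hφ.supp hy).1.1
      have h2 : z - y ∈ S' := by
        refine ⟨?_, mem_univ _⟩
        have : z.1 < T := hz.1
        simp only [Prod.fst_sub, mem_Iio]
        linarith
      simp only []
      rw [indicator_of_mem h2]
    · simp only []
      rw [(hnice m).2 y hy, mul_zero, mul_zero]
  have hRm : ∀ m, AEStronglyMeasurable (R m) volume := fun m => (hRc m).aestronglyMeasurable
  have hbm : ∀ m, AEStronglyMeasurable (b m) volume := fun m => (hg m).aestronglyMeasurable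
  have hK0' : Integrable (S'.indicator K0) := hK0.indicator hSm
  refine CM.of_L1 hS (fun m => cv_aesm (hRm m) (hbm m)) ?_
  rw [ENNReal.tendsto_nhds_zero]
  intro δ hδ
  -- choose the smooth approximation
  wlog hδt : δ ≠ ⊤ generalizing δ
  · rw [not_not] at hδt
    subst hδt
    exact Eventually.of_forall fun m => le_top
  set d : ℝ := δ.toReal with hd
  have hd0 : 0 < d := ENNReal.toReal_pos hδ.ne' hδt
  have hδd : δ = ENNReal.ofReal d := (ENNReal.ofReal_toReal hδt).symm
  set M' : ℝ := |M| + 1 with hM'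
  have hM'0 : 0 < M' := by positivity
  have hMM : ENNReal.ofReal M ≤ ENNReal.ofReal M' :=
    ENNReal.ofReal_le_ofReal (by rw [hM']; linarith [le_abs_self M])
  obtain ⟨k, hkc, hks, hkδ⟩ := (memLp_one_iff_integrable.2 hK0').exist_eLpNorm_sub_le
    (by norm_num) le_rfl (show 0 < d / 3 / M' by positivity)
  have h3 := cv_smooth_tendsto hφ hg ENNReal.ofReal_ne_top hM hw hks hkc
  have e1 : ∀ᶠ m in atTop, ∫⁻ z, ‖cv k (b m) z‖ₑ ≤ ENNReal.ofReal (d / 3) :=
    (h3.eventually_lt_const (by simpa using (show 0 < d / 3 by positivity))).mono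
      fun m hm => le_of_lt hm
  have e2 : ∀ᶠ m in atTop, ∫⁻ z in S', ‖R m z - K0 z‖ₑ ≤ ENNReal.ofReal (d / 3 / M') :=
    (hKm.eventually_lt_const (by simpa using (show 0 < d / 3 / M' by positivity))).mono
      fun m hm => le_of_lt hm
  filter_upwards [e1, e2] with m hm1 hm2
  have a1 : ∫⁻ z, ‖cv (fun z => S'.indicator (R m) z - S'.indicator K0 z) (b m) z‖ₑ ≤
      ENNReal.ofReal (d / 3) := by
    refine (lint_cv (k := fun z => S'.indicator (R m) z - S'.indicator K0 z)
      (((hRm m).indicator hSm).sub hK0'.aestronglyMeasurable) (hbm m)).trans ?_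
    have e3 : ∫⁻ z, ‖S'.indicator (R m) z - S'.indicator K0 z‖ₑ = ∫⁻ z in S', ‖R m z - K0 z‖ₑ := by
      rw [← lintegral_indicator hSm]
      refine lintegral_congr fun z => ?_
      by_cases hz : z ∈ S'
      · simp only [indicator_of_mem hz]
      · simp only [indicator_of_notMem hz]
        simp
    rw [e3]
    refine (mul_le_mul' hm2 ((hM m).trans hMM)).trans (le_of_eq ?_)
    rw [← ENNReal.ofReal_mul (by positivity)]
    congr 1
    field_simp
  have a2 : ∫⁻ z, ‖cv (fun z => S'.indicator K0 z - k z) (b m) z‖ₑ ≤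
      ENNReal.ofReal (d / 3) := by
    refine (lint_cv (k := fun z => S'.indicator K0 z - k z)
      (hK0'.aestronglyMeasurable.sub hks.continuous.aestronglyMeasurable)
      (hbm m)).trans ?_
    have e3 : ∫⁻ z, ‖S'.indicator K0 z - k z‖ₑ ≤ ENNReal.ofReal (d / 3 / M') := by
      rw [eLpNorm_one_eq_lintegral_enorm] at hkδ
      exact hkδ
    refine (mul_le_mul' e3 ((hM m).trans hMM)).trans (le_of_eq ?_)
    rw [← ENNReal.ofReal_mul (by positivity)]
    congr 1
    field_simp
  have hae : ∀ᵐ z ∂(volume.restrict S'), ‖cv (R m) (b m) z‖ₑ ≤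
      ‖cv (fun z => S'.indicator (R m) z - S'.indicator K0 z) (b m) z‖ₑ +
      (‖cv (fun z => S'.indicator K0 z - k z) (b m) z‖ₑ + ‖cv k (b m) z‖ₑ) := by
    filter_upwards [ae_restrict_mem hSm, ae_restrict_of_ae (ae_ce hK0' (hg m))] with z hz hI
    have i1 : Integrable (fun y => S'.indicator (R m) (z - y) * b m y) := by
      have h1 := (hnice m).ce hφ.cpt.isCompact (hRc m) z
      refine h1.congr (Eventually.of_forall fun y => ?_)
      by_cases hy : y ∈ tsupport φ
      · have h1 : 0 < y.1 := (hφ.supp hy).1.1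
        have h2 : z - y ∈ S' := by
          refine ⟨?_, mem_univ _⟩
          have : z.1 < T := hz.1
          simp only [Prod.fst_sub, mem_Iio]
          linarith
        simp only []
        rw [indicator_of_mem h2]
      · simp only []
        rw [(hnice m).2 y hy, mul_zero, mul_zero]
    have i3 := (hnice m).ce hφ.cpt.isCompact hks.continuous z
    rw [hcut (R m) m z hz, cv_sub_left i1 hI, cv_sub_left hI i3]
    have : cv (S'.indicator (R m)) (b m) z = (cv (S'.indicator (R m)) (b m) z -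
      cv (S'.indicator K0) (b m) z) + ((cv (S'.indicator K0) (b m) z - cv k (b m) z) +
        cv k (b m) z) := by ring
    calc ‖cv (S'.indicator (R m)) (b m) z‖ₑ = ‖(cv (S'.indicator (R m)) (b m) z -
      cv (S'.indicator K0) (b m) z) + ((cv (S'.indicator K0) (b m) z - cv k (b m) z) +
        cv k (b m) z)‖ₑ := by rw [← this]
      _ ≤ _ := (enorm_add_le _ _).trans (by gcongr; exact enorm_add_le _ _)
  refine (lintegral_mono_ae hae).trans ?_
  have q1 : AEMeasurable (fun z => ‖cv (fun z => S'.indicator (R m) z - S'.indicator K0 z) (b m)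
      z‖ₑ) (volume.restrict S') :=
    (cv_aesm (((hRm m).indicator hSm).sub hK0'.aestronglyMeasurable) (hbm m)).enorm.restrict
  have q2 : AEMeasurable (fun z => ‖cv (fun z => S'.indicator K0 z - k z) (b m)
      z‖ₑ) (volume.restrict S') :=
    (cv_aesm (hK0'.aestronglyMeasurable.sub hks.continuous.aestronglyMeasurable)
      (hbm m)).enorm.restrict
  rw [lintegral_add_left' q1, lintegral_add_left' q2]
  have t : δ = ENNReal.ofReal (d / 3) + (ENNReal.ofReal (d / 3) + ENNReal.ofReal (d / 3)) := by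
    rw [← ENNReal.ofReal_add (by positivity) (by positivity),
      ← ENNReal.ofReal_add (by positivity) (by positivity), hδd]
    congr 1
    ring
  rw [t]
  exact add_le_add ((setLIntegral_le_lintegral _ _).trans a1)
    (add_le_add ((setLIntegral_le_lintegral _ _).trans a2)
      ((setLIntegral_le_lintegral _ _).trans hm1))

end Pool.Agent.Helper37.Jef
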