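import Pool.Agent.Helper37.JefBounds

/-! # representation of the localized gradient -/

open MeasureTheory Set Filter Topology
open scoped ENNReal ContDiff

namespace Pool.Agent.Helper37.Jef
open Pool.Agent.Helper42.Jef
variable {n : ℕ}

/-! ## elementary convergence facts -/

theorem TS.bdd {χ φ : ST n → ℝ} (hχ : HasCompactSupport χ) (h : TS χ φ) :
    ∃ C : ℝ, 0 ≤ C ∧ ∀ y, ‖φ y‖ ≤ C := by
  have hc : HasCompactSupport φ :=
    IsCompact.of_isClosed_subset hχ.isCompact (isClosed_tsupport φ) h.sub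
  obtain ⟨C, hC⟩ := hc.exists_bound_of_continuous h.smooth.continuous
  exact ⟨C, (norm_nonneg _).trans (hC 0), hC⟩

theorem TS.memLp {χ φ : ST n → ℝ} (hχ : HasCompactSupport χ) (h : TS χ φ) (q : ℝ≥0∞) :
    MemLp φ q volume := by
  have hc : HasCompactSupport φ :=
    IsCompact.of_isClosed_subset hχ.isCompact (isClosed_tsupport φ) h.sub
  exact h.smooth.continuous.memLp_of_hasCompactSupport hc

theorem eL2_mul_le {φ g : ST n → ℝ} {C : ℝ} (hC : ∀ y, ‖φ y‖ ≤ C) (q : ℝ≥0∞) :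
    eLpNorm (fun y => φ y * g y) q volume ≤ ENNReal.ofReal C * eLpNorm g q volume := by
  refine eLpNorm_le_mul_eLpNorm_of_ae_le_mul (Eventually.of_forall fun y => ?_) q
  rw [norm_mul]
  exact mul_le_mul_of_nonneg_right (hC y) (norm_nonneg _)

theorem TS.mul_memLp {χ φ g : ST n → ℝ} (hχ : HasCompactSupport χ) (h : TS χ φ) {q : ℝ≥0∞}
    (hg : MemLp g q volume) : MemLp (fun y => φ y * g y) q volume := by
  obtain ⟨C, -, hC⟩ := h.bdd hχ
  refine ⟨h.smooth.continuous.aestronglyMeasurable.mul hg.aestronglyMeasurable, ?_⟩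
  exact (eL2_mul_le hC q).trans_lt (ENNReal.mul_lt_top ENNReal.ofReal_lt_top hg.2)

theorem tendsto_of_le_mul {f g : ℕ → ℝ≥0∞} {C : ℝ≥0∞} (hC : C ≠ ⊤) (h : ∀ m, f m ≤ C * g m)
    (hg : Tendsto g atTop (𝓝 0)) : Tendsto f atTop (𝓝 0) := by
  have h1 := ENNReal.Tendsto.const_mul hg (Or.inr hC)
  rw [mul_zero] at h1
  exact tendsto_of_tendsto_of_tendsto_of_le_of_le tendsto_const_nhds h1 (fun _ => zero_le) h

theorem tendsto_real_of_enorm {f : ℕ → ℝ} (h : Tendsto (fun m => ‖f m‖ₑ) atTop (𝓝 0)) :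
    Tendsto f atTop (𝓝 0) := by
  have h1 := (ENNReal.tendsto_toReal ENNReal.zero_ne_top).comp h
  rw [ENNReal.toReal_zero] at h1
  rw [tendsto_zero_iff_norm_tendsto_zero]
  refine h1.congr fun m => ?_
  simp

/-! ## good sequences for the lower order terms -/

structure Gd (Ω : Set (Eu n)) (T : ℝ) (χ : ST n → ℝ) (g : ℕ → ST n → ℝ) : Prop where
  loc : ∀ m, LocallyIntegrable (g m)
  bdd : ∀ φ, TS χ φ → ∃ M : ℝ, ∀ m, ∫⁻ y, ‖φ y * g m y‖ₑ ≤ ENNReal.ofReal M
  weak : ∀ ψ, IsTestST Ω T ψ → Tendsto (fun m => ∫ z, g m z * ψ z) atTop (𝓝 0)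

theorem holder2_lint {f g : ST n → ℝ} (hf : AEStronglyMeasurable f volume)
    (hg : AEStronglyMeasurable g volume) :
    ∫⁻ z, ‖f z * g z‖ₑ ≤ eLpNorm f 2 volume * eLpNorm g 2 volume := by
  simp only [enorm_mul]
  have h := ENNReal.lintegral_mul_le_Lp_mul_Lq volume (p := 2) (q := 2)
    (by constructor <;> norm_num) hf.enorm hg.enorm
  rw [eLpNorm_eq_lintegral_rpow_enorm_toReal (by norm_num) (by norm_num),
    eLpNorm_eq_lintegral_rpow_enorm_toReal (by norm_num) (by norm_num)]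
  simpa using h

theorem Gd.of_L2 {Ω : Set (Eu n)} {T : ℝ} {χ : ST n → ℝ} (hχ : IsTestST Ω T χ)
    {g : ℕ → ST n → ℝ} {M : ℝ}
    (h2 : ∀ m, MemLp (g m) 2 volume) (hM : ∀ m, eLpNorm (g m) 2 volume ≤ ENNReal.ofReal M)
    (hw : ∀ ψ, IsTestST Ω T ψ → Tendsto (fun m => ∫ z, g m z * ψ z) atTop (𝓝 0)) :
    Gd Ω T χ g := by
  refine ⟨fun m => (h2 m).locallyIntegrable (by norm_num), fun φ hφ => ?_, hw⟩
  have h1 := hφ.memLp hχ.cpt 2
  refine ⟨(eLpNorm φ 2 volume).toReal * M, fun m => ?_⟩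
  rw [ENNReal.ofReal_mul ENNReal.toReal_nonneg, ENNReal.ofReal_toReal h1.eLpNorm_ne_top]
  exact (holder2_lint h1.aestronglyMeasurable (h2 m).aestronglyMeasurable).trans
    (mul_le_mul_right (hM m) _)

theorem Gd.cm {Ω : Set (Eu n)} {T : ℝ} {χ : ST n → ℝ} (hχ : IsTestST Ω T χ)
    {g : ℕ → ST n → ℝ} (hg : Gd Ω T χ g) {μ : ℝ} (hμ : 0 < μ) (hL : KLow n μ)
    {ε : ℕ → ℝ} (hε : ∀ m, 0 < ε m ∧ ε m < 1) (hε0 : Tendsto ε atTop (𝓝 0))
    {L : List (Fin n)} (hl : L.length ≤ 3) {S : Set (ST n)} (hS : S ⊆ Iio T ×ˢ univ)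
    {φ : ST n → ℝ} (hφ : TS χ φ) :
    CM S (fun m => cv (RR μ (ε m) L) (fun y => φ y * g m y)) := by
  obtain ⟨M, hM⟩ := hg.bdd φ hφ
  exact low_cm hμ hL (hφ.test hχ) (fun m => (hφ.nice hχ.cpt (hg.loc m)).1) hM hg.weak hε hε0 L hl hS

theorem cLow_cm {Ω : Set (Eu n)} {T : ℝ} {χ : ST n → ℝ} (hχ : IsTestST Ω T χ)
    {om hi hj : ℕ → ST n → ℝ} {si sj : ℕ → Fin n → ST n → ℝ}
    (hom : Gd Ω T χ om) (hhi : Gd Ω T χ hi) (hhj : Gd Ω T χ hj)
    (hsi : ∀ l, Gd Ω T χ (fun m => si m l)) (hsj : ∀ l, Gd Ω T χ (fun m => sj m l))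
    {μ : ℝ} (hμ : 0 < μ) (hL : KLow n μ) (c : ℝ)
    {ε : ℕ → ℝ} (hε : ∀ m, 0 < ε m ∧ ε m < 1) (hε0 : Tendsto ε atTop (𝓝 0))
    (i j : Fin n) {L : List (Fin n)} (hl : L.length = 2) {S : Set (ST n)}
    (hS : S ⊆ Iio T ×ˢ univ) :
    CM S (fun m z => cLow χ μ c (om m) (hi m) (hj m) (si m) (sj m) i j L
      (fun L φ g => cv (RR μ (ε m) L) (fun y => φ y * g y) z)) := by
  have t0 := TS.refl hχ.smooth
  have h2 : L.length ≤ 3 := by omega
  have h3 : ∀ l, (l :: L).length ≤ 3 := fun l => by simp [hl]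
  unfold cLow
  exact ((((((hom.cm hχ hμ hL hε hε0 h2 hS (t0.Dc μ)).sub
    ((CM.sum Finset.univ fun l _ => hom.cm hχ hμ hL hε hε0 (h3 l) hS (t0.dx l)).const_mul
      (2 * μ))).add
    (hhi.cm hχ hμ hL hε hε0 h2 hS (t0.dx j))).sub
    (hhi.cm hχ hμ hL hε hε0 (h3 j) hS t0)).sub
    (hhj.cm hχ hμ hL hε hε0 h2 hS (t0.dx i))).add
    (hhj.cm hχ hμ hL hε hε0 (h3 i) hS t0)).add
    ((CM.sum Finset.univ fun l _ =>
      ((((((hsi l).cm hχ hμ hL hε hε0 h2 hS ((t0.dx j).dx l)).sub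
        ((hsi l).cm hχ hμ hL hε hε0 (h3 l) hS (t0.dx j))).sub
        ((hsi l).cm hχ hμ hL hε hε0 (h3 j) hS (t0.dx l))).sub
        ((hsj l).cm hχ hμ hL hε hε0 h2 hS ((t0.dx i).dx l))).add
        ((hsj l).cm hχ hμ hL hε hε0 (h3 l) hS (t0.dx i))).add
        ((hsj l).cm hχ hμ hL hε hε0 (h3 i) hS (t0.dx l))).const_mul c)

/-! ## choice of the regularization parameters -/

theorem choose_eps {μ : ℝ} (hμ : 0 < μ) {ι : Type*} [Finite ι] {X : ι → ST n → ℝ}
    (h2 : ∀ a, MemLp (X a) 2 volume) (h1 : ∀ a, Integrable (X a)) {δ : ℝ} (hδ : 0 < δ) :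
    ∃ ε : ℝ, 0 < ε ∧ ε < 1 ∧ ε < δ ∧ ∀ a,
      eLpNorm (fun z => X a z - cv (Kp μ ε ε []) (X a) z) 2 volume ≤ ENNReal.ofReal δ := by
  have e1 : ∀ a, ∀ᶠ ε in 𝓝[>] (0 : ℝ),
      eLpNorm (fun z => X a z - cv (Kp μ ε ε []) (X a) z) 2 volume ≤ ENNReal.ofReal δ := by
    intro a
    obtain ⟨ε0, h0, h⟩ := app_id (h2 a) (h1 a) hμ hδ
    filter_upwards [Ioo_mem_nhdsGT h0] with ε hε
    exact h ε hε.1 hε.2
  have e2 : ∀ᶠ ε in 𝓝[>] (0 : ℝ), ε ∈ Ioo 0 (min 1 δ) :=
    Ioo_mem_nhdsGT (lt_min one_pos hδ)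
  obtain ⟨ε, hε, hε2⟩ := ((eventually_all.2 e1).and e2).exists
  exact ⟨ε, hε2.1, hε2.2.trans_le (min_le_left _ _), hε2.2.trans_le (min_le_right _ _), hε⟩

theorem norm_le_sum_abs {ι : Type*} [Fintype ι] (v : EuclideanSpace ℝ ι) :
    ‖v‖ ≤ ∑ p, |v p| := by
  rw [EuclideanSpace.norm_eq]
  refine Real.sqrt_le_iff.2 ⟨Finset.sum_nonneg fun _ _ => abs_nonneg _, ?_⟩
  have h1 : ∀ p ∈ (Finset.univ : Finset ι), ‖v p‖ ^ 2 ≤ |v p| * ∑ q, |v q| := by
    intro p hp
    rw [Real.norm_eq_abs, sq]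
    exact mul_le_mul_of_nonneg_left
      (Finset.single_le_sum (f := fun q => |v q|) (fun _ _ => abs_nonneg _) hp) (abs_nonneg _)
  refine (Finset.sum_le_sum h1).trans ?_
  rw [← Finset.sum_mul, sq]

theorem CM.abs {S : Set (ST n)} {f : ℕ → ST n → ℝ} (hf : CM S f) :
    CM S (fun m z => |f m z|) := by
  intro s hs
  refine (hf s hs).congr fun m => ?_
  simp only [abs_abs]

/-! ## the theorem -/

theorem XX_memLp {Ω : Set (Eu n)} {T : ℝ} {χ : ST n → ℝ} (hχ : IsTestST Ω T χ)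
    {w : ST n → Eu n} {W : ST n → Mt n} (hv : IsVel Ω T w W) (k i : Fin n) :
    MemLp (XX χ w W k i) 2 volume :=
  (((TS.refl hχ.smooth).dx k).mul_memLp hχ.cpt (memLp_comp hv.memv i)).add
    ((TS.refl hχ.smooth).mul_memLp hχ.cpt (memLp_comp hv.memG (i, k)))

theorem om_abs (W : ST n → Mt n) (i j : Fin n) (y : ST n) : ‖om W i j y‖ ≤ 2 * ‖W y‖ := by
  have h1 := abs_comp_le (W y) (i, j)
  have h2 := abs_comp_le (W y) (j, i)
  rw [Real.norm_eq_abs]
  unfold om
  have := abs_sub (W y (i, j)) (W y (j, i))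
  linarith

theorem sg_abs (σ : ST n → Mt n) (i l : Fin n) (y : ST n) : ‖sg σ i l y‖ ≤ ‖σ y‖ := by
  have h1 := abs_comp_le (σ y) (l, i)
  have h2 := abs_comp_le (σ y) (i, l)
  rw [Real.norm_eq_abs, sg_eq, abs_mul, abs_of_pos (by norm_num : (0 : ℝ) < 1 / 2)]
  have := abs_add_le (σ y (l, i)) (σ y (i, l))
  linarith

theorem repr_of (n : ℕ) {μ : ℝ} (hμ : 0 < μ) (hM : KMain n μ) (hE : KEll n μ) (hL : KLow n μ)
    (c : ℝ) : ∃ (A : ℝ) (C : ℝ → ℝ),
    ∀ (Ω : Set (Eu n)), IsOpen Ω → Bornology.IsBounded Ω → ∀ T : ℝ, 0 < T →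
    ∀ (w : ℕ → ST n → Eu n) (W : ℕ → ST n → Mt n) (h : ℕ → ST n → Eu n) (σ : ℕ → ST n → Mt n)
      (M : ℝ),
    (∀ m, IsVel Ω T (w m) (W m)) →
    Tendsto (fun m => eLpNorm (w m) 2 volume) atTop (𝓝 0) →
    (∀ m, eLpNorm (W m) 2 volume ≤ ENNReal.ofReal M) →
    (∀ m, Integrable (h m)) → (∀ m, ∫ z, ‖h m z‖ ≤ M) →
    (∀ m, MemLp (σ m) 2 volume) → (∀ m, eLpNorm (σ m) 2 volume ≤ ENNReal.ofReal M) →
    (∀ ψ, IsTestST Ω T ψ → ∀ i, Tendsto (fun m => ∫ z, h m z i * ψ z) atTop (𝓝 0)) →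
    (∀ ψ, IsTestST Ω T ψ → ∀ p, Tendsto (fun m => ∫ z, σ m z p * ψ z) atTop (𝓝 0)) →
    (∀ m, ∀ i j : Fin n, ∀ ψ, IsTestST Ω T ψ →
      ∫ z, (W m z (i, j) - W m z (j, i)) * (dt ψ z + μ * ∑ l, dx l (dx l ψ) z) =
      ∫ z, (-(h m z i * dx j ψ z) + h m z j * dx i ψ z - c * ∑ l,
        (sy (σ m z) (l, i) * dx l (dx j ψ) z - sy (σ m z) (l, j) * dx l (dx i ψ) z))) →
    ∀ χ, IsTestST Ω T χ → ∃ κ : ℕ → (Fin n × Fin n) → (Fin n × Fin n) → ST n → ℝ,
      (∀ m p q, Integrable (κ m p q)) ∧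
      (∀ m p q, ∀ u : ST n → ℝ, Integrable u → MemLp u 2 →
        eLpNorm (cv (κ m p q) u) 2 volume ≤ ENNReal.ofReal A * eLpNorm u 2 volume) ∧
      (∀ m p q, ∀ u : ST n → ℝ, Integrable u → MemLp u 2 → ∫ z, |u z| ≤ 1 → ∀ s > 0,
        volume {z | s < |cv (κ m p q) u z|} ≤ ENNReal.ofReal (C s * ∫ z, |u z|)) ∧
      (∀ s : ℝ, 0 < s → Tendsto (fun m => volume {z | χ z ≠ 0 ∧
        s < ‖χ z • W m z - KK (κ m) (fun y => χ y • σ m y) z‖}) atTop (𝓝 0)) := by
  obtain ⟨A0, C0, hM⟩ := hM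
  obtain ⟨AE, hE⟩ := hE
  set N : ℝ := (Fintype.card ((Fin n × Fin n) × Bool) : ℝ) with hN
  refine ⟨N * |c| * A0, fun s => N * C0 (s / ((N + 1) * (|c| + 1))), ?_⟩
  intro Ω hΩ hΩb T hT w W h σ M hv hw hW hhi hhM hσ hσM hhw hσw hV χ hχ
  have t0 := TS.refl hχ.smooth
  have cpt := hχ.cpt
  have hV' : ∀ m, Vort Ω T μ c (W m) (h m) (σ m) := hV
  choose ε hε0 hε1 hεδ hεX using fun m : ℕ => choose_eps hμ (ι := Fin n × Fin n)
    (X := fun p => XX χ (w m) (W m) p.2 p.1) (fun p => XX_memLp hχ (hv m) p.2 p.1)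
    (fun p => (XX_nice hχ (hv m) p.2 p.1).1) (δ := 1 / ((m : ℝ) + 1)) (by positivity)
  have hεε : ∀ m, 0 < ε m ∧ ε m < 1 := fun m => ⟨hε0 m, hε1 m⟩
  have hεt : Tendsto ε atTop (𝓝 0) :=
    tendsto_of_tendsto_of_tendsto_of_le_of_le tendsto_const_nhds
      tendsto_one_div_add_atTop_nhds_zero_nat (fun m => (hε0 m).le) fun m => (hεδ m).le
  have hKB : ∀ (m : ℕ) (p q : Fin n × Fin n), KB (N * |c| * A0) (fun s => N * C0 (s / ((N + 1) * (|c| + 1))))
      (kap c μ (ε m) p q) := by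
    intro m p q
    exact KB_comb (abs_nonneg c) (cf_bound c p.1 q) fun a =>
      hM (ε m) (hε0 m) (hε1 m) (ls p.1 p.2 a) (ls_length p.1 p.2 a)
  refine ⟨fun m => kap c μ (ε m), fun m p q => (hKB m p q).1, fun m p q => (hKB m p q).2.1,
    fun m p q => (hKB m p q).2.2, ?_⟩
  -- supports
  set S : Set (ST n) := {z | χ z ≠ 0} with hS
  have hSS : S ⊆ Iio T ×ˢ univ := by
    intro z hz
    have h1 : z ∈ tsupport χ := subset_tsupport χ hz
    exact ⟨(hχ.supp h1).1.2, mem_univ _⟩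
  -- convergence of the velocities
  have hwi : ∀ {φ : ST n → ℝ}, TS χ φ → ∀ i,
      Tendsto (fun m => eLpNorm (fun y => φ y * w m y i) 2 volume) atTop (𝓝 0) := by
    intro φ hφ i
    obtain ⟨C, -, hC⟩ := hφ.bdd cpt
    refine tendsto_of_le_mul (C := ENNReal.ofReal C) ENNReal.ofReal_ne_top (fun m => ?_) hw
    exact (eL2_mul_le hC 2).trans (mul_le_mul_right (eL_comp_le (w m) 2 i) _)
  have mwi : ∀ {φ : ST n → ℝ}, TS χ φ → ∀ i m, MemLp (fun y => φ y * w m y i) 2 volume :=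
    fun hφ i m => hφ.mul_memLp cpt (memLp_comp (hv m).memv i)
  -- good sequences
  have gom : ∀ i j, Gd Ω T χ (fun m => om (W m) i j) := by
    intro i j
    refine Gd.of_L2 hχ (M := 2 * M)
      (fun m => (memLp_comp (hv m).memG (i, j)).sub (memLp_comp (hv m).memG (j, i))) ?_ ?_
    · intro m
      have h1 : eLpNorm (om (W m) i j) 2 volume ≤ ENNReal.ofReal 2 * eLpNorm (W m) 2 volume :=
        eLpNorm_le_mul_eLpNorm_of_ae_le_mul (Eventually.of_forall (om_abs (W m) i j)) 2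
      rw [ENNReal.ofReal_mul (by norm_num)]
      exact h1.trans (mul_le_mul_right (hW m) _)
    · intro ψ hψ
      have e1 : ∀ m, ∫ z, om (W m) i j z * ψ z =
          (∫ z, w m z j * dx i ψ z) - ∫ z, w m z i * dx j ψ z := by
        intro m
        have a1 := vel_weak (hv m) hψ.smooth hψ.cpt i j
        have a2 := vel_weak (hv m) hψ.smooth hψ.cpt j i
        have mψ : MemLp ψ 2 volume := hψ.smooth.continuous.memLp_of_hasCompactSupport hψ.cpt
        have e2 : ∀ z, om (W m) i j z * ψ z = W m z (i, j) * ψ z - W m z (j, i) * ψ z := by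
          intro z
          unfold om
          ring
        simp only [e2]
        rw [integral_sub (int_mul2 (memLp_comp (hv m).memG (i, j)) mψ)
          (int_mul2 (memLp_comp (hv m).memG (j, i)) mψ), a1, a2]
        ring
      simp only [e1]
      have key : ∀ i j, Tendsto (fun m => ∫ z, w m z i * dx j ψ z) atTop (𝓝 0) := by
        intro i j
        refine tendsto_real_of_enorm ?_
        have tψ := (TS.refl hψ.smooth).dx j
        have mψ := tψ.memLp hψ.cpt 2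
        refine tendsto_of_le_mul mψ.eLpNorm_ne_top (fun m => ?_) hw
        rw [mul_comm]
        refine (holder2 (aesm_comp (hv m).memv.aestronglyMeasurable i)
          mψ.aestronglyMeasurable).trans ?_
        exact mul_le_mul_left (eL_comp_le (w m) 2 i) _
      simpa using (key j i).sub (key i j)
  have ghi : ∀ i, Gd Ω T χ (fun m y => h m y i) := by
    intro i
    refine ⟨fun m => li_comp le_rfl (memLp_one_iff_integrable.2 (hhi m)) i, ?_,
      fun ψ hψ => hhw ψ hψ i⟩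
    intro φ hφ
    obtain ⟨C, hC0, hC⟩ := hφ.bdd cpt
    refine ⟨C * M, fun m => ?_⟩
    calc ∫⁻ y, ‖φ y * h m y i‖ₑ ≤ ∫⁻ y, ENNReal.ofReal C * ‖h m y‖ₑ := by
          refine lintegral_mono fun y => ?_
          rw [enorm_mul]
          refine mul_le_mul' ?_ ?_
          · rw [← ofReal_norm]
            exact ENNReal.ofReal_le_ofReal (hC y)
          · rw [← ofReal_norm, ← ofReal_norm]
            exact ENNReal.ofReal_le_ofReal (abs_comp_le (h m y) i)
      _ = ENNReal.ofReal C * ENNReal.ofReal (∫ y, ‖h m y‖) := by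
          rw [lintegral_const_mul' _ _ ENNReal.ofReal_ne_top,
            ofReal_integral_norm_eq_lintegral_enorm (hhi m)]
      _ ≤ ENNReal.ofReal (C * M) := by
          rw [ENNReal.ofReal_mul hC0]
          exact mul_le_mul_right (ENNReal.ofReal_le_ofReal (hhM m)) _
  have gsg : ∀ i l, Gd Ω T χ (fun m => sg (σ m) i l) := by
    intro i l
    refine Gd.of_L2 hχ (M := M) (fun m => ?_) (fun m => ?_) ?_
    · have e : sg (σ m) i l = fun y => 1 / 2 * ((fun z => σ m z (l, i)) +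
          fun z => σ m z (i, l)) y := funext fun y => sg_eq (σ m) i l y
      rw [e]
      exact ((memLp_comp (hσ m) (l, i)).add (memLp_comp (hσ m) (i, l))).const_mul (1 / 2 : ℝ)
    · exact (eLpNorm_mono (sg_abs (σ m) i l)).trans (hσM m)
    · intro ψ hψ
      have mψ : MemLp ψ 2 volume := hψ.smooth.continuous.memLp_of_hasCompactSupport hψ.cpt
      have e1 : ∀ m, ∫ z, sg (σ m) i l z * ψ z =
          1 / 2 * ((∫ z, σ m z (l, i) * ψ z) + ∫ z, σ m z (i, l) * ψ z) := by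
        intro m
        have e2 : ∀ z, sg (σ m) i l z * ψ z =
            1 / 2 * (σ m z (l, i) * ψ z + σ m z (i, l) * ψ z) := by
          intro z
          rw [sg_eq]
          ring
        simp only [e2]
        rw [integral_const_mul, integral_add (int_mul2 (memLp_comp (hσ m) (l, i)) mψ)
          (int_mul2 (memLp_comp (hσ m) (i, l)) mψ)]
      simp only [e1]
      simpa using ((hσw ψ hψ (l, i)).add (hσw ψ hψ (i, l))).const_mul (1 / 2 : ℝ)
  -- the remainder, entry by entry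
  have hCM : ∀ p : Fin n × Fin n, CM S (fun m z =>
      (χ z • W m z - KK (kap c μ (ε m)) (fun y => χ y • σ m y) z) p) := by
    rintro ⟨i, k⟩
    have T1 : CM S (fun m z => XX χ (w m) (W m) k i z -
        cv (Kp μ (ε m) (ε m) []) (XX χ (w m) (W m) k i) z) := by
      refine CM.of_L2 (fun m => ?_) ?_
      · exact (XX_memLp hχ (hv m) k i).aestronglyMeasurable.sub
          (cv_aesm (Kp_smooth hμ (hε0 m) (hε0 m) []).continuous.aestronglyMeasurable
            (XX_memLp hχ (hv m) k i).aestronglyMeasurable)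
      · have hz : Tendsto (fun m : ℕ => ENNReal.ofReal (1 / ((m : ℝ) + 1))) atTop (𝓝 0) := by
          have := ENNReal.tendsto_ofReal (tendsto_one_div_add_atTop_nhds_zero_nat (𝕜 := ℝ))
          simpa using this
        exact tendsto_of_tendsto_of_tendsto_of_le_of_le tendsto_const_nhds hz
          (fun _ => zero_le) fun m => hεX m (i, k)
    have T2 : CM S (fun m z => cv (Kp μ (ε m) 1 []) (XX χ (w m) (W m) k i) z) := by
      have e1 : ∀ m z, cv (Kp μ (ε m) 1 [k]) (fun y => χ y * w m y i) z =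
          cv (Kp μ (ε m) 1 []) (XX χ (w m) (W m) k i) z := fun m z =>
        (cv_XX hχ (hv m) (Kp_smooth hμ (hε0 m) one_pos [])
          (Kp_smooth hμ (hε0 m) one_pos [k]).continuous k i
          (fun z => Kp_deriv_x hμ (hε0 m) one_pos [] k z) z).symm
      refine CM.congr (f := fun m z => cv (Kp μ (ε m) 1 [k]) (fun y => χ y * w m y i) z) ?_
        fun m z _ => e1 m z
      refine CM.of_L2 (fun m => cv_aesm
        (Kp_smooth hμ (hε0 m) one_pos [k]).continuous.aestronglyMeasurable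
        (mwi t0 i m).aestronglyMeasurable) ?_
      refine tendsto_of_le_mul (C := ENNReal.ofReal ((2 : ℝ) ^ ((n : ℝ) / 2)))
        ENNReal.ofReal_ne_top (fun m => ?_) (hwi t0 i)
      exact (eL2_cv (Kp_smooth hμ (hε0 m) one_pos [k]).continuous.aestronglyMeasurable
        (mwi t0 i m).aestronglyMeasurable).trans (mul_le_mul_left (Kp1_lint hμ (hε0 m) k) _)
    have T3 : ∀ j, CM S (fun m z => cv (PP μ (ε m) [k, j]) (cw χ (w m) i j) z) := by
      intro j
      have mm : ∀ m, MemLp (cw χ (w m) i j) 2 volume := fun m =>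
        (mwi (t0.dx j) i m).sub (mwi (t0.dx i) j m)
      refine CM.of_L2 (fun m => cv_aesm
        (PP_cont hμ (hε0 m) (hε1 m).le [k, j]).aestronglyMeasurable
        (mm m).aestronglyMeasurable) ?_
      have h0 : Tendsto (fun m => eLpNorm (cw χ (w m) i j) 2 volume) atTop (𝓝 0) := by
        have h1 := (hwi (t0.dx j) i).add (hwi (t0.dx i) j)
        rw [add_zero] at h1
        refine tendsto_of_tendsto_of_tendsto_of_le_of_le tendsto_const_nhds h1
          (fun _ => zero_le) fun m => ?_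
        exact eLpNorm_sub_le (mwi (t0.dx j) i m).aestronglyMeasurable
          (mwi (t0.dx i) j m).aestronglyMeasurable (by norm_num)
      refine tendsto_of_le_mul (C := ENNReal.ofReal AE) ENNReal.ofReal_ne_top (fun m => ?_) h0
      exact (hE (ε m) (hε0 m) (hε1 m) [k, j] rfl).2 _ (cw_nice hχ (hv m) i j).1 (mm m)
    have T4 : CM S (fun m z => cv (PP μ (ε m) [k, i]) (dd χ (w m)) z) := by
      have e : ∀ m, dd χ (w m) = ∑ p, fun y => dx p χ y * w m y p := by
        intro m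
        funext y
        simp [dd]
      have mm : ∀ m, MemLp (dd χ (w m)) 2 volume := fun m => by
        rw [e m]
        exact memLp_finsetSum' Finset.univ fun p _ => mwi (t0.dx p) p m
      refine CM.of_L2 (fun m => cv_aesm
        (PP_cont hμ (hε0 m) (hε1 m).le [k, i]).aestronglyMeasurable
        (mm m).aestronglyMeasurable) ?_
      have h0 : Tendsto (fun m => eLpNorm (dd χ (w m)) 2 volume) atTop (𝓝 0) := by
        have h1 : Tendsto (fun m => ∑ p, eLpNorm (fun y => dx p χ y * w m y p) 2 volume)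
            atTop (𝓝 0) := by
          have := tendsto_finsetSum Finset.univ
            fun p (_ : p ∈ Finset.univ) => hwi (t0.dx p) p
          simpa using this
        refine tendsto_of_tendsto_of_tendsto_of_le_of_le tendsto_const_nhds h1
          (fun _ => zero_le) fun m => ?_
        simp only []
        rw [e m]
        exact eLpNorm_sum_le (fun p _ => (mwi (t0.dx p) p m).aestronglyMeasurable) (by norm_num)
      refine tendsto_of_le_mul (C := ENNReal.ofReal AE) ENNReal.ofReal_ne_top (fun m => ?_) h0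
      exact (hE (ε m) (hε0 m) (hε1 m) [k, i] rfl).2 _ (dd_nice hχ (hv m)).1 (mm m)
    have T5 : ∀ j, CM S (fun m z => cLow χ μ c (om (W m) i j) (fun y => h m y i)
        (fun y => h m y j) (sg (σ m) i) (sg (σ m) j) i j [k, j]
          (fun L φ g => cv (RR μ (ε m) L) (fun y => φ y * g y) z)) := fun j =>
      cLow_cm hχ (om := fun m => om (W m) i j) (hi := fun m y => h m y i)
        (hj := fun m y => h m y j) (si := fun m => sg (σ m) i) (sj := fun m => sg (σ m) j)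
        (gom i j) (ghi i) (ghi j) (gsg i) (gsg j) hμ hL c hεε hεt i j rfl hSS
    have T6 : CM S (fun m z => dx k χ z * w m z i) :=
      CM.of_L2 (fun m => (mwi (t0.dx k) i m).aestronglyMeasurable) (hwi (t0.dx k) i)
    have TT := (((((T1.add T2).sub (CM.sum Finset.univ fun j _ => T5 j)).sub
      (CM.sum Finset.univ fun j _ => T3 j)).sub T4).sub T6)
    refine TT.congr fun m z _ => ?_
    have e1 := rep_id hχ (hv m) (hhi m) (hσ m) (hV' m) hμ (hε0 m) (hε1 m).le k i z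
    have e2 := kap_sum (c := c) hχ (hσ m) hμ (hε0 m) (hε1 m).le i k z
    have e3 : (χ z • W m z - KK (kap c μ (ε m)) (fun y => χ y • σ m y) z) (i, k) =
        χ z * W m z (i, k) - ∑ q, cv (kap c μ (ε m) (i, k) q) (fun y => χ y * σ m y q) z := by
      simp [KK]
    rw [e3, e2]
    rw [Finset.sum_add_distrib, Finset.sum_add_distrib] at e1
    have e4 : XX χ (w m) (W m) k i z = dx k χ z * w m z i + χ z * W m z (i, k) := rfl
    rw [e4]
    linarith
  intro s hs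
  have hfin := (CM.sum Finset.univ fun p (_ : p ∈ Finset.univ) => (hCM p).abs) s hs
  refine tendsto_of_tendsto_of_tendsto_of_le_of_le tendsto_const_nhds hfin (fun _ => zero_le)
    fun m => measure_mono ?_
  rintro z ⟨hz, h1⟩
  refine ⟨hz, ?_⟩
  rw [abs_of_nonneg (Finset.sum_nonneg fun _ _ => abs_nonneg _)]
  exact h1.trans_le (norm_le_sum_abs _)

end Pool.Agent.Helper37.Jef
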