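import Mathlib

set_option autoImplicit false

namespace Pool.Agent.Helper37.Mader

open Finset

variable {V : Type} [Fintype V] [DecidableEq V] (G : SimpleGraph V)

open Classical in
/-- The outer neighbourhood of a vertex set. -/
noncomputable def nb (A : Finset V) : Finset V :=
  univ.filter (fun v => v ∉ A ∧ ∃ a ∈ A, G.Adj a v)

open Classical in
/-- The vertices outside a set and its outer neighbourhood. -/
noncomputable def far (A : Finset V) : Finset V :=
  univ.filter (fun v => v ∉ A ∧ ∀ a ∈ A, ¬ G.Adj a v)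

theorem mem_nb {A : Finset V} {v : V} : v ∈ nb G A ↔ v ∉ A ∧ ∃ a ∈ A, G.Adj a v := by
  simp [nb]

theorem mem_far {A : Finset V} {v : V} : v ∈ far G A ↔ v ∉ A ∧ ∀ a ∈ A, ¬ G.Adj a v := by
  simp [far]

theorem tri (A : Finset V) (v : V) :
    (v ∈ A ∧ v ∉ nb G A ∧ v ∉ far G A) ∨ (v ∉ A ∧ v ∈ nb G A ∧ v ∉ far G A) ∨
      (v ∉ A ∧ v ∉ nb G A ∧ v ∈ far G A) := by
  by_cases h : v ∈ A
  · left; simp [mem_nb, mem_far, h]
  · by_cases h' : ∃ a ∈ A, G.Adj a v
    · right; left
      refine ⟨h, mem_nb G |>.2 ⟨h, h'⟩, fun hf => ?_⟩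
      obtain ⟨a, ha, hav⟩ := h'
      exact (mem_far G |>.1 hf).2 a ha hav
    · right; right
      refine ⟨h, fun hn => h' (mem_nb G |>.1 hn).2, mem_far G |>.2 ⟨h, ?_⟩⟩
      push Not at h'
      exact h'

theorem card_ind (X : Finset V) : X.card = ∑ v : V, if v ∈ X then 1 else 0 := by
  simp

theorem card_parts (A : Finset V) :
    A.card + (nb G A).card + (far G A).card = Fintype.card V := by
  rw [card_ind A, card_ind (nb G A), card_ind (far G A), ← sum_add_distrib, ← sum_add_distrib,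
    ← Finset.card_univ, card_eq_sum_ones]
  refine sum_congr rfl fun v _ => ?_
  rcases tri G A v with ⟨h1, h2, h3⟩ | ⟨h1, h2, h3⟩ | ⟨h1, h2, h3⟩ <;> simp [h1, h2, h3]

theorem far_union (A B : Finset V) : far G (A ∪ B) = far G A ∩ far G B := by
  ext v
  simp only [mem_far, mem_union, mem_inter]
  constructor
  · rintro ⟨h1, h2⟩
    exact ⟨⟨fun h => h1 (Or.inl h), fun a ha => h2 a (Or.inl ha)⟩,
      ⟨fun h => h1 (Or.inr h), fun a ha => h2 a (Or.inr ha)⟩⟩
  · rintro ⟨⟨h1, h2⟩, ⟨h3, h4⟩⟩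
    exact ⟨fun h => h.elim h1 h3, fun a ha => ha.elim (h2 a) (h4 a)⟩

theorem far_anti {A B : Finset V} (h : A ⊆ B) : far G B ⊆ far G A := by
  intro v hv
  rw [mem_far] at *
  exact ⟨fun h' => hv.1 (h h'), fun a ha => hv.2 a (h ha)⟩

theorem nb_inter_subset (A B : Finset V) :
    nb G (A ∩ B) ⊆ (A ∩ nb G B) ∪ (nb G A ∩ B) ∪ (nb G A ∩ nb G B) := by
  intro v hv
  rw [mem_nb] at hv
  obtain ⟨h1, a, ha, hav⟩ := hv
  rw [mem_inter] at ha h1
  have hA : v ∈ A ∨ v ∈ nb G A := by
    by_cases h : v ∈ A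
    · exact Or.inl h
    · exact Or.inr (mem_nb G |>.2 ⟨h, a, ha.1, hav⟩)
  have hB : v ∈ B ∨ v ∈ nb G B := by
    by_cases h : v ∈ B
    · exact Or.inl h
    · exact Or.inr (mem_nb G |>.2 ⟨h, a, ha.2, hav⟩)
  simp only [mem_union, mem_inter]
  tauto

theorem card_R (A B : Finset V) :
    ((A ∩ nb G B) ∪ (nb G A ∩ B) ∪ (nb G A ∩ nb G B)).card + (nb G (A ∪ B)).card =
      (nb G A).card + (nb G B).card := by
  rw [card_ind, card_ind (nb G (A ∪ B)), card_ind (nb G A), card_ind (nb G B),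
    ← sum_add_distrib, ← sum_add_distrib]
  refine sum_congr rfl fun v _ => ?_
  have hfar : v ∈ far G (A ∪ B) ↔ v ∈ far G A ∧ v ∈ far G B := by
    rw [far_union, mem_inter]
  have hun : v ∈ A ∪ B ↔ v ∈ A ∨ v ∈ B := mem_union
  have hR : v ∈ (A ∩ nb G B) ∪ (nb G A ∩ B) ∪ (nb G A ∩ nb G B) ↔
      ((v ∈ A ∧ v ∈ nb G B) ∨ (v ∈ nb G A ∧ v ∈ B)) ∨ (v ∈ nb G A ∧ v ∈ nb G B) := by
    simp only [mem_union, mem_inter]
  rcases tri G (A ∪ B) v with ⟨h1, h2, h3⟩ | ⟨h1, h2, h3⟩ | ⟨h1, h2, h3⟩ <;>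
  rcases tri G A v with ⟨a1, a2, a3⟩ | ⟨a1, a2, a3⟩ | ⟨a1, a2, a3⟩ <;>
  rcases tri G B v with ⟨b1, b2, b3⟩ | ⟨b1, b2, b3⟩ | ⟨b1, b2, b3⟩ <;>
  simp_all

/-- Fragments. -/
structure Frag (k : ℕ) (A : Finset V) : Prop where
  ne : A.Nonempty
  card : (nb G A).card = k
  hfar : (far G A).Nonempty

/-- Global `k`-connectivity in terms of neighbourhoods. -/
def KConn (k : ℕ) : Prop :=
  ∀ A : Finset V, A.Nonempty → (far G A).Nonempty → k ≤ (nb G A).card

variable {G} {k : ℕ}

theorem nb_far_subset (A : Finset V) : nb G (far G A) ⊆ nb G A := by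
  intro v hv
  rw [mem_nb] at hv
  obtain ⟨h1, a, ha, hav⟩ := hv
  rcases tri G A v with ⟨h, -, -⟩ | ⟨-, h, -⟩ | ⟨-, -, h⟩
  · exact absurd hav.symm ((mem_far G |>.1 ha).2 v h)
  · exact h
  · exact absurd h h1

theorem subset_far_far (A : Finset V) : A ⊆ far G (far G A) := by
  intro v hv
  rw [mem_far]
  refine ⟨fun h => (mem_far G |>.1 h).1 hv, fun a ha hav => ?_⟩
  exact (mem_far G |>.1 ha).2 v hv hav.symm

theorem Frag.nb_far' (hK : KConn G k) {A : Finset V} (hA : Frag G k A) :
    nb G (far G A) = nb G A := by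
  apply eq_of_subset_of_card_le (nb_far_subset A)
  rw [hA.card]
  exact hK _ hA.hfar (hA.ne.mono (subset_far_far A))

theorem Frag.far_far' (hK : KConn G k) {A : Finset V} (hA : Frag G k A) :
    far G (far G A) = A := by
  apply Subset.antisymm _ (subset_far_far A)
  intro v hv
  have h := hA.nb_far' hK
  rcases tri G A v with ⟨h1, -, -⟩ | ⟨-, h1, -⟩ | ⟨-, -, h1⟩
  · exact h1
  · rw [← h] at h1
    rcases tri G (far G A) v with ⟨h2, h3, h4⟩ | ⟨h2, h3, h4⟩ | ⟨h2, h3, h4⟩
    · exact absurd hv h4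
    · exact absurd hv h4
    · exact absurd h1 h3
  · rw [mem_far] at hv
    exact absurd h1 hv.1

theorem Frag.farFrag (hK : KConn G k) {A : Finset V} (hA : Frag G k A) :
    Frag G k (far G A) :=
  ⟨hA.hfar, by rw [hA.nb_far' hK, hA.card], by rw [hA.far_far' hK]; exact hA.ne⟩

theorem fact1 (hK : KConn G k) {A B : Finset V} (hA : Frag G k A) (hB : Frag G k B)
    (h1 : (A ∩ B).Nonempty) (h2 : (far G A ∩ far G B).Nonempty) :
    Frag G k (A ∩ B) ∧ Frag G k (A ∪ B) ∧
      nb G (A ∩ B) = (A ∩ nb G B) ∪ (nb G A ∩ B) ∪ (nb G A ∩ nb G B) := by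
  have hu : k ≤ (nb G (A ∪ B)).card :=
    hK _ (hA.ne.mono subset_union_left) (by rw [far_union]; exact h2)
  have hfi : (far G (A ∩ B)).Nonempty := hA.hfar.mono (far_anti G inter_subset_left)
  have hi : k ≤ (nb G (A ∩ B)).card := hK _ h1 hfi
  have hR := card_R G A B
  rw [hA.card, hB.card] at hR
  have hle := card_le_card (nb_inter_subset G A B)
  refine ⟨⟨h1, by omega, hfi⟩, ⟨hA.ne.mono subset_union_left, by omega, ?_⟩, ?_⟩
  · rw [far_union]; exact h2
  · exact eq_of_subset_of_card_le (nb_inter_subset G A B) (by omega)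

theorem card_three (A B : Finset V) (X : Finset V) :
    X.card = (X ∩ B).card + (X ∩ nb G B).card + (X ∩ far G B).card := by
  rw [card_ind X, card_ind (X ∩ B), card_ind (X ∩ nb G B), card_ind (X ∩ far G B),
    ← sum_add_distrib, ← sum_add_distrib]
  refine sum_congr rfl fun v _ => ?_
  rcases tri G B v with ⟨h1, h2, h3⟩ | ⟨h1, h2, h3⟩ | ⟨h1, h2, h3⟩ <;>
    by_cases h : v ∈ X <;> simp [h, h1, h2, h3]

theorem card_R' (A B : Finset V) :
    ((A ∩ nb G B) ∪ (nb G A ∩ B) ∪ (nb G A ∩ nb G B)).card =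
      (nb G B ∩ A).card + (nb G A ∩ B).card + (nb G A ∩ nb G B).card := by
  rw [card_ind, card_ind (nb G B ∩ A), card_ind (nb G A ∩ B), card_ind (nb G A ∩ nb G B),
    ← sum_add_distrib, ← sum_add_distrib]
  refine sum_congr rfl fun v _ => ?_
  rcases tri G A v with ⟨a1, a2, a3⟩ | ⟨a1, a2, a3⟩ | ⟨a1, a2, a3⟩ <;>
  rcases tri G B v with ⟨b1, b2, b3⟩ | ⟨b1, b2, b3⟩ | ⟨b1, b2, b3⟩ <;>
  simp [a1, a2, a3, b1, b2, b3]

theorem fact2 (hK : KConn G k) {A B : Finset V} (hA : Frag G k A) (hB : Frag G k B)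
    (h1 : (A ∩ B).Nonempty) (h2 : (far G A ∩ far G B).Nonempty)
    (h3 : (A ∩ far G B).Nonempty) (h4 : (far G A ∩ B).Nonempty) :
    (nb G A ∩ B).card = (nb G A ∩ far G B).card ∧
    (nb G B ∩ A).card = (nb G B ∩ far G A).card ∧
    (nb G B ∩ A).card = (nb G A ∩ B).card := by
  have e1 : ((A ∩ nb G B) ∪ (nb G A ∩ B) ∪ (nb G A ∩ nb G B)).card = k := by
    have := fact1 hK hA hB h1 h2
    rw [← this.2.2]; exact this.1.card
  have hB' := hB.farFrag hK
  have e2 : ((A ∩ nb G (far G B)) ∪ (nb G A ∩ far G B) ∪ (nb G A ∩ nb G (far G B))).card = k := by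
    have := fact1 hK hA hB' h3 (by rw [hB.far_far' hK]; exact h4)
    rw [← this.2.2]; exact this.1.card
  rw [card_R' (G := G) A B] at e1
  rw [card_R' (G := G) A (far G B), hB.nb_far' hK] at e2
  have e3 := card_three (G := G) A B (nb G A)
  have e4 := card_three (G := G) B A (nb G B)
  rw [hA.card] at e3
  rw [hB.card] at e4
  rw [inter_comm (nb G B) (nb G A)] at e4
  omega

/-- Triple covering by fragments. -/
def Crit3 (G : SimpleGraph V) (k : ℕ) : Prop :=
  ∀ x y z : V, ∃ A : Finset V, Frag G k A ∧ x ∈ nb G A ∧ y ∈ nb G A ∧ z ∈ nb G A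

theorem subset_nb_of_inter_empty {A B : Finset V} (h1 : ¬ (A ∩ B).Nonempty)
    (h2 : ¬ (A ∩ far G B).Nonempty) : A ⊆ nb G B := by
  intro v hv
  rcases tri G B v with ⟨h, -, -⟩ | ⟨-, h, -⟩ | ⟨-, -, h⟩
  · exact absurd ⟨v, mem_inter.2 ⟨hv, h⟩⟩ h1
  · exact h
  · exact absurd ⟨v, mem_inter.2 ⟨hv, h⟩⟩ h2

theorem lemma1 (hK : KConn G k) (hC : Crit3 G k) (x y : V) :
    ∃ B : Finset V, Frag G k B ∧ B.card ≤ k ∧ x ∈ nb G B ∧ y ∈ nb G B := by
  classical
  let P : Finset (Finset V) := univ.filter (fun A => Frag G k A ∧ x ∈ nb G A ∧ y ∈ nb G A)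
  have hP : P.Nonempty := by
    obtain ⟨A, hA, hx, hy, -⟩ := hC x y y
    exact ⟨A, by simp [P, hA, hx, hy]⟩
  obtain ⟨A, hAP, hmin⟩ := exists_min_image P card hP
  have hmin' : ∀ B : Finset V, Frag G k B → x ∈ nb G B → y ∈ nb G B → A.card ≤ B.card :=
    fun B h1 h2 h3 => hmin B (by simp [P, h1, h2, h3])
  obtain ⟨hA, hx, hy⟩ : Frag G k A ∧ x ∈ nb G A ∧ y ∈ nb G A := by
    simpa [P] using hAP
  refine ⟨A, hA, ?_, hx, hy⟩
  by_contra hlt
  push Not at hlt
  obtain ⟨z, hz⟩ := hA.ne
  obtain ⟨B, hB, hxB, hyB, hzB⟩ := hC x y z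
  have hzB' : z ∉ B := (mem_nb G |>.1 hzB).1
  have hzF : z ∉ far G B := by
    rcases tri G B z with ⟨-, h, -⟩ | ⟨-, -, h⟩ | ⟨-, h, -⟩
    · exact absurd hzB h
    · exact h
    · exact absurd hzB h
  have hfA := hA.farFrag hK
  have hfB := hB.farFrag hK
  have hnbA := hA.nb_far' hK
  have hnbB := hB.nb_far' hK
  -- uncrossing with `B`
  have c1 : ¬ ((A ∩ B).Nonempty ∧ (far G A ∩ far G B).Nonempty) := by
    rintro ⟨h1, h2⟩
    obtain ⟨f1, -, f2⟩ := fact1 hK hA hB h1 h2
    have hle := hmin' (A ∩ B) f1 (by rw [f2]; simp [hx, hxB]) (by rw [f2]; simp [hy, hyB])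
    have hss : A ∩ B ⊂ A := by
      refine ⟨inter_subset_left, fun h => hzB' ?_⟩
      exact (mem_inter.1 (h hz)).2
    have := card_lt_card hss
    omega
  have c2 : ¬ ((A ∩ far G B).Nonempty ∧ (far G A ∩ B).Nonempty) := by
    rintro ⟨h1, h2⟩
    obtain ⟨f1, -, f2⟩ := fact1 hK hA hfB h1 (by rw [hB.far_far' hK]; exact h2)
    rw [hnbB] at f2
    have hle := hmin' (A ∩ far G B) f1 (by rw [f2]; simp [hx, hxB]) (by rw [f2]; simp [hy, hyB])
    have hss : A ∩ far G B ⊂ A := by
      refine ⟨inter_subset_left, fun h => hzF ?_⟩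
      exact (mem_inter.1 (h hz)).2
    have := card_lt_card hss
    omega
  have hAc : ¬ A.card ≤ k := by omega
  have hfAc : ¬ (far G A).card ≤ k := by
    intro h
    have := hmin' (far G A) hfA (by rw [hnbA]; exact hx) (by rw [hnbA]; exact hy)
    omega
  have hBc : ¬ B.card ≤ k := by
    intro h
    have := hmin' B hB hxB hyB
    omega
  have hfBc : ¬ (far G B).card ≤ k := by
    intro h
    have := hmin' (far G B) hfB (by rw [hnbB]; exact hxB) (by rw [hnbB]; exact hyB)
    omega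
  by_cases q1 : (A ∩ B).Nonempty
  · have q2 : ¬ (far G A ∩ far G B).Nonempty := fun h => c1 ⟨q1, h⟩
    by_cases q3 : (far G A ∩ B).Nonempty
    · have q4 : ¬ (A ∩ far G B).Nonempty := fun h => c2 ⟨h, q3⟩
      apply hfBc
      have := card_le_card (subset_nb_of_inter_empty (G := G) (A := far G B) (B := A)
        (by rwa [inter_comm]) (by rwa [inter_comm]))
      rwa [hA.card] at this
    · apply hfAc
      have := card_le_card (subset_nb_of_inter_empty (G := G) (A := far G A) (B := B) q3 q2)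
      rwa [hB.card] at this
  · by_cases q3 : (A ∩ far G B).Nonempty
    · have q4 : ¬ (far G A ∩ B).Nonempty := fun h => c2 ⟨q3, h⟩
      apply hBc
      have := card_le_card (subset_nb_of_inter_empty (G := G) (A := B) (B := A)
        (by rwa [inter_comm]) (by rwa [inter_comm]))
      rwa [hA.card] at this
    · apply hAc
      have := card_le_card (subset_nb_of_inter_empty (G := G) (A := A) (B := B) q1 q3)
      rwa [hB.card] at this

/-- One third of the symmetric statement in `lemma2`. -/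
theorem lemma2a (hK : KConn G k) {A B C : Finset V} (hA : Frag G k A) (hB : Frag G k B)
    (hC : Frag G k C) (hI : (A ∩ B ∩ C).Nonempty)
    (hO : (far G A ∩ far G B ∩ far G C).Nonempty)
    (hQA : (A ∩ far G B ∩ far G C).Nonempty) (hQB : (far G A ∩ B ∩ far G C).Nonempty)
    (hQC : (far G A ∩ far G B ∩ C).Nonempty) :
    nb G C ∩ A = nb G C ∩ B ∧ nb G C ∩ far G A = nb G C ∩ far G B ∧
      (nb G C ∩ A).card = (nb G C ∩ far G A).card := by
  have mono : ∀ {X Y : Finset V}, X.Nonempty → X ⊆ Y → Y.Nonempty := fun h h' => h.mono h'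
  have hAB := fact1 hK hA hB (mono hI inter_subset_left) (mono hO inter_subset_left)
  have hP := hAB.2.1
  have fP := fact2 hK hP hC
    (mono hI (by intro v; simp only [mem_inter, mem_union]; tauto))
    (by rw [far_union]; exact hO)
    (mono hQA (by intro v; simp only [mem_inter, mem_union]; tauto))
    (by rw [far_union]; exact hQC)
  have fA := fact2 hK hA hC
    (mono hI (by intro v; simp only [mem_inter]; tauto))
    (mono hO (by intro v; simp only [mem_inter]; tauto))
    (mono hQA (by intro v; simp only [mem_inter]; tauto))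
    (mono hQC (by intro v; simp only [mem_inter]; tauto))
  have fB := fact2 hK hB hC
    (mono hI (by intro v; simp only [mem_inter]; tauto))
    (mono hO (by intro v; simp only [mem_inter]; tauto))
    (mono hQB (by intro v; simp only [mem_inter]; tauto))
    (mono hQC (by intro v; simp only [mem_inter]; tauto))
  rw [far_union] at fP
  have sA : nb G C ∩ A ⊆ nb G C ∩ (A ∪ B) := inter_subset_inter_left subset_union_left
  have sB : nb G C ∩ B ⊆ nb G C ∩ (A ∪ B) := inter_subset_inter_left subset_union_right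
  have tA : nb G C ∩ (far G A ∩ far G B) ⊆ nb G C ∩ far G A :=
    inter_subset_inter_left inter_subset_left
  have tB : nb G C ∩ (far G A ∩ far G B) ⊆ nb G C ∩ far G B :=
    inter_subset_inter_left inter_subset_right
  have cA := card_le_card sA
  have cB := card_le_card sB
  have dA := card_le_card tA
  have dB := card_le_card tB
  have eA := eq_of_subset_of_card_le sA (by omega)
  have eB := eq_of_subset_of_card_le sB (by omega)
  have gA := eq_of_subset_of_card_le tA (by omega)
  have gB := eq_of_subset_of_card_le tB (by omega)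
  exact ⟨eA.trans eB.symm, gA.symm.trans gB, fA.2.1⟩

theorem mem_iff_of_inter_eq {X Y Z W : Finset V} (h : X ∩ Y = Z ∩ W) (v : V) :
    (v ∈ X ∧ v ∈ Y) ↔ (v ∈ Z ∧ v ∈ W) := by
  rw [← mem_inter, h, mem_inter]

theorem lemma2 (hK : KConn G k) {A B C : Finset V} (hA : Frag G k A) (hB : Frag G k B)
    (hC : Frag G k C) (hI : (A ∩ B ∩ C).Nonempty)
    (hO : (far G A ∩ far G B ∩ far G C).Nonempty)
    (hQA : (A ∩ far G B ∩ far G C).Nonempty) (hQB : (far G A ∩ B ∩ far G C).Nonempty)
    (hQC : (far G A ∩ far G B ∩ C).Nonempty) :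
    nb G A = nb G B ∧ nb G A = nb G C := by
  have mono : ∀ {X Y : Finset V}, X.Nonempty → X ⊆ Y → Y.Nonempty := fun h h' => h.mono h'
  obtain ⟨c1, c2, c3⟩ := lemma2a hK hA hB hC hI hO hQA hQB hQC
  obtain ⟨a1, a2, a3⟩ := lemma2a hK hB hC hA
    (mono hI (by intro v; simp only [mem_inter]; tauto))
    (mono hO (by intro v; simp only [mem_inter]; tauto))
    (mono hQB (by intro v; simp only [mem_inter]; tauto))
    (mono hQC (by intro v; simp only [mem_inter]; tauto))
    (mono hQA (by intro v; simp only [mem_inter]; tauto))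
  obtain ⟨b1, b2, b3⟩ := lemma2a hK hA hC hB
    (mono hI (by intro v; simp only [mem_inter]; tauto))
    (mono hO (by intro v; simp only [mem_inter]; tauto))
    (mono hQA (by intro v; simp only [mem_inter]; tauto))
    (mono hQC (by intro v; simp only [mem_inter]; tauto))
    (mono hQB (by intro v; simp only [mem_inter]; tauto))
  have fAB := fact2 hK hA hB
    (mono hI (by intro v; simp only [mem_inter]; tauto))
    (mono hO (by intro v; simp only [mem_inter]; tauto))
    (mono hQA (by intro v; simp only [mem_inter]; tauto))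
    (mono hQB (by intro v; simp only [mem_inter]; tauto))
  have fAC := fact2 hK hA hC
    (mono hI (by intro v; simp only [mem_inter]; tauto))
    (mono hO (by intro v; simp only [mem_inter]; tauto))
    (mono hQA (by intro v; simp only [mem_inter]; tauto))
    (mono hQC (by intro v; simp only [mem_inter]; tauto))
  obtain ⟨gAB, -, gAB'⟩ := fact1 hK hA hB
    (mono hI (by intro v; simp only [mem_inter]; tauto))
    (mono hO (by intro v; simp only [mem_inter]; tauto))
  obtain ⟨gI, -, gI'⟩ := fact1 hK gAB hC hI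
    (mono hO (by
      intro v hv
      simp only [mem_inter] at *
      exact ⟨far_anti G inter_subset_left hv.1.1, hv.2⟩))
  have key : (nb G A ∩ B).card + (nb G B ∩ A).card + (nb G C ∩ A).card +
      (nb G A ∩ nb G B).card ≤ (nb G (A ∩ B ∩ C)).card := by
    rw [gI', gAB']
    rw [card_ind (nb G A ∩ B), card_ind (nb G B ∩ A), card_ind (nb G C ∩ A),
      card_ind (nb G A ∩ nb G B), ← sum_add_distrib, ← sum_add_distrib, ← sum_add_distrib,
      card_ind]
    refine sum_le_sum fun v _ => ?_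
    have m1 := mem_iff_of_inter_eq c1 v
    have m2 := mem_iff_of_inter_eq c2 v
    have m3 := mem_iff_of_inter_eq a1 v
    have m4 := mem_iff_of_inter_eq a2 v
    have m5 := mem_iff_of_inter_eq b1 v
    have m6 := mem_iff_of_inter_eq b2 v
    simp only [mem_union, mem_inter]
    rcases tri G A v with ⟨p1, p2, p3⟩ | ⟨p1, p2, p3⟩ | ⟨p1, p2, p3⟩ <;>
    rcases tri G B v with ⟨q1, q2, q3⟩ | ⟨q1, q2, q3⟩ | ⟨q1, q2, q3⟩ <;>
    rcases tri G C v with ⟨r1, r2, r3⟩ | ⟨r1, r2, r3⟩ | ⟨r1, r2, r3⟩ <;>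
    simp_all
  rw [gI.card] at key
  have e1 := card_three (G := G) A B (nb G A)
  have e2 := card_three (G := G) A C (nb G A)
  rw [hA.card] at e1 e2
  have a2' : (nb G A ∩ far G B).card = (nb G A ∩ far G C).card := by rw [a2]
  have z1 : (nb G A ∩ nb G B).card = k := by omega
  have z2 : (nb G A ∩ nb G C).card = k := by omega
  constructor
  · have h1 : nb G A ∩ nb G B = nb G A :=
      eq_of_subset_of_card_le inter_subset_left (by rw [hA.card, z1])
    have h2 : nb G A ∩ nb G B = nb G B :=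
      eq_of_subset_of_card_le inter_subset_right (by rw [hB.card, z1])
    exact h1.symm.trans h2
  · have h1 : nb G A ∩ nb G C = nb G A :=
      eq_of_subset_of_card_le inter_subset_left (by rw [hA.card, z2])
    have h2 : nb G A ∩ nb G C = nb G C :=
      eq_of_subset_of_card_le inter_subset_right (by rw [hC.card, z2])
    exact h1.symm.trans h2

/-- The closure of a vertex set. -/
noncomputable def cl (G : SimpleGraph V) (A : Finset V) : Finset V := A ∪ nb G A

theorem mem_far_of_not_cl {A : Finset V} {v : V} (h : v ∉ cl G A) : v ∈ far G A := by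
  simp only [cl, mem_union, not_or] at h
  rcases tri G A v with ⟨h1, -, -⟩ | ⟨-, h1, -⟩ | ⟨-, -, h1⟩
  · exact absurd h1 h.1
  · exact absurd h1 h.2
  · exact h1

theorem not_cl_of_mem_far {A : Finset V} {v : V} (h : v ∈ far G A) : v ∉ cl G A := by
  simp only [cl, mem_union, not_or]
  rcases tri G A v with ⟨-, -, h1⟩ | ⟨-, -, h1⟩ | ⟨h1, h2, -⟩
  · exact absurd h h1
  · exact absurd h h1
  · exact ⟨h1, h2⟩

theorem cl_card_le (A : Finset V) : (cl G A).card ≤ A.card + (nb G A).card :=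
  card_union_le _ _

/-- Small fragments containing `v`, least among the fragments containing `v` with the same cut. -/
def Red (G : SimpleGraph V) (k : ℕ) (v : V) (B : Finset V) : Prop :=
  Frag G k B ∧ v ∈ B ∧ B.card ≤ k ∧
    ∀ B' : Finset V, Frag G k B' → v ∈ B' → nb G B' = nb G B → B ⊆ B'

theorem exists_red (hK : KConn G k) {v : V} {B : Finset V} (hB : Frag G k B) (hv : v ∈ B)
    (hc : B.card ≤ k) : ∃ B', Red G k v B' ∧ nb G B' = nb G B := by
  classical
  let P : Finset (Finset V) := univ.filter (fun A => Frag G k A ∧ v ∈ A ∧ nb G A = nb G B)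
  have hP : P.Nonempty := ⟨B, by simp [P, hB, hv]⟩
  obtain ⟨A, hAP, hmin⟩ := exists_min_image P card hP
  obtain ⟨hA, hvA, hAB⟩ : Frag G k A ∧ v ∈ A ∧ nb G A = nb G B := by simpa [P] using hAP
  have hAc : A.card ≤ B.card := hmin B (by simp [P, hB, hv])
  refine ⟨A, ⟨hA, hvA, by omega, ?_⟩, hAB⟩
  intro B' hB' hvB' hnb
  have hsub : nb G (A ∩ B') ⊆ nb G A := by
    intro u hu
    have h := nb_inter_subset G A B' hu
    rw [hnb] at h
    simp only [mem_union, mem_inter] at h
    tauto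
  have hne : (A ∩ B').Nonempty := ⟨v, mem_inter.2 ⟨hvA, hvB'⟩⟩
  have hfar : (far G (A ∩ B')).Nonempty := hA.hfar.mono (far_anti G inter_subset_left)
  have hk := hK _ hne hfar
  have heq : nb G (A ∩ B') = nb G A :=
    eq_of_subset_of_card_le hsub (by rw [hA.card]; exact hk)
  have hle : A.card ≤ (A ∩ B').card :=
    hmin (A ∩ B') (by simp [P, heq, hAB, hvA, hvB', (⟨hne, by rw [heq, hA.card], hfar⟩ : Frag G k (A ∩ B'))])
  have := eq_of_subset_of_card_le (inter_subset_left : A ∩ B' ⊆ A) hle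
  rw [← this]
  exact inter_subset_right

open Classical in
/-- The union of all reduced small fragments at `v`. -/
noncomputable def U (G : SimpleGraph V) (k : ℕ) (v : V) : Finset V :=
  univ.filter (fun u => ∃ B, Red G k v B ∧ u ∈ B)

theorem mem_U {v u : V} : u ∈ U G k v ↔ ∃ B, Red G k v B ∧ u ∈ B := by
  simp [U]

theorem Red.cl_card {v : V} {B : Finset V} (h : Red G k v B) : (cl G B).card ≤ 2 * k := by
  have h1 := cl_card_le (G := G) B
  rw [h.1.card] at h1
  have := h.2.2.1
  omega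

theorem three_aux (hK : KConn G k) (hn : 6 * k < Fintype.card V) {v : V} {B1 B2 B3 : Finset V}
    (h1 : Red G k v B1) (h2 : Red G k v B2) (h3 : Red G k v B3) {u1 u2 u3 : V}
    (m1 : u1 ∈ B1) (m2 : u2 ∈ B2) (m3 : u3 ∈ B3) :
    u1 ∈ cl G B2 ∨ u1 ∈ cl G B3 ∨ u2 ∈ cl G B1 ∨ u2 ∈ cl G B3 ∨ u3 ∈ cl G B1 ∨ u3 ∈ cl G B2 := by
  by_contra hcon
  push Not at hcon
  obtain ⟨n12, n13, n21, n23, n31, n32⟩ := hcon
  have hO : ∃ o, o ∉ cl G B1 ∪ cl G B2 ∪ cl G B3 := by
    by_contra hall
    push Not at hall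
    have huniv : cl G B1 ∪ cl G B2 ∪ cl G B3 = univ := by
      ext x; simp only [mem_univ, iff_true]; exact hall x
    have hc1 := card_union_le (cl G B1 ∪ cl G B2) (cl G B3)
    have hc2 := card_union_le (cl G B1) (cl G B2)
    rw [huniv, card_univ] at hc1
    have := h1.cl_card
    have := h2.cl_card
    have := h3.cl_card
    omega
  obtain ⟨o, ho⟩ := hO
  simp only [mem_union, not_or] at ho
  have key := lemma2 hK h1.1 h2.1 h3.1
    ⟨v, by simp [h1.2.1, h2.2.1, h3.2.1]⟩
    ⟨o, by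
      simp only [mem_inter]
      exact ⟨⟨mem_far_of_not_cl ho.1.1, mem_far_of_not_cl ho.1.2⟩, mem_far_of_not_cl ho.2⟩⟩
    ⟨u1, by
      simp only [mem_inter]
      exact ⟨⟨m1, mem_far_of_not_cl n12⟩, mem_far_of_not_cl n13⟩⟩
    ⟨u2, by
      simp only [mem_inter]
      exact ⟨⟨mem_far_of_not_cl n21, m2⟩, mem_far_of_not_cl n23⟩⟩
    ⟨u3, by
      simp only [mem_inter]
      exact ⟨⟨mem_far_of_not_cl n31, mem_far_of_not_cl n32⟩, m3⟩⟩
  have hsub : B1 ⊆ B2 := h1.2.2.2 B2 h2.1 h2.2.1 key.1.symm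
  exact n12 (by simp [cl, hsub m1])

theorem U_card (hK : KConn G k) (hn : 6 * k < Fintype.card V) (v : V) :
    (U G k v).card ≤ 12 * k := by
  classical
  have hf : ∀ u ∈ U G k v, ∃ B, Red G k v B ∧ u ∈ B := fun u hu => mem_U.1 hu
  choose! f hf using hf
  set W := U G k v with hW
  let D : V → V → ℕ := fun u w => if w ∈ cl G (f u) then 1 else 0
  have hD : ∀ u ∈ W, ∑ w ∈ W, D u w ≤ 2 * k := by
    intro u hu
    calc ∑ w ∈ W, D u w = (W.filter (fun w => w ∈ cl G (f u))).card := by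
          rw [card_filter]
      _ ≤ (cl G (f u)).card := card_le_card (by intro w hw; exact (mem_filter.1 hw).2)
      _ ≤ 2 * k := (hf u hu).1.cl_card
  have hT : ∑ u ∈ W, ∑ w ∈ W, D u w ≤ W.card * (2 * k) := by
    calc ∑ u ∈ W, ∑ w ∈ W, D u w ≤ ∑ _u ∈ W, 2 * k := sum_le_sum hD
      _ = W.card * (2 * k) := by simp
  have hT' : ∑ u ∈ W, ∑ w ∈ W, D w u = ∑ u ∈ W, ∑ w ∈ W, D u w := sum_comm
  set T := ∑ u ∈ W, ∑ w ∈ W, D u w with hTdef
  have h3 : W.card * (W.card * W.card) ≤ 6 * (W.card * T) := by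
    calc W.card * (W.card * W.card) = ∑ _u1 ∈ W, ∑ _u2 ∈ W, ∑ _u3 ∈ W, 1 := by simp
      _ ≤ ∑ u1 ∈ W, ∑ u2 ∈ W, ∑ u3 ∈ W,
          (D u2 u1 + D u3 u1 + D u1 u2 + D u3 u2 + D u1 u3 + D u2 u3) := by
          refine sum_le_sum fun u1 hu1 => sum_le_sum fun u2 hu2 => sum_le_sum fun u3 hu3 => ?_
          have := three_aux hK hn (hf u1 hu1).1 (hf u2 hu2).1 (hf u3 hu3).1
            (hf u1 hu1).2 (hf u2 hu2).2 (hf u3 hu3).2
          simp only [D]
          rcases this with h | h | h | h | h | h <;> simp only [h, if_true] <;> omega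
      _ = 6 * (W.card * T) := by
          simp only [sum_add_distrib]
          have s1 : ∑ u1 ∈ W, ∑ u2 ∈ W, ∑ _u3 ∈ W, D u2 u1 = W.card * T := by
            simp only [sum_const, smul_eq_mul, ← mul_sum]
            rw [hT']
          have s2 : ∑ u1 ∈ W, ∑ _u2 ∈ W, ∑ u3 ∈ W, D u3 u1 = W.card * T := by
            simp only [sum_const, smul_eq_mul, ← mul_sum]
            rw [hT']
          have s3 : ∑ u1 ∈ W, ∑ u2 ∈ W, ∑ _u3 ∈ W, D u1 u2 = W.card * T := by
            simp only [sum_const, smul_eq_mul, ← mul_sum]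
            rfl
          have s4 : ∑ _u1 ∈ W, ∑ u2 ∈ W, ∑ u3 ∈ W, D u3 u2 = W.card * T := by
            simp only [sum_const, smul_eq_mul]
            rw [hT']
          have s5 : ∑ u1 ∈ W, ∑ _u2 ∈ W, ∑ u3 ∈ W, D u1 u3 = W.card * T := by
            simp only [sum_const, smul_eq_mul, ← mul_sum]
            rfl
          have s6 : ∑ _u1 ∈ W, ∑ u2 ∈ W, ∑ u3 ∈ W, D u2 u3 = W.card * T := by
            simp only [sum_const, smul_eq_mul]
            rfl
          rw [s1, s2, s3, s4, s5, s6]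
          ring
  rcases Nat.eq_zero_or_pos W.card with h0 | hpos
  · omega
  · have h4 : W.card * (W.card * W.card) ≤ W.card * (W.card * (12 * k)) := by
      calc W.card * (W.card * W.card) ≤ 6 * (W.card * T) := h3
        _ ≤ 6 * (W.card * (W.card * (2 * k))) := by gcongr
        _ = W.card * (W.card * (12 * k)) := by ring
    exact Nat.le_of_mul_le_mul_left (Nat.le_of_mul_le_mul_left h4 hpos) hpos

theorem nonempty_far_inter {A B : Finset V}
    (h : (cl G A).card + (cl G B).card < Fintype.card V) : (far G A ∩ far G B).Nonempty := by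
  have : ∃ o, o ∉ cl G A ∪ cl G B := by
    by_contra hall
    push Not at hall
    have huniv : cl G A ∪ cl G B = univ := by
      ext x; simp only [mem_univ, iff_true]; exact hall x
    have hc1 := card_union_le (cl G A) (cl G B)
    rw [huniv, card_univ] at hc1
    omega
  obtain ⟨o, ho⟩ := this
  simp only [mem_union, not_or] at ho
  exact ⟨o, mem_inter.2 ⟨mem_far_of_not_cl ho.1, mem_far_of_not_cl ho.2⟩⟩

theorem U_union (hK : KConn G k) (hn : 15 * k < Fintype.card V) (v : V)
    (F : Finset (Finset V)) (hF : ∀ B ∈ F, Red G k v B) (hne : F.Nonempty) :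
    Frag G k (F.biUnion id) ∧ v ∈ F.biUnion id := by
  classical
  induction F using Finset.induction_on with
  | empty => exact absurd hne (by simp)
  | insert B F hB ih =>
    have hRB := hF B (mem_insert_self _ _)
    rcases F.eq_empty_or_nonempty with rfl | hFne
    · simp only [insert_empty_eq, singleton_biUnion, id_eq]
      exact ⟨hRB.1, hRB.2.1⟩
    · obtain ⟨h1, h2⟩ := ih (fun B' hB' => hF B' (mem_insert_of_mem hB')) hFne
      rw [biUnion_insert, id_eq]
      refine ⟨?_, mem_union_left _ hRB.2.1⟩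
      have hsub : F.biUnion id ⊆ U G k v := by
        intro u hu
        rw [mem_biUnion] at hu
        obtain ⟨B', hB', hu'⟩ := hu
        exact mem_U.2 ⟨B', hF B' (mem_insert_of_mem hB'), hu'⟩
      have hcard := (card_le_card hsub).trans (U_card hK (by omega) v)
      have hc1 := cl_card_le (G := G) (F.biUnion id)
      rw [h1.card] at hc1
      have hc2 := hRB.cl_card
      exact (fact1 hK hRB.1 h1 ⟨v, mem_inter.2 ⟨hRB.2.1, h2⟩⟩
        (nonempty_far_inter (by omega))).2.1

theorem clU_card (hK : KConn G k) (hn : 15 * k < Fintype.card V) (v : V) :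
    (cl G (U G k v)).card ≤ 13 * k := by
  classical
  have hU : U G k v = (univ.filter (fun B => Red G k v B)).biUnion id := by
    ext u
    simp [mem_U]
  rcases (univ.filter (fun B => Red G k v B)).eq_empty_or_nonempty with h | h
  · rw [hU, h]
    have : cl G (∅ : Finset V) = ∅ := by
      ext x
      simp [cl, mem_nb]
    simp [this]
  · have := (U_union hK hn v _ (by simp) h).1
    rw [← hU] at this
    have h1 := cl_card_le (G := G) (U G k v)
    rw [this.card] at h1
    have := U_card hK (by omega) v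
    omega

theorem lemma5 (hK : KConn G k) (hC : Crit3 G k) (hn : 15 * k < Fintype.card V)
    {F : Finset V} (hF : Frag G k F) :
    F.card * (far G F).card ≤ k * (13 * k * (13 * k)) := by
  classical
  have hsub : F ×ˢ far G F ⊆
      (nb G F).biUnion (fun s => cl G (U G k s) ×ˢ cl G (U G k s)) := by
    rintro ⟨x, y⟩ hxy
    rw [mem_product] at hxy
    obtain ⟨hx, hy⟩ := hxy
    simp only at hx hy
    obtain ⟨B, hB, hBc, hxB, hyB⟩ := lemma1 hK hC x y
    -- `B` meets the neighbourhood of `F`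
    have hmeet : ∃ s, s ∈ B ∧ s ∈ nb G F := by
      by_contra hno
      push Not at hno
      have side : ∀ {X : Finset V}, Frag G k X → (∀ s ∈ B, s ∉ nb G X) →
          ∀ w, w ∈ far G X → w ∈ nb G B → B ∩ X = ∅ := by
        intro X hX hnoX w hw hwB
        by_contra hne
        have hne' : (B ∩ X).Nonempty := nonempty_iff_ne_empty.2 hne
        have hfar' : (far G (B ∩ X)).Nonempty := hB.hfar.mono (far_anti G inter_subset_left)
        have hs : nb G (B ∩ X) ⊆ nb G B := by
          intro u hu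
          have hu' := nb_inter_subset G B X hu
          simp only [mem_union, mem_inter] at hu'
          rcases hu' with (⟨h1, h2⟩ | ⟨h1, h2⟩) | ⟨h1, h2⟩
          · exact absurd h2 (hnoX u h1)
          · exact h1
          · exact h1
        have heq : nb G (B ∩ X) = nb G B :=
          eq_of_subset_of_card_le hs (by rw [hB.card]; exact hK _ hne' hfar')
        rw [← heq] at hwB
        have hw' := nb_inter_subset G B X hwB
        have t1 : w ∉ X := (mem_far G |>.1 hw).1
        have t2 : w ∉ nb G X := by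
          have := not_cl_of_mem_far hw
          simp only [cl, mem_union, not_or] at this
          exact this.2
        simp only [mem_union, mem_inter] at hw'
        tauto
      have hFf := hF.farFrag hK
      have e1 := side hF hno y hy hyB
      have e2 := side hFf (by rw [hF.nb_far' hK]; exact hno) x
        (by rw [hF.far_far' hK]; exact hx) hxB
      obtain ⟨b, hb⟩ := hB.ne
      rcases tri G F b with ⟨h, -, -⟩ | ⟨-, h, -⟩ | ⟨-, -, h⟩
      · have : b ∈ B ∩ F := mem_inter.2 ⟨hb, h⟩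
        rw [e1] at this; simp at this
      · exact hno b hb h
      · have : b ∈ B ∩ far G F := mem_inter.2 ⟨hb, h⟩
        rw [e2] at this; simp at this
    obtain ⟨s, hsB, hsF⟩ := hmeet
    obtain ⟨B', hB', hnb⟩ := exists_red hK hB hsB hBc
    have hcl : ∀ w, w ∈ nb G B → w ∈ cl G (U G k s) := by
      intro w hw
      rw [← hnb, mem_nb] at hw
      obtain ⟨h1, a, ha, haw⟩ := hw
      by_cases hwU : w ∈ U G k s
      · exact mem_union_left _ hwU
      · refine mem_union_right _ (mem_nb G |>.2 ⟨hwU, a, mem_U.2 ⟨B', hB', ha⟩, haw⟩)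
    rw [mem_biUnion]
    exact ⟨s, hsF, mem_product.2 ⟨hcl x hxB, hcl y hyB⟩⟩
  calc F.card * (far G F).card = (F ×ˢ far G F).card := (card_product _ _).symm
    _ ≤ ((nb G F).biUnion (fun s => cl G (U G k s) ×ˢ cl G (U G k s))).card :=
        card_le_card hsub
    _ ≤ ∑ s ∈ nb G F, (cl G (U G k s) ×ˢ cl G (U G k s)).card := card_biUnion_le
    _ ≤ ∑ _s ∈ nb G F, 13 * k * (13 * k) := by
        refine sum_le_sum fun s _ => ?_
        rw [card_product]
        exact Nat.mul_le_mul (clU_card hK hn s) (clU_card hK hn s)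
    _ = k * (13 * k * (13 * k)) := by rw [sum_const, hF.card, smul_eq_mul]

/-- Small fragments. -/
def Small (G : SimpleGraph V) (k : ℕ) (F : Finset V) : Prop :=
  Frag G k F ∧ F.card * Fintype.card V ≤ 676 * k ^ 3

theorem small_of_far (hK : KConn G k) (hC : Crit3 G k) (hn : 15 * k < Fintype.card V)
    {F : Finset V} (hF : Frag G k F) (h : Fintype.card V ≤ 4 * (far G F).card) :
    Small G k F := by
  refine ⟨hF, ?_⟩
  have h5 := lemma5 hK hC hn hF
  calc F.card * Fintype.card V ≤ F.card * (4 * (far G F).card) := Nat.mul_le_mul_left _ h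
    _ = 4 * (F.card * (far G F).card) := by ring
    _ ≤ 4 * (k * (13 * k * (13 * k))) := Nat.mul_le_mul_left _ h5
    _ = 676 * k ^ 3 := by ring

theorem small_or (hK : KConn G k) (hC : Crit3 G k) (hn : 15 * k < Fintype.card V)
    {F : Finset V} (hF : Frag G k F) : Small G k F ∨ Small G k (far G F) := by
  have hp := card_parts G F
  rw [hF.card] at hp
  rcases le_total F.card (far G F).card with h | h
  · left
    exact small_of_far hK hC hn hF (by omega)
  · right
    refine small_of_far hK hC hn (hF.farFrag hK) ?_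
    rw [hF.far_far' hK]
    omega

theorem small_union (hK : KConn G k) (hC : Crit3 G k) (hn : 15 * k < Fintype.card V)
    (hbig : 10000 * k ^ 3 < Fintype.card V ^ 2)
    {A B : Finset V} (hA : Small G k A) (hB : Small G k B) (hne : (A ∩ B).Nonempty) :
    Small G k (A ∪ B) := by
  have h4 : 4 * (A.card + B.card) < Fintype.card V := by
    by_contra hcon
    push Not at hcon
    have h1 := hA.2
    have h2 := hB.2
    have : Fintype.card V * Fintype.card V ≤ 4 * (A.card + B.card) * Fintype.card V :=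
      Nat.mul_le_mul_right _ hcon
    nlinarith
  have hcA := cl_card_le (G := G) A
  have hcB := cl_card_le (G := G) B
  rw [hA.1.card] at hcA
  rw [hB.1.card] at hcB
  have hU := (fact1 hK hA.1 hB.1 hne (nonempty_far_inter (by omega))).2.1
  refine small_of_far hK hC hn hU ?_
  have hp := card_parts G (A ∪ B)
  rw [hU.card] at hp
  have := card_union_le A B
  omega

theorem main (hk : 0 < k) (hK : KConn G k) (hC : Crit3 G k) (hn : 15 * k < Fintype.card V)
    (hbig : 10000 * k ^ 3 < Fintype.card V ^ 2) : False := by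
  classical
  set n := Fintype.card V with hndef
  let M : Finset (Finset V) :=
    univ.filter (fun A => Small G k A ∧ ∀ B, Small G k B → A ⊆ B → B = A)
  have hMmem : ∀ A, A ∈ M ↔ Small G k A ∧ ∀ B, Small G k B → A ⊆ B → B = A := by
    intro A; simp [M]
  have hmax : ∀ F, Small G k F → ∃ A ∈ M, F ⊆ A := by
    intro F hF
    let P : Finset (Finset V) := univ.filter (fun A => Small G k A ∧ F ⊆ A)
    have hP : P.Nonempty := ⟨F, by simp [P, hF]⟩
    obtain ⟨A, hAP, hA⟩ := exists_max_image P card hP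
    obtain ⟨hAs, hFA⟩ : Small G k A ∧ F ⊆ A := by simpa [P] using hAP
    refine ⟨A, (hMmem A).2 ⟨hAs, fun B hB hAB => ?_⟩, hFA⟩
    have := hA B (by simp [P, hB, hFA.trans hAB])
    exact (eq_of_subset_of_card_le hAB this).symm
  have hdisj : ∀ A ∈ M, ∀ B ∈ M, A ≠ B → Disjoint A B := by
    intro A hA B hB hAB
    rw [hMmem] at hA hB
    by_contra hnd
    have hne : (A ∩ B).Nonempty := by
      rwa [disjoint_iff_inter_eq_empty, ← ne_eq, ← nonempty_iff_ne_empty] at hnd
    have hU := small_union hK hC hn hbig hA.1 hB.1 hne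
    have e1 := hA.2 _ hU subset_union_left
    have e2 := hB.2 _ hU subset_union_right
    exact hAB (e1.symm.trans e2)
  have hsum : ∑ A ∈ M, A.card ≤ n := by
    have : (M.biUnion id).card = ∑ A ∈ M, A.card := by
      rw [card_biUnion]
      · rfl
      · intro A hA B hB hAB
        exact hdisj A hA B hB hAB
    rw [← this, hndef, ← card_univ]
    exact card_le_card (subset_univ _)
  have hMcard : M.card ≤ n := by
    calc M.card = ∑ _A ∈ M, 1 := by simp
      _ ≤ ∑ A ∈ M, A.card := by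
          refine sum_le_sum fun A hA => ?_
          exact card_pos.2 ((hMmem A).1 hA).1.1.ne
      _ ≤ n := hsum
  have hcover : n ^ 3 ≤ ∑ A ∈ M, (A.card + k) ^ 3 := by
    have hsub : (univ : Finset (V × V × V)) ⊆
        M.biUnion (fun A => cl G A ×ˢ cl G A ×ˢ cl G A) := by
      rintro ⟨x, y, z⟩ -
      obtain ⟨A, hA, hx, hy, hz⟩ := hC x y z
      have : ∃ F, Small G k F ∧ nb G F = nb G A := by
        rcases small_or hK hC hn hA with h | h
        · exact ⟨A, h, rfl⟩
        · exact ⟨far G A, h, hA.nb_far' hK⟩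
      obtain ⟨F, hF, hFA⟩ := this
      obtain ⟨B, hB, hFB⟩ := hmax F hF
      have hcl : ∀ w, w ∈ nb G A → w ∈ cl G B := by
        intro w hw
        rw [← hFA, mem_nb] at hw
        obtain ⟨h1, a, ha, haw⟩ := hw
        by_cases hwB : w ∈ B
        · exact mem_union_left _ hwB
        · exact mem_union_right _ (mem_nb G |>.2 ⟨hwB, a, hFB ha, haw⟩)
      rw [mem_biUnion]
      exact ⟨B, hB, by simp [hcl x hx, hcl y hy, hcl z hz]⟩
    calc n ^ 3 = (univ : Finset (V × V × V)).card := by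
          rw [card_univ, Fintype.card_prod, Fintype.card_prod, ← hndef]; ring
      _ ≤ (M.biUnion (fun A => cl G A ×ˢ cl G A ×ˢ cl G A)).card := card_le_card hsub
      _ ≤ ∑ A ∈ M, (cl G A ×ˢ cl G A ×ˢ cl G A).card := card_biUnion_le
      _ ≤ ∑ A ∈ M, (A.card + k) ^ 3 := by
          refine sum_le_sum fun A hA => ?_
          have hc := cl_card_le (G := G) A
          rw [((hMmem A).1 hA).1.1.card] at hc
          rw [card_product, card_product]
          calc (cl G A).card * ((cl G A).card * (cl G A).card)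
              ≤ (A.card + k) * ((A.card + k) * (A.card + k)) := by gcongr
            _ = (A.card + k) ^ 3 := by ring
  have hkey : n ^ 3 * n ^ 2 ≤ 4 * (456976 * k ^ 6) * n + 4 * k ^ 3 * n ^ 2 * n := by
    calc n ^ 3 * n ^ 2 ≤ (∑ A ∈ M, (A.card + k) ^ 3) * n ^ 2 := Nat.mul_le_mul_right _ hcover
      _ = ∑ A ∈ M, (A.card + k) ^ 3 * n ^ 2 := by rw [sum_mul]
      _ ≤ ∑ A ∈ M, (4 * (456976 * k ^ 6) * A.card + 4 * k ^ 3 * n ^ 2) := by
          refine sum_le_sum fun A hA => ?_
          have hs := ((hMmem A).1 hA).1.2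
          have h1 : (A.card + k) ^ 3 ≤ 4 * (A.card ^ 3 + k ^ 3) := by
            have := add_pow_le (Nat.zero_le A.card) (Nat.zero_le k) 3
            simpa using this
          have h2 : (A.card * n) ^ 2 ≤ (676 * k ^ 3) ^ 2 := Nat.pow_le_pow_left hs 2
          calc (A.card + k) ^ 3 * n ^ 2 ≤ 4 * (A.card ^ 3 + k ^ 3) * n ^ 2 :=
                Nat.mul_le_mul_right _ h1
            _ = 4 * (A.card * n) ^ 2 * A.card + 4 * k ^ 3 * n ^ 2 := by ring
            _ ≤ 4 * (676 * k ^ 3) ^ 2 * A.card + 4 * k ^ 3 * n ^ 2 := by gcongr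
            _ = 4 * (456976 * k ^ 6) * A.card + 4 * k ^ 3 * n ^ 2 := by ring
      _ = 4 * (456976 * k ^ 6) * ∑ A ∈ M, A.card + M.card * (4 * k ^ 3 * n ^ 2) := by
          rw [sum_add_distrib, ← mul_sum, sum_const, smul_eq_mul]
      _ ≤ 4 * (456976 * k ^ 6) * n + n * (4 * k ^ 3 * n ^ 2) := by gcongr
      _ = 4 * (456976 * k ^ 6) * n + 4 * k ^ 3 * n ^ 2 * n := by ring
  have hnpos : 0 < n := by omega
  have hkey2 : n ^ 2 * n ^ 2 ≤ 4 * (456976 * k ^ 6) + 4 * k ^ 3 * n ^ 2 := by
    have : (n ^ 2 * n ^ 2) * n ≤ (4 * (456976 * k ^ 6) + 4 * k ^ 3 * n ^ 2) * n := by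
      calc (n ^ 2 * n ^ 2) * n = n ^ 3 * n ^ 2 := by ring
        _ ≤ 4 * (456976 * k ^ 6) * n + 4 * k ^ 3 * n ^ 2 * n := hkey
        _ = (4 * (456976 * k ^ 6) + 4 * k ^ 3 * n ^ 2) * n := by ring
    exact Nat.le_of_mul_le_mul_right this hnpos
  have e1 : 10000 * k ^ 3 * n ^ 2 ≤ n ^ 2 * n ^ 2 := Nat.mul_le_mul_right _ hbig.le
  have e2 : k ^ 3 * (10000 * k ^ 3) ≤ k ^ 3 * n ^ 2 := Nat.mul_le_mul_left _ hbig.le
  have e3 : 0 < k ^ 6 := pow_pos hk 6
  have e4 : k ^ 3 * (10000 * k ^ 3) = 10000 * k ^ 6 := by ring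
  rw [e4] at e2
  have e5 : 10000 * k ^ 3 * n ^ 2 = 10000 * (k ^ 3 * n ^ 2) := by ring
  have e6 : 4 * k ^ 3 * n ^ 2 = 4 * (k ^ 3 * n ^ 2) := by ring
  rw [e5] at e1
  rw [e6] at hkey2
  omega

end Pool.Agent.Helper37.Mader
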