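import Mathlib

set_option autoImplicit false

namespace Pool.Agent.Helper37.TwC

/-- coverage of the boundary `u | u + 1` -/
def Cv {P : Type} (l r : P → ℕ) (b : P) (u : ℕ) : Prop := l b ≤ u ∧ u + 1 ≤ r b

structure Ax {P : Type} (le : P → P → Prop) (l r : P → ℕ) (col : P → Bool) : Prop where
  htr : ∀ a b c, le a b → le b c → le a c
  cro : ∀ x y u, le x y → (l x ≤ u ∧ u < l y ∨ l y ≤ u ∧ u < l x) →
    ∃ b, le x b ∧ le b y ∧ Cv l r b u
  h2 : ∀ a b c u, Cv l r a u → Cv l r b u → Cv l r c u → a = b ∨ a = c ∨ b = c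
  hcol : ∀ a b u, a ≠ b → Cv l r a u → Cv l r b u → col a ≠ col b
  h3 : ∀ a b c d p, (l a ≤ p ∧ p ≤ r a) → (l b ≤ p ∧ p ≤ r b) → (l c ≤ p ∧ p ≤ r c) →
    (l d ≤ p ∧ p ≤ r d) → a = b ∨ a = c ∨ a = d ∨ b = c ∨ b = d ∨ c = d

section
variable {P : Type} {le : P → P → Prop} {l r : P → ℕ} {col : P → Bool}

theorem Ax.const (A : Ax le l r col) (F G : P → Prop) (hFG : ∀ z, F z → G z → False) (a b : ℕ)
    (hF : ∀ u, a ≤ u → u < b → ∃ f, F f ∧ Cv l r f u)
    (hG : ∀ u, a ≤ u → u < b → ∃ g, G g ∧ Cv l r g u) :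
    ∀ n u f f', a ≤ u → u + n < b → F f → Cv l r f u → F f' → Cv l r f' (u + n) →
      col f = col f' := by
  have hne : ∀ f g, F f → G g → f ≠ g := fun f g h1 h2 h => hFG f h1 (h ▸ h2)
  intro n
  induction n with
  | zero =>
    intro u f f' h1 h2 hf hfu hf' hfu'
    obtain ⟨g, hg, hgu⟩ := hG u h1 (by omega)
    rcases A.h2 f f' g u hfu hfu' hgu with h | h | h
    · rw [h]
    · exact absurd h (hne f g hf hg)
    · exact absurd h (hne f' g hf' hg)
  | succ n ih =>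
    intro u f f' h1 h2 hf hfu hf' hfu'
    obtain ⟨f1, hf1, hfu1⟩ := hF (u + n) (by omega) (by omega)
    obtain ⟨g1, hg1, hgu1⟩ := hG (u + n) (by omega) (by omega)
    obtain ⟨g2, hg2, hgu2⟩ := hG (u + (n + 1)) (by omega) (by omega)
    rw [ih u f f1 h1 (by omega) hf hfu hf1 hfu1]
    have k1 : (l f1 ≤ u + n + 1 ∧ u + n + 1 ≤ r f1) := ⟨by have := hfu1.1; omega, hfu1.2⟩
    have k2 : (l g1 ≤ u + n + 1 ∧ u + n + 1 ≤ r g1) := ⟨by have := hgu1.1; omega, hgu1.2⟩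
    have k3 : (l f' ≤ u + n + 1 ∧ u + n + 1 ≤ r f') := ⟨hfu'.1, by have := hfu'.2; omega⟩
    have k4 : (l g2 ≤ u + n + 1 ∧ u + n + 1 ≤ r g2) := ⟨hgu2.1, by have := hgu2.2; omega⟩
    rcases A.h3 f1 g1 f' g2 (u + n + 1) k1 k2 k3 k4 with h | h | h | h | h | h
    · exact absurd h (hne _ _ hf1 hg1)
    · rw [h]
    · exact absurd h (hne _ _ hf1 hg2)
    · exact absurd h.symm (hne _ _ hf' hg1)
    · have e1 := A.hcol f1 g1 (u + n) (hne _ _ hf1 hg1) hfu1 hgu1
      have e2 := A.hcol f' g2 (u + (n + 1)) (hne _ _ hf' hg2) hfu' hgu2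
      rw [← h] at e2
      revert e1 e2
      cases col f1 <;> cases col f' <;> cases col g1 <;> simp
    · exact absurd h (hne _ _ hf' hg2)

/-- good pairs of colour `c` -/
def Good (le : P → P → Prop) (l r : P → ℕ) (col : P → Bool) (c : Bool) (x y : P) : Prop :=
  ¬ le x y ∧ l x < l y ∧ ∀ u, l x ≤ u → u < l y →
    ∃ a b, le x a ∧ le b y ∧ Cv l r a u ∧ Cv l r b u ∧ col a = c

theorem Ax.good (A : Ax le l r col) (x y : P) (h : ¬ le x y) (hl : l x < l y)
    (hA : ∀ u, l x ≤ u → u < l y → ∃ b, le x b ∧ Cv l r b u)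
    (hB : ∀ u, l x ≤ u → u < l y → ∃ b, le b y ∧ Cv l r b u) (a0 : P) (h0 : le x a0)
    (hc0 : Cv l r a0 (l x)) : Good le l r col (col a0) x y := by
  refine ⟨h, hl, ?_⟩
  intro u hu1 hu2
  obtain ⟨a, ha1, ha2⟩ := hA u hu1 hu2
  obtain ⟨b, hb1, hb2⟩ := hB u hu1 hu2
  refine ⟨a, b, ha1, hb1, ha2, hb2, ?_⟩
  have := A.const (fun z => le x z) (fun z => le z y) (fun z h1 h2 => h (A.htr _ _ _ h1 h2))
    (l x) (l y) hA hB (u - l x) (l x) a0 a le_rfl (by omega) h0 hc0 ha1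
    (by rwa [Nat.add_sub_cancel' hu1])
  exact this.symm

/-- elements over a boundary of a good pair -/
theorem Ax.two (A : Ax le l r col) {c : Bool} {x y : P} (h : Good le l r col c x y) (u : ℕ)
    (h1 : l x ≤ u) (h2 : u < l y) (d : P) (hd : Cv l r d u) :
    (col d = c → le x d) ∧ (col d ≠ c → le d y) := by
  obtain ⟨a, b, ha, hb, hau, hbu, hac⟩ := h.2.2 u h1 h2
  have hab : a ≠ b := fun e => h.1 (A.htr _ _ _ ha (e ▸ hb))
  have hbc : col b ≠ c := hac ▸ (A.hcol a b u hab hau hbu).symm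
  rcases A.h2 d a b u hd hau hbu with e | e | e
  · subst e; exact ⟨fun _ => ha, fun e => absurd hac e⟩
  · subst e; exact ⟨fun e => absurd e hbc, fun _ => hb⟩
  · exact absurd e hab

/-- consecutive intervals are disjoint -/
theorem Ax.disj (A : Ax le l r col) {c : Bool} {x y x' y' : P} (h : Good le l r col c x y)
    (h' : Good le l r col c x' y') (hxy : le x y') (u : ℕ) (h1 : l x ≤ u) (h2 : u < l y)
    (h3 : l x' ≤ u) (h4 : u < l y') : False := by
  obtain ⟨d, hd1, hd2, hd3⟩ := A.cro x y' u hxy (Or.inl ⟨h1, h4⟩)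
  by_cases hc : col d = c
  · exact h'.1 (A.htr _ _ _ ((A.two h' u h3 h4 d hd3).1 hc) hd2)
  · exact h.1 (A.htr _ _ _ hd1 ((A.two h u h1 h2 d hd3).2 hc))

/-- no cycle of length two, `I_0` left of `I_1` -/
theorem Ax.cyc2 (A : Ax le l r col) {c : Bool} {x y x' y' : P} (h : Good le l r col c x y)
    (h' : Good le l r col c x' y') (hxy : le x y') (hxy' : le x' y) (hlt : l y ≤ l x') :
    False := by
  have hl := h.2.1
  have hl' := h'.2.1
  have hF : ∀ u, l x ≤ u → u < l y' → ∃ f, (le x f ∧ le f y') ∧ Cv l r f u := by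
    intro u hu1 hu2
    obtain ⟨d, hd1, hd2, hd3⟩ := A.cro x y' u hxy (Or.inl ⟨hu1, hu2⟩)
    exact ⟨d, ⟨hd1, hd2⟩, hd3⟩
  have hG : ∀ u, l x ≤ u → u < l y' → ∃ g, (le g y ∨ le x' g) ∧ Cv l r g u := by
    intro u hu1 hu2
    rcases Nat.lt_or_ge u (l y) with k | k
    · obtain ⟨a, b, ha, hb, hau, hbu, hac⟩ := h.2.2 u hu1 k
      exact ⟨b, Or.inl hb, hbu⟩
    · rcases Nat.lt_or_ge u (l x') with k' | k'
      · obtain ⟨d, hd1, hd2, hd3⟩ := A.cro x' y u hxy' (Or.inr ⟨k, k'⟩)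
        exact ⟨d, Or.inl hd2, hd3⟩
      · obtain ⟨a, b, ha, hb, hau, hbu, hac⟩ := h'.2.2 u k' hu2
        exact ⟨a, Or.inr ha, hau⟩
  have hFG : ∀ z, (le x z ∧ le z y') → (le z y ∨ le x' z) → False := by
    rintro z ⟨z1, z2⟩ (z3 | z3)
    · exact h.1 (A.htr _ _ _ z1 z3)
    · exact h'.1 (A.htr _ _ _ z3 z2)
  obtain ⟨f, hf, hfu⟩ := hF (l x) le_rfl (by omega)
  obtain ⟨f', hf', hfu'⟩ := hF (l x') (by omega) (by omega)
  have e := A.const _ _ hFG (l x) (l y') hF hG (l x' - l x) (l x) f f' le_rfl (by omega) hf hfu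
    hf' (by rwa [Nat.add_sub_cancel' (by omega)])
  have e1 : col f = c := by
    by_contra hc
    exact h.1 (A.htr _ _ _ hf.1 ((A.two h (l x) le_rfl hl f hfu).2 hc))
  have e2 : col f' ≠ c := by
    intro hc
    exact h'.1 (A.htr _ _ _ ((A.two h' (l x') le_rfl hl' f' hfu').1 hc) hf'.2)
  exact e2 (e ▸ e1)

theorem mk_cyc {T : Type} (R : T → T → Prop) (s : ℕ → T) (m : ℕ) (hm : 1 ≤ m)
    (h : ∀ i, i + 1 < m → R (s i) (s (i + 1))) (h' : R (s (m - 1)) (s 0)) :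
    ∃ t : ℕ → T, (∀ k, t (k + m) = t k) ∧ ∀ k, R (t k) (t (k + 1)) := by
  refine ⟨fun k => s (k % m), fun k => by simp, fun k => ?_⟩
  show R (s (k % m)) (s ((k + 1) % m))
  have hlt : k % m < m := Nat.mod_lt _ hm
  rw [← Nat.mod_add_mod]
  rcases Nat.lt_or_ge (k % m + 1) m with g | g
  · rw [Nat.mod_eq_of_lt g]; exact h _ g
  · have e : k % m = m - 1 := by omega
    rw [e, show m - 1 + 1 = m by omega, Nat.mod_self]
    exact h'

/-- no cycle of good pairs of one colour -/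
theorem Ax.no_cyc (A : Ax le l r col) (c : Bool) :
    ∀ n (t : ℕ → P × P), 1 ≤ n → (∀ k, t (k + n) = t k) →
      ¬ ∀ k, Good le l r col c (t k).1 (t k).2 ∧ le (t k).1 (t (k + 1)).2 := by
  intro n
  induction n using Nat.strong_induction_on with
  | _ n ih =>
  intro t hn ht hall
  have hg : ∀ k, Good le l r col c (t k).1 (t k).2 := fun k => (hall k).1
  have hle : ∀ k, le (t k).1 (t (k + 1)).2 := fun k => (hall k).2
  rcases Nat.lt_or_ge n 2 with h1 | h1
  · have hn1 : n = 1 := by omega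
    subst hn1
    have := hle 0
    rw [ht 0] at this
    exact (hg 0).1 this
  rcases Nat.lt_or_ge n 3 with h2 | h2
  · have hn2 : n = 2 := by omega
    subst hn2
    have q0 := hle 0
    have q1 := hle 1
    have e : t (1 + 1) = t 0 := ht 0
    rw [e] at q1
    have g0 := hg 0
    have g1 := hg (0 + 1)
    by_cases hs : l (t 0).2 ≤ l (t (0 + 1)).1
    · exact A.cyc2 g0 g1 q0 q1 hs
    · by_cases hs' : l (t (0 + 1)).2 ≤ l (t 0).1
      · exact A.cyc2 g1 g0 q1 q0 hs'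
      · have a1 := g0.2.1
        have a2 := g1.2.1
        rcases Nat.le_total (l (t 0).1) (l (t (0 + 1)).1) with w | w
        · exact A.disj g0 g1 q0 (l (t (0 + 1)).1) w (by omega) le_rfl a2
        · exact A.disj g0 g1 q0 (l (t 0).1) le_rfl a1 w (by omega)
  -- n ≥ 3: strictness
  have s1 : ∀ k, ¬ le (t k).1 (t (k + 2)).2 := by
    intro k hk
    obtain ⟨t', p1, p2⟩ := mk_cyc (fun s s' : P × P => Good le l r col c s.1 s.2 ∧ le s.1 s'.2)
      (fun i => t (k + 2 + i)) (n - 1) (by omega) (fun i _ => ⟨hg _, hle _⟩) (by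
        refine ⟨hg _, ?_⟩
        show le (t (k + 2 + (n - 1 - 1))).1 (t (k + 2 + 0)).2
        rw [show k + 2 + (n - 1 - 1) = k + n by omega, ht k]
        exact hk)
    exact ih (n - 1) (by omega) t' (by omega) p1 p2
  have s2 : ∀ k, ¬ le (t (k + 1)).1 (t k).2 := by
    intro k hk
    obtain ⟨t', p1, p2⟩ := mk_cyc (fun s s' : P × P => Good le l r col c s.1 s.2 ∧ le s.1 s'.2)
      (fun i => t (k + i)) 2 (by omega) (fun i _ => ⟨hg _, hle _⟩) (by
        refine ⟨hg _, ?_⟩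
        show le (t (k + 1)).1 (t (k + 0)).2
        exact hk)
    exact ih 2 (by omega) t' (by omega) p1 p2
  -- the maximal right end
  obtain ⟨K, hK⟩ : ∃ K, ∀ j, l (t j).2 ≤ l (t (K + 1)).2 := by
    obtain ⟨K, hK1, hK2⟩ := Finset.exists_max_image (Finset.range n) (fun j => l (t j).2)
      ⟨0, Finset.mem_range.2 (by omega)⟩
    have hper : ∀ q j, t (j + n * q) = t j := by
      intro q
      induction q with
      | zero => intro j; rfl
      | succ q ihq => intro j; rw [Nat.mul_succ, ← Nat.add_assoc, ht, ihq]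
    refine ⟨K + (n - 1), fun j => ?_⟩
    rw [show K + (n - 1) + 1 = K + n by omega, ht K]
    have e := hper (j / n) (j % n)
    rw [Nat.mod_add_div] at e
    rw [e]
    exact hK2 _ (Finset.mem_range.2 (Nat.mod_lt _ (by omega)))
  have g0 := hg K
  have g1 := hg (K + 1)
  have g2 := hg (K + 2)
  have l0 := g0.2.1
  have l1 := g1.2.1
  have l2 := g2.2.1
  have m0 := hK K
  have m2 := hK (K + 2)
  have d0 : l (t K).2 ≤ l (t (K + 1)).1 := by
    by_contra hcon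
    rcases Nat.le_total (l (t K).1) (l (t (K + 1)).1) with w | w
    · exact A.disj g0 g1 (hle K) (l (t (K + 1)).1) w (by omega) le_rfl l1
    · exact A.disj g0 g1 (hle K) (l (t K).1) le_rfl l0 w (by omega)
  have d2 : l (t (K + 2)).2 ≤ l (t (K + 1)).1 := by
    by_contra hcon
    rcases Nat.le_total (l (t (K + 1)).1) (l (t (K + 2)).1) with w | w
    · exact A.disj g1 g2 (hle (K + 1)) (l (t (K + 2)).1) w (by omega) le_rfl l2
    · exact A.disj g1 g2 (hle (K + 1)) (l (t (K + 1)).1) le_rfl l1 w (by omega)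
  have d3 : l (t (K + 2)).2 ≤ l (t K).1 := by
    by_contra hcon
    obtain ⟨u, hu⟩ : ∃ u, u + 1 = l (t (K + 2)).2 := ⟨l (t (K + 2)).2 - 1, by omega⟩
    obtain ⟨d, hd1, hd2, hd3⟩ := A.cro (t K).1 (t (K + 1)).2 u (hle K)
      (Or.inl ⟨by omega, by omega⟩)
    have htw := A.two g2 u (by omega) (by omega) d hd3
    by_cases hc : col d = c
    · exact s2 (K + 1) (A.htr _ _ _ (htw.1 hc) hd2)
    · exact s1 K (A.htr _ _ _ hd1 (htw.2 hc))
  obtain ⟨d, hd1, hd2, hd3⟩ := A.cro (t (K + 1)).1 (t (K + 2)).2 (l (t K).1) (hle (K + 1))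
    (Or.inr ⟨by omega, by omega⟩)
  have htw := A.two g0 (l (t K).1) le_rfl l0 d hd3
  by_cases hc : col d = c
  · exact s1 K (A.htr _ _ _ (htw.1 hc) hd2)
  · exact s2 K (A.htr _ _ _ hd1 (htw.2 hc))

end

end Pool.Agent.Helper37.TwC
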