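import Pool.Agent.Helper66.PD.Tw1
import Pool.Agent.Helper37.TwC

set_option autoImplicit false

namespace Pool.Agent.Helper37.TwC

open Pool.Agent.Helper66.PD

section
variable {P : Type} {le : P → P → Prop} {l r : P → ℕ} {col : P → Bool}

open Classical in
/-- kind of a pair on one side -/
noncomputable def kind (le : P → P → Prop) (l r : P → ℕ) (col : P → Bool) (x y : P) :
    Option (Option Bool) :=
  if ∃ u, l x ≤ u ∧ u < l y ∧ ∀ b, le x b → ¬ Cv l r b u then none
  else if ∃ u, l x ≤ u ∧ u < l y ∧ ∀ b, le b y → ¬ Cv l r b u then some none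
  else some (some (decide (∃ a, le x a ∧ Cv l r a (l x) ∧ col a = true)))

theorem no_dec (f : ℕ → ℕ) (h : ∀ k, f (k + 1) < f k) : False := by
  have : ∀ k, f k + k ≤ f 0 := by
    intro k
    induction k with
    | zero => simp
    | succ k ih => have := h k; omega
  have := this (f 0 + 1)
  omega

theorem Ax.kind_cyc (A : Ax le l r col) (κ : Option (Option Bool)) (n : ℕ) (t : ℕ → P × P)
    (hn : 1 ≤ n) (ht : ∀ k, t (k + n) = t k) :
    ¬ ∀ k, (¬ le (t k).1 (t k).2 ∧ l (t k).1 < l (t k).2 ∧ kind le l r col (t k).1 (t k).2 = κ) ∧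
      le (t k).1 (t (k + 1)).2 := by
  classical
  intro hall
  rcases κ with _ | _ | c
  · refine no_dec (fun k => l (t k).2) (fun k => ?_)
    obtain ⟨⟨h1, h2, h3⟩, h4⟩ := hall k
    have hA : ∃ u, l (t k).1 ≤ u ∧ u < l (t k).2 ∧ ∀ b, le (t k).1 b → ¬ Cv l r b u := by
      by_contra hA
      rw [kind, if_neg hA] at h3
      split_ifs at h3
    obtain ⟨u, u1, u2, u3⟩ := hA
    show l (t (k + 1)).2 < l (t k).2
    by_contra hcon
    obtain ⟨b, b1, b2, b3⟩ := A.cro _ _ u h4 (Or.inl ⟨u1, by omega⟩)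
    exact u3 b b1 b3
  · refine no_dec (fun k => l (t k).1) (fun k => ?_)
    obtain ⟨-, h4⟩ := hall k
    obtain ⟨⟨h1, h2, h3⟩, -⟩ := hall (k + 1)
    have hB : ∃ u, l (t (k + 1)).1 ≤ u ∧ u < l (t (k + 1)).2 ∧
        ∀ b, le b (t (k + 1)).2 → ¬ Cv l r b u := by
      by_contra hB
      rw [kind, if_neg hB] at h3
      split_ifs at h3
      simp at h3
    obtain ⟨u, u1, u2, u3⟩ := hB
    show l (t (k + 1)).1 < l (t k).1
    by_contra hcon
    obtain ⟨b, b1, b2, b3⟩ := A.cro _ _ u h4 (Or.inl ⟨by omega, u2⟩)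
    exact u3 b b2 b3
  · refine A.no_cyc c n t hn ht (fun k => ⟨?_, (hall k).2⟩)
    obtain ⟨⟨h1, h2, h3⟩, -⟩ := hall k
    have hA : ¬ ∃ u, l (t k).1 ≤ u ∧ u < l (t k).2 ∧ ∀ b, le (t k).1 b → ¬ Cv l r b u := by
      intro hA
      rw [kind, if_pos hA] at h3
      simp at h3
    have hB : ¬ ∃ u, l (t k).1 ≤ u ∧ u < l (t k).2 ∧ ∀ b, le b (t k).2 → ¬ Cv l r b u := by
      intro hB
      rw [kind, if_neg hA, if_pos hB] at h3
      simp at h3
    rw [kind, if_neg hA, if_neg hB] at h3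
    have h5 : decide (∃ a, le (t k).1 a ∧ Cv l r a (l (t k).1) ∧ col a = true) = c := by
      simpa using h3
    have hA' : ∀ u, l (t k).1 ≤ u → u < l (t k).2 → ∃ b, le (t k).1 b ∧ Cv l r b u := by
      intro u u1 u2
      by_contra hcon
      push Not at hcon
      exact hA ⟨u, u1, u2, hcon⟩
    have hB' : ∀ u, l (t k).1 ≤ u → u < l (t k).2 → ∃ b, le b (t k).2 ∧ Cv l r b u := by
      intro u u1 u2
      by_contra hcon
      push Not at hcon
      exact hB ⟨u, u1, u2, hcon⟩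
    by_cases hq : ∃ a, le (t k).1 a ∧ Cv l r a (l (t k).1) ∧ col a = true
    · obtain ⟨a, a1, a2, a3⟩ := hq
      have hc : c = true := by rw [← h5]; exact decide_eq_true ⟨a, a1, a2, a3⟩
      rw [hc, ← a3]
      exact A.good _ _ h1 h2 hA' hB' a a1 a2
    · obtain ⟨a, a1, a2⟩ := hA' _ le_rfl h2
      have a3 : col a = false := by
        by_contra hca
        exact hq ⟨a, a1, a2, by simpa using hca⟩
      have hc : c = false := by rw [← h5]; exact decide_eq_false hq
      rw [hc, ← a3]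
      exact A.good _ _ h1 h2 hA' hB' a a1 a2

/-- the relation of an alternating cycle on one side -/
def RR (le : P → P → Prop) (l r : P → ℕ) (col : P → Bool) (κ : Option (Option Bool))
    (s t : P × P) : Prop :=
  (¬ le s.1 s.2 ∧ l s.1 < l s.2 ∧ kind le l r col s.1 s.2 = κ) ∧ le s.1 t.2

theorem Ax.no_trans (A : Ax le l r col) (κ : Option (Option Bool)) (s : P × P) :
    ¬ Relation.TransGen (RR le l r col κ) s s := by
  intro h
  obtain ⟨n, t, hn, ht, hp⟩ := st_SEQ (P × P) _ s h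
  exact A.kind_cyc κ n t hn hp ht

end

theorem bcro (P : Type) [PartialOrder P] [Fintype P] (l r : P → ℕ)
    (hadj : ∀ x y, x ⋖ y → l x ≤ r y ∧ l y ≤ r x) (x y : P) (u : ℕ) (hxy : x ≤ y) :
    (l x ≤ u ∧ u < l y ∨ l y ≤ u ∧ u < l x) → ∃ b, x ≤ b ∧ b ≤ y ∧ Cv l r b u := by
  have h := le_rtg hxy
  induction h with
  | refl => rintro (h | h) <;> omega
  | @tail b c h1 h2 ih =>
    have hxb : x ≤ b := rtg_le h1
    have hbc : b ≤ c := h2.le
    obtain ⟨g1, g2⟩ := hadj b c h2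
    rintro (h | h)
    · by_cases hb : u < l b
      · obtain ⟨d, d1, d2, d3⟩ := ih hxb (Or.inl ⟨h.1, hb⟩)
        exact ⟨d, d1, d2.trans hbc, d3⟩
      · exact ⟨b, hxb, hbc, by omega, by omega⟩
    · by_cases hb : l b ≤ u
      · obtain ⟨d, d1, d2, d3⟩ := ih hxb (Or.inr ⟨hb, h.2⟩)
        exact ⟨d, d1, d2.trans hbc, d3⟩
      · exact ⟨c, hxy, le_rfl, h.1, by omega⟩

theorem card3 {α : Type} [DecidableEq α] (s : Finset α) (hs : s.card ≤ 2) (a b c : α)
    (ha : a ∈ s) (hb : b ∈ s) (hc : c ∈ s) : a = b ∨ a = c ∨ b = c := by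
  by_contra hcon
  push Not at hcon
  obtain ⟨h1, h2, h3⟩ := hcon
  have : ({a, b, c} : Finset α).card = 3 := Finset.card_eq_three.2 ⟨a, b, c, h1, h2, h3, rfl⟩
  have h4 : ({a, b, c} : Finset α) ⊆ s := by
    intro z hz
    simp only [Finset.mem_insert, Finset.mem_singleton] at hz
    rcases hz with rfl | rfl | rfl <;> assumption
  have := Finset.card_le_card h4
  omega

theorem card4 {α : Type} [DecidableEq α] (s : Finset α) (hs : s.card ≤ 3) (a b c d : α)
    (ha : a ∈ s) (hb : b ∈ s) (hc : c ∈ s) (hd : d ∈ s) :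
    a = b ∨ a = c ∨ a = d ∨ b = c ∨ b = d ∨ c = d := by
  by_contra hcon
  push Not at hcon
  obtain ⟨h1, h2, h3, h4, h5, h6⟩ := hcon
  have e : ({a, b, c, d} : Finset α).card = 4 := by
    rw [Finset.card_insert_of_notMem (by simp [h1, h2, h3]),
      Finset.card_insert_of_notMem (by simp [h4, h5]), Finset.card_insert_of_notMem (by simp [h6]),
      Finset.card_singleton]
  have h7 : ({a, b, c, d} : Finset α) ⊆ s := by
    intro z hz
    simp only [Finset.mem_insert, Finset.mem_singleton] at hz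
    rcases hz with rfl | rfl | rfl | rfl <;> assumption
  have := Finset.card_le_card h7
  omega

theorem dual_trans {P : Type} [PartialOrder P] {l r : P → ℕ} {col : P → Bool}
    (κ : Option (Option Bool)) (S : P → P → Prop)
    (hS : ∀ x y, S x y → ¬ x ≤ y ∧ l y < l x ∧
      kind (fun a b : P => b ≤ a) l r col y x = κ) (s t : P × P)
    (h : Relation.TransGen (Alt P S) s t) :
    Relation.TransGen (RR (fun a b : P => b ≤ a) l r col κ) t.swap s.swap := by
  have key : ∀ s t, Alt P S s t → RR (fun a b : P => b ≤ a) l r col κ t.swap s.swap := by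
    rintro s t ⟨h1, h2, h3⟩
    exact ⟨hS _ _ h2, h3⟩
  induction h with
  | single h => exact Relation.TransGen.single (key _ _ h)
  | tail h1 h2 ih => exact Relation.TransGen.head (key _ _ h2) ih

/-- path-width two gives dimension at most eight -/
theorem dim_two (P : Type) [PartialOrder P] [Fintype P] (hw : PathWidthLE (cov P) 2) :
    DimLE P 8 := by
  classical
  obtain ⟨m, l, r, hR, hc2⟩ := r3_two P hw
  have h2 : ∀ a b c u, (l a ≤ u ∧ u + 1 ≤ r a) → (l b ≤ u ∧ u + 1 ≤ r b) →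
      (l c ≤ u ∧ u + 1 ≤ r c) → a = b ∨ a = c ∨ b = c := by
    intro a b c u ha hb hc
    exact card3 _ (hc2 u) a b c (Finset.mem_filter.2 ⟨Finset.mem_univ _, ha⟩)
      (Finset.mem_filter.2 ⟨Finset.mem_univ _, hb⟩) (Finset.mem_filter.2 ⟨Finset.mem_univ _, hc⟩)
  have h3 : ∀ a b c d p, (l a ≤ p ∧ p ≤ r a) → (l b ≤ p ∧ p ≤ r b) → (l c ≤ p ∧ p ≤ r c) →
      (l d ≤ p ∧ p ≤ r d) → a = b ∨ a = c ∨ a = d ∨ b = c ∨ b = d ∨ c = d := by
    intro a b c d p ha hb hc hd
    exact card4 _ (hR.card p) a b c d (Finset.mem_filter.2 ⟨Finset.mem_univ _, ha⟩)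
      (Finset.mem_filter.2 ⟨Finset.mem_univ _, hb⟩) (Finset.mem_filter.2 ⟨Finset.mem_univ _, hc⟩)
      (Finset.mem_filter.2 ⟨Finset.mem_univ _, hd⟩)
  obtain ⟨col, hcol⟩ := r3_col m l r hR h2
  have A1 : Ax (fun a b : P => a ≤ b) l r col :=
    ⟨fun a b c h1 h2 => le_trans h1 h2, fun x y u hxy h => bcro P l r hR.adj x y u hxy h,
      h2, hcol, h3⟩
  have A2 : Ax (fun a b : P => b ≤ a) l r col := by
    refine ⟨fun a b c h1 h2 => le_trans h2 h1, fun x y u hxy h => ?_, h2, hcol, h3⟩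
    obtain ⟨b, b1, b2, b3⟩ := bcro P l r hR.adj y x u hxy h.symm
    exact ⟨b, b2, b1, b3⟩
  let χ : P → P → Bool × Option (Option Bool) := fun x y =>
    if l x < l y then (true, kind (fun a b : P => a ≤ b) l r col x y)
    else (false, kind (fun a b : P => b ≤ a) l r col y x)
  have hf : ∀ c : Bool × Option (Option Bool), ∃ f : P → ℕ, (∀ x y, x ≤ y → f x ≤ f y) ∧
      ∀ x y, (¬ x ≤ y ∧ χ x y = c) → f y < f x := by
    rintro ⟨side, κ⟩
    refine st_EXT P (fun x y => ¬ x ≤ y ∧ χ x y = (side, κ)) (fun x y hxy => hxy.1) ?_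
    intro s hs
    cases side with
    | true =>
      refine A1.no_trans κ s ((Relation.TransGen.mono ?_) s s hs)
      rintro s t ⟨⟨h4, h5⟩, -, h6⟩
      simp only [χ] at h5
      split_ifs at h5 with h7
      · exact ⟨⟨h4, h7, (Prod.ext_iff.1 h5).2⟩, h6⟩
      · simp at h5
    | false =>
      refine A2.no_trans κ s.swap (dual_trans κ _ ?_ s s hs)
      rintro x y ⟨h4, h5⟩
      simp only [χ] at h5
      split_ifs at h5 with h7
      · simp at h5
      · refine ⟨h4, ?_, (Prod.ext_iff.1 h5).2⟩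
        rcases Nat.lt_or_ge (l y) (l x) with h8 | h8
        · exact h8
        · exact absurd (hR.inj x y (by omega)) (fun h => h4 h.le)
  choose g hg hr using hf
  exact upp_fin P (Bool × Option (Option Bool)) 8 (by decide) g χ hg
    (fun c x y hxy hc => hr c x y ⟨hxy, hc⟩)

theorem pw_mono {V : Type} (G : SimpleGraph V) {w w' : ℕ} (h : w ≤ w') (hw : PathWidthLE G w) :
    PathWidthLE G w' := by
  obtain ⟨m, B, h1, h2, h3, h4⟩ := hw
  exact ⟨m, B, h1, h2, h3, fun i => (h4 i).trans (by omega)⟩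

/-- the exact exponent for every path-width -/
theorem path_width_exact : ∀ w : ℕ, ∃ C : ℕ, ∀ (h : ℕ) (P : Type) [PartialOrder P] [Fintype P],
    HeightLE P h → PathWidthLE (cov P) w → DimLE P (C * h ^ ((w - 1) / 2)) := by
  intro w
  rcases Nat.lt_or_ge w 2 with h | h
  · refine ⟨8, fun n P _ _ hh hw => ?_⟩
    have e : (w - 1) / 2 = 0 := by omega
    rw [e, pow_zero, Nat.mul_one]
    exact dim_two P (pw_mono _ (by omega) hw)
  · rcases Nat.even_or_odd' w with ⟨j, hj | hj⟩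
    · obtain ⟨i, rfl⟩ : ∃ i, j = i + 1 := ⟨j - 1, by omega⟩
      obtain ⟨C, hC⟩ := path_width_rec_iter 2 i
      refine ⟨C * 8, fun n P _ _ hh hw => ?_⟩
      have e : (w - 1) / 2 = i := by omega
      have e2 : w = 2 + 2 * i := by omega
      rw [e, show C * 8 * n ^ i = C * n ^ i * 8 by ring]
      subst e2
      exact hC n 8 (by omega) (fun Q _ _ _ hQ => dim_two Q hQ) P hh hw
    · obtain ⟨C, hC⟩ := path_width_upper4 (tcg st_CRO) (tcl st_CRO) w
      refine ⟨C, fun n P _ _ hh hw => ?_⟩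
      have e : (w - 1) / 2 = w / 2 := by omega
      rw [e]
      exact hC n P hh hw

end Pool.Agent.Helper37.TwC
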